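import Mathlib

section

namespace Pool.Agent.Lib.MP_24de68_nt

open HahnSeries

variable {F : Type*} [Field F]

/-- The part of a Laurent series with odd exponents. -/
noncomputable def od (x : HahnSeries ℤ F) : HahnSeries ℤ F where
  coeff n := if Odd n then x.coeff n else 0
  isPWO_support' := x.isPWO_support.mono (by
    intro n hn
    simp only [Function.mem_support, ne_eq, ite_eq_right_iff, Classical.not_imp] at hn
    exact hn.2)

theorem od_coeff (x : HahnSeries ℤ F) (n : ℤ) :
    (od x).coeff n = if Odd n then x.coeff n else 0 := rfl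

theorem od_add (x y : HahnSeries ℤ F) : od (x + y) = od x + od y := by
  ext n
  simp only [od_coeff, coeff_add]
  split_ifs <;> simp

theorem od_zero : od (0 : HahnSeries ℤ F) = 0 := by
  ext n
  simp [od_coeff]

theorem od_od (x : HahnSeries ℤ F) : od (od x) = od x := by
  ext n
  simp only [od_coeff]
  split_ifs <;> simp_all

variable [CharP F 2]

theorem hs_add_self (x : HahnSeries ℤ F) : x + x = 0 := by
  ext n
  simp [CharTwo.add_self_eq_zero]

instance hsCharP : CharP (HahnSeries ℤ F) 2 :=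
  charP_of_injective_ringHom (f := (HahnSeries.C : F →+* HahnSeries ℤ F)) HahnSeries.C_injective 2

theorem od_mul (x y : HahnSeries ℤ F) : od (x * y) = od x * y + x * od y := by
  ext n
  rw [coeff_add, od_coeff, coeff_mul]
  have h1 : (od x).support ⊆ x.support := by
    intro n hn
    simp only [mem_support, od_coeff, ne_eq, ite_eq_right_iff, Classical.not_imp] at hn
    exact hn.2
  have h2 : (od y).support ⊆ y.support := by
    intro n hn
    simp only [mem_support, od_coeff, ne_eq, ite_eq_right_iff, Classical.not_imp] at hn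
    exact hn.2
  rw [coeff_mul_left' x.isPWO_support h1, coeff_mul_right' y.isPWO_support h2,
    ← Finset.sum_add_distrib]
  have key : ∀ ij ∈ Finset.antidiagonal x.isPWO_support y.isPWO_support n,
      (od x).coeff ij.1 * y.coeff ij.2 + x.coeff ij.1 * (od y).coeff ij.2 =
      if Odd n then x.coeff ij.1 * y.coeff ij.2 else 0 := by
    intro ij hij
    rw [Finset.mem_antidiagonal] at hij
    obtain ⟨_, _, rfl⟩ := hij
    simp only [od_coeff, Int.odd_add]
    by_cases ha : Odd ij.1 <;> by_cases hb : Odd ij.2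
    · simp [ha, hb, CharTwo.add_self_eq_zero]
    · have hb' : Even ij.2 := Int.not_odd_iff_even.mp hb
      simp [ha, hb, hb']
    · have hb' : ¬ Even ij.2 := Int.not_even_iff_odd.mpr hb
      simp [ha, hb, hb']
    · have hb' : Even ij.2 := Int.not_odd_iff_even.mp hb
      simp [ha, hb, hb']
  rw [Finset.sum_congr rfl key]
  split_ifs <;> simp

theorem od_sq (x : HahnSeries ℤ F) : od (x ^ 2) = 0 := by
  rw [sq, od_mul, mul_comm, hs_add_self]

theorem coeff_sq_two_mul (x : HahnSeries ℤ F) (n : ℤ) :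
    (x ^ 2).coeff (2 * n) = (x.coeff n) ^ 2 := by
  classical
  rw [sq x, coeff_mul]
  set S := Finset.antidiagonal x.isPWO_support x.isPWO_support (2 * n) with hS
  by_cases hn : x.coeff n = 0
  · rw [hn]
    simp only [ne_eq, OfNat.ofNat_ne_zero, not_false_eq_true, zero_pow]
    refine Finset.sum_involution (fun ij _ => (ij.2, ij.1)) ?_ ?_ ?_ ?_
    · intro ij _
      rw [mul_comm]
      exact CharTwo.add_self_eq_zero _
    · intro ij hij h0 h1
      rw [hS, Finset.mem_antidiagonal] at hij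
      have : ij.2 = ij.1 := congrArg Prod.fst h1
      have h3 : ij.1 = n := by have := hij.2.2; omega
      apply h0
      rw [h3, hn, zero_mul]
    · intro ij hij
      rw [hS, Finset.mem_antidiagonal] at hij ⊢
      exact ⟨hij.2.1, hij.1, by rw [← hij.2.2]; ring⟩
    · intro ij _; rfl
  · have hmem : (n, n) ∈ S := by
      rw [hS, Finset.mem_antidiagonal]
      exact ⟨hn, hn, by ring⟩
    rw [← Finset.add_sum_erase S _ hmem]
    have : ∑ ij ∈ S.erase (n, n), x.coeff ij.1 * x.coeff ij.2 = 0 := by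
      refine Finset.sum_involution (fun ij _ => (ij.2, ij.1)) ?_ ?_ ?_ ?_
      · intro ij _
        rw [mul_comm]
        exact CharTwo.add_self_eq_zero _
      · intro ij hij h0 h1
        rw [Finset.mem_erase, hS, Finset.mem_antidiagonal] at hij
        have : ij.2 = ij.1 := congrArg Prod.fst h1
        have h3 : ij.1 = n := by have := hij.2.2.2; omega
        exact hij.1 (Prod.ext h3 (by rw [this, h3]))
      · intro ij hij
        rw [Finset.mem_erase, hS, Finset.mem_antidiagonal] at hij ⊢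
        refine ⟨?_, hij.2.2.1, hij.2.1, by rw [← hij.2.2.2]; ring⟩
        intro h
        apply hij.1
        have ha := congrArg Prod.fst h
        have hb := congrArg Prod.snd h
        exact Prod.ext hb ha
      · intro ij _; rfl
    rw [this, add_zero, sq]

theorem coeff_sq_odd (x : HahnSeries ℤ F) {n : ℤ} (hn : Odd n) :
    (x ^ 2).coeff n = 0 := by
  have := congrArg (fun y => HahnSeries.coeff y n) (od_sq x)
  simpa [od_coeff, hn] using this

theorem hs_add_eq_zero {x y : HahnSeries ℤ F} : x + y = 0 ↔ x = y := CharTwo.add_eq_zero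

theorem hs_sq_inj {x y : HahnSeries ℤ F} (h : x ^ 2 = y ^ 2) : x = y := by
  have : (x + y) ^ 2 = 0 := by
    rw [CharTwo.add_sq, h, CharTwo.add_self_eq_zero]
  exact hs_add_eq_zero.mp (pow_eq_zero_iff (two_ne_zero) |>.mp this)

theorem exists_sq_of_od_eq_zero [PerfectRing F 2] {x : HahnSeries ℤ F} (hx : od x = 0) :
    ∃ y : HahnSeries ℤ F, y ^ 2 = x := by
  have hbdd : BddBelow (Function.support fun n : ℤ => (frobeniusEquiv F 2).symm (x.coeff (2 * n))) := by
    refine ⟨-|x.order|, ?_⟩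
    intro n hn
    rw [Function.mem_support] at hn
    have h1 : x.coeff (2 * n) ≠ 0 := by
      intro h
      apply hn
      rw [h, map_zero]
    have h2 : x.order ≤ 2 * n := order_le_of_coeff_ne_zero h1
    have h3 := neg_abs_le x.order
    have h4 := abs_nonneg x.order
    omega
  refine ⟨ofSuppBddBelow _ hbdd, ?_⟩
  ext n
  rcases Int.even_or_odd' n with ⟨k, rfl | rfl⟩
  · rw [coeff_sq_two_mul, coeff_ofSuppBddBelow]
    exact frobenius_apply_frobeniusEquiv_symm F 2 _
  · rw [coeff_sq_odd _ ⟨k, rfl⟩]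
    have := congrArg (fun y => HahnSeries.coeff y (2 * k + 1)) hx
    simpa [od_coeff] using this.symm

theorem od_single_odd {n : ℤ} (hn : Odd n) (a : F) : od (single n a) = single n a := by
  ext m
  rw [od_coeff]
  by_cases h : m = n
  · subst h; simp [hn]
  · simp [coeff_single_of_ne h]


section quad

variable {L : Type*} [Field L] [CharP L 2]

/-- The quadratic Artin-Schreier extension of `K` generated by `e`, inside `L`. -/
def quadExt (K : Subfield L) (e : L) (ha : e ^ 2 + e ∈ K) (he : e ∉ K) : Subfield L where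
  carrier := {x | ∃ u ∈ K, ∃ v ∈ K, x = u + v * e}
  mul_mem' := by
    rintro _ _ ⟨u, hu, v, hv, rfl⟩ ⟨u', hu', v', hv', rfl⟩
    refine ⟨u * u' + v * v' * (e ^ 2 + e), K.add_mem (K.mul_mem hu hu')
      (K.mul_mem (K.mul_mem hv hv') ha), u * v' + u' * v + v * v',
      K.add_mem (K.add_mem (K.mul_mem hu hv') (K.mul_mem hu' hv)) (K.mul_mem hv hv'), ?_⟩
    have h2 : (2 : L) = 0 := CharTwo.two_eq_zero
    linear_combination (-v * v' * e) * h2
  one_mem' := ⟨1, K.one_mem, 0, K.zero_mem, by ring⟩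
  add_mem' := by
    rintro _ _ ⟨u, hu, v, hv, rfl⟩ ⟨u', hu', v', hv', rfl⟩
    exact ⟨u + u', K.add_mem hu hu', v + v', K.add_mem hv hv', by ring⟩
  zero_mem' := ⟨0, K.zero_mem, 0, K.zero_mem, by ring⟩
  neg_mem' := by
    rintro _ ⟨u, hu, v, hv, rfl⟩
    exact ⟨-u, K.neg_mem hu, -v, K.neg_mem hv, by ring⟩
  inv_mem' := by
    rintro _ ⟨u, hu, v, hv, rfl⟩
    have h2 : (2 : L) = 0 := CharTwo.two_eq_zero
    by_cases hx : u + v * e = 0
    · rw [hx, inv_zero]; exact ⟨0, K.zero_mem, 0, K.zero_mem, by ring⟩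
    · have hy : u + v + v * e ≠ 0 := by
        intro h
        by_cases hv0 : v = 0
        · apply hx
          rw [hv0] at h ⊢
          simpa using h
        · apply he
          have : e = (-(u + v)) / v := by
            field_simp
            linear_combination h
          rw [this]
          exact K.div_mem (K.neg_mem (K.add_mem hu hv)) hv
      set n := u ^ 2 + u * v + v ^ 2 * (e ^ 2 + e) with hn
      have hnK : n ∈ K := K.add_mem (K.add_mem (K.pow_mem hu 2) (K.mul_mem hu hv))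
        (K.mul_mem (K.pow_mem hv 2) ha)
      have hnn : n = (u + v * e) * (u + v + v * e) := by
        rw [hn]; linear_combination (-u * v * e) * h2
      have hn0 : n ≠ 0 := by rw [hnn]; exact mul_ne_zero hx hy
      refine ⟨(u + v) / n, K.div_mem (K.add_mem hu hv) hnK, v / n, K.div_mem hv hnK, ?_⟩
      have : (u + v) / n + v / n * e = (u + v + v * e) / n := by ring
      rw [this, eq_div_iff hn0, hnn]
      field_simp

theorem mem_quadExt {K : Subfield L} {e : L} {ha : e ^ 2 + e ∈ K} {he : e ∉ K} {x : L} :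
    x ∈ quadExt K e ha he ↔ ∃ u ∈ K, ∃ v ∈ K, x = u + v * e := Iff.rfl

theorem le_quadExt {K : Subfield L} {e : L} {ha : e ^ 2 + e ∈ K} {he : e ∉ K} {x : L}
    (hx : x ∈ K) : x ∈ quadExt K e ha he := ⟨x, hx, 0, K.zero_mem, by ring⟩

theorem gen_mem_quadExt {K : Subfield L} {e : L} {ha : e ^ 2 + e ∈ K} {he : e ∉ K} :
    e ∈ quadExt K e ha he := ⟨0, K.zero_mem, 1, K.one_mem, by ring⟩

theorem quad_unique {K : Subfield L} {e : L} (he : e ∉ K) {u v u' v' : L} (hu : u ∈ K)
    (hv : v ∈ K) (hu' : u' ∈ K) (hv' : v' ∈ K) (h : u + v * e = u' + v' * e) :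
    u = u' ∧ v = v' := by
  by_cases hvv : v = v'
  · subst hvv
    exact ⟨by simpa using h, rfl⟩
  · exfalso
    apply he
    have hne : v - v' ≠ 0 := sub_ne_zero.mpr hvv
    have : e = (u' - u) / (v - v') := by
      field_simp
      linear_combination h
    rw [this]
    exact K.div_mem (K.sub_mem hu' hu) (K.sub_mem hv hv')

/-- The property that `K` is generated by `D` over its squares. -/
def PropQ (K : Subfield L) (D : L) : Prop :=
  ∀ x ∈ K, ∃ α ∈ K, ∃ β ∈ K, x = α ^ 2 + D * β ^ 2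

theorem PropQ.quadExt {K : Subfield L} {D e : L} {ha : e ^ 2 + e ∈ K} {he : e ∉ K}
    (hD : D ∈ K) (hQ : PropQ K D) : PropQ (quadExt K e ha he) D := by
  rintro _ ⟨u, hu, v, hv, rfl⟩
  obtain ⟨u1, hu1, u2, hu2, hu'⟩ := hQ u hu
  obtain ⟨v1, hv1, v2, hv2, hv'⟩ := hQ v hv
  obtain ⟨a1, ha1, a2, ha2, ha'⟩ := hQ _ ha
  have h2 : (2 : L) = 0 := CharTwo.two_eq_zero
  have m := fun {x : L} (hx : x ∈ K) => le_quadExt (e := e) (ha := ha) (he := he) hx
  have me := gen_mem_quadExt (e := e) (ha := ha) (he := he)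
  set K2 := Pool.Agent.Lib.MP_24de68_nt.quadExt K e ha he with hK2
  refine ⟨u1 + v1 * (e + a1) + D * v2 * a2,
    K2.add_mem (K2.add_mem (m hu1) (K2.mul_mem (m hv1) (K2.add_mem me (m ha1))))
      (K2.mul_mem (K2.mul_mem (m hD) (m hv2)) (m ha2)),
    u2 + v1 * a2 + v2 * (e + a1),
    K2.add_mem (K2.add_mem (m hu2) (K2.mul_mem (m hv1) (m ha2)))
      (K2.mul_mem (m hv2) (K2.add_mem me (m ha1))), ?_⟩
  have he2 : e = (e + a1) ^ 2 + D * a2 ^ 2 := by
    linear_combination ha' - (e ^ 2 + e * a1) * h2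
  linear_combination hu' + e * hv' + (v1 ^ 2 + D * v2 ^ 2) * he2 -
    (u1 * v1 * (e + a1) + u1 * D * v2 * a2 + v1 * (e + a1) * D * v2 * a2 +
      D * (u2 * v1 * a2 + u2 * v2 * (e + a1) + v1 * a2 * v2 * (e + a1))) * h2

end quad


section tower

variable {F : Type*} [Field F] [CharP F 2]

/-- Data of the Artin-Schreier tower. -/
structure TowerData (F : Type*) [Field F] [CharP F 2] where
  M : ℤ
  hM : Odd M
  H : ℕ → HahnSeries ℤ F
  H_ne : ∀ i, H i ≠ 0
  D : HahnSeries ℤ F
  hD : D = single M 1 * H 0 ^ 8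
  hev : ∀ i, H i + od (H i) = H (i + 1) ^ 2
  h0 : (od (H 0) / H 0) ^ 2 + od (H 0) / H 0 = D
  hs : ∀ i, (od (H (i + 1)) / H (i + 1)) ^ 2 + od (H (i + 1)) / H (i + 1) =
    D ^ (2 ^ (i + 1)) * (od (H i) / H i) / (1 + od (H i) / H i)

namespace TowerData

variable (T : TowerData F)

noncomputable def e (i : ℕ) : HahnSeries ℤ F := od (T.H i) / T.H i

noncomputable def b (i : ℕ) : HahnSeries ℤ F := ∑ j ∈ Finset.range i, T.e j

theorem D_ne : T.D ≠ 0 := by
  rw [T.hD]
  exact mul_ne_zero (single_ne_zero one_ne_zero) (pow_ne_zero _ (T.H_ne 0))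

theorem od_H (i : ℕ) : od (T.H i) = T.e i * T.H i := by
  rw [e, div_mul_cancel₀ _ (T.H_ne i)]

theorem one_add_e (i : ℕ) : (1 + T.e i) * T.H i = T.H (i + 1) ^ 2 := by
  rw [← T.hev, od_H]; ring

theorem one_add_e_ne (i : ℕ) : 1 + T.e i ≠ 0 := by
  intro h
  have := T.one_add_e i
  rw [h, zero_mul] at this
  exact pow_ne_zero 2 (T.H_ne (i + 1)) this.symm

theorem e_sq_zero : T.e 0 ^ 2 + T.e 0 = T.D := T.h0

theorem e_sq_succ (i : ℕ) : T.e (i + 1) ^ 2 + T.e (i + 1) =
    T.D ^ (2 ^ (i + 1)) * T.e i / (1 + T.e i) := T.hs i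

theorem e_ne (i : ℕ) : T.e i ≠ 0 := by
  induction i with
  | zero =>
    intro h
    have := T.e_sq_zero
    rw [h] at this
    apply T.D_ne
    rw [← this]; ring
  | succ i ih =>
    intro h
    have := T.e_sq_succ i
    rw [h] at this
    have h1 : T.D ^ (2 ^ (i + 1)) * T.e i / (1 + T.e i) ≠ 0 :=
      div_ne_zero (mul_ne_zero (pow_ne_zero _ T.D_ne) ih) (T.one_add_e_ne i)
    apply h1
    rw [← this]; ring

theorem a_eq (i : ℕ) : T.e i ^ 2 + T.e i = T.e i * (1 + T.e i) := by ring

theorem a_ne (i : ℕ) : T.e i ^ 2 + T.e i ≠ 0 := by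
  rw [a_eq]; exact mul_ne_zero (T.e_ne i) (T.one_add_e_ne i)

theorem b_succ (i : ℕ) : T.b (i + 1) = T.b i + T.e i := Finset.sum_range_succ _ _

theorem b_sq (i : ℕ) : T.b (i + 1) ^ 2 + T.b (i + 1) =
    T.D ^ (2 ^ (i + 1)) / (T.e i ^ 2 + T.e i) := by
  have h2 : (2 : HahnSeries ℤ F) = 0 := CharTwo.two_eq_zero
  induction i with
  | zero =>
    have : T.b 1 = T.e 0 := by simp [b]
    rw [this, T.e_sq_zero]
    have := T.D_ne
    simp only [zero_add, pow_one]
    field_simp
  | succ i ih =>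
    rw [b_succ]
    have h1 := T.e_sq_succ i
    have he := T.e_ne i
    have he1 := T.one_add_e_ne i
    have hD := T.D_ne
    have hlhs : (T.b (i + 1) + T.e (i + 1)) ^ 2 + (T.b (i + 1) + T.e (i + 1)) =
      T.D ^ (2 ^ (i + 1)) / (T.e i ^ 2 + T.e i) +
        T.D ^ (2 ^ (i + 1)) * T.e i / (1 + T.e i) := by
      rw [← ih, ← h1]
      linear_combination (T.b (i + 1) * T.e (i + 1)) * h2
    rw [hlhs, h1, a_eq]
    have hX : T.D ^ 2 ^ (i + 1 + 1) = T.D ^ 2 ^ (i + 1) * T.D ^ 2 ^ (i + 1) := by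
      rw [← _root_.pow_add]; congr 1; ring
    rw [hX]
    have hX0 : T.D ^ 2 ^ (i + 1) ≠ 0 := pow_ne_zero _ hD
    set X := T.D ^ 2 ^ (i + 1)
    field_simp
    linear_combination (-T.e i) * h2

/-- The hypotheses carried through the tower. -/
structure HypK (i : ℕ) (K : Subfield (HahnSeries ℤ F)) : Prop where
  hD : T.D ∈ K
  ha : T.e i ^ 2 + T.e i ∈ K
  hb : T.b i ∈ K
  hκ : ∃ κ ∈ K, T.H 0 = κ * T.H i ^ (2 ^ i)
  hQ : PropQ K T.D
  he : T.e i ∉ K

variable {T}

theorem HypK.step {i : ℕ} {K : Subfield (HahnSeries ℤ F)} (h : T.HypK i K) :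
    T.HypK (i + 1) (quadExt K (T.e i) h.ha h.he) := by
  have h2 : (2 : HahnSeries ℤ F) = 0 := CharTwo.two_eq_zero
  have m := fun {x : HahnSeries ℤ F} (hx : x ∈ K) =>
    le_quadExt (e := T.e i) (ha := h.ha) (he := h.he) hx
  have me := gen_mem_quadExt (e := T.e i) (ha := h.ha) (he := h.he)
  have hX : T.D ^ (2 ^ (i + 1)) ∈ K := K.pow_mem h.hD _
  have he := T.e_ne i
  have he1 := T.one_add_e_ne i
  have ha0 := T.a_ne i
  refine ⟨m h.hD, ?_, ?_, ?_, h.hQ.quadExt h.hD, ?_⟩
  · rw [T.e_sq_succ]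
    exact Subfield.div_mem _ (Subfield.mul_mem _ (m hX) me)
      (Subfield.add_mem _ (Subfield.one_mem _) me)
  · rw [T.b_succ]
    exact Subfield.add_mem _ (m h.hb) me
  · obtain ⟨κ, hκ, hκ'⟩ := h.hκ
    refine ⟨κ / (1 + T.e i) ^ (2 ^ i), Subfield.div_mem _ (m hκ)
      (Subfield.pow_mem _ (Subfield.add_mem _ (Subfield.one_mem _) me) _), ?_⟩
    rw [hκ', pow_succ 2 i, mul_comm (2 ^ i) 2, pow_mul, ← T.one_add_e, mul_pow]
    field_simp
  · rintro ⟨u, hu, v, hv, huv⟩
    have h3 : T.e (i + 1) ^ 2 + T.e (i + 1) =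
        (u ^ 2 + u + v ^ 2 * (T.e i ^ 2 + T.e i)) + (v ^ 2 + v) * T.e i := by
      rw [huv]
      linear_combination (u * v * T.e i - v ^ 2 * T.e i) * h2
    have h4 : T.e (i + 1) ^ 2 + T.e (i + 1) = T.D ^ (2 ^ (i + 1)) +
        (T.D ^ (2 ^ (i + 1)) / (T.e i ^ 2 + T.e i)) * T.e i := by
      rw [T.e_sq_succ, a_eq]
      generalize T.D ^ (2 ^ (i + 1)) = X
      field_simp
      linear_combination (-X) * h2
    have h5 := (quad_unique h.he (K.add_mem (K.add_mem (K.pow_mem hu 2) hu)
      (K.mul_mem (K.pow_mem hv 2) h.ha)) (K.add_mem (K.pow_mem hv 2) hv) hX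
      (K.div_mem hX h.ha) (h3.symm.trans h4)).2
    rw [← T.b_sq] at h5
    have h6 : (v + T.b (i + 1)) * (v + T.b (i + 1) + 1) = 0 := by
      linear_combination h5 + (T.b (i + 1) * v + T.b (i + 1) ^ 2 + T.b (i + 1)) * h2
    apply h.he
    rcases mul_eq_zero.mp h6 with h7 | h7
    · have : T.e i = -v - T.b i := by rw [T.b_succ] at h7; linear_combination h7
      rw [this]
      exact K.sub_mem (K.neg_mem hv) h.hb
    · have : T.e i = -v - T.b i - 1 := by rw [T.b_succ] at h7; linear_combination h7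
      rw [this]
      exact K.sub_mem (K.sub_mem (K.neg_mem hv) h.hb) K.one_mem


theorem od_pow_odd (x : HahnSeries ℤ F) {E : ℕ} (hE : Odd E) :
    od (x ^ E) * x = x ^ E * od x := by
  obtain ⟨k, rfl⟩ := hE
  have : x ^ (2 * k + 1) = (x ^ k) ^ 2 * x := by ring
  rw [this, od_mul, od_sq]
  ring

theorem od_D : od T.D = T.D := by
  have : T.D = single T.M 1 * (T.H 0 ^ 4) ^ 2 := by rw [T.hD]; ring
  rw [this, od_mul, od_sq, od_single_odd T.hM]
  ring

theorem HypK.od_of_sq {α β : HahnSeries ℤ F} : od (α ^ 2 + T.D * β ^ 2) = T.D * β ^ 2 := by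
  rw [od_add, od_sq, od_mul, od_sq, od_D]
  ring

/-- The main non-vanishing statement inside the tower. -/
theorem nonvanish (r : ℕ) : ∀ (i : ℕ) (K : Subfield (HahnSeries ℤ F)), T.HypK i K →
    ∀ (E : ℕ), Odd E → ∀ h ∈ K, h ≠ 0 → ∀ n : ℤ,
      ∃ m : ℤ, (2 ^ r : ℤ) ∣ m - n ∧ (T.H i ^ E * h).coeff m ≠ 0 := by
  induction r with
  | zero =>
    intro i K _ E _ h _ h0 n
    have hG : T.H i ^ E * h ≠ 0 := mul_ne_zero (pow_ne_zero _ (T.H_ne i)) h0
    refine ⟨(T.H i ^ E * h).order, by simp, ?_⟩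
    intro hc
    exact hG (coeff_order_eq_zero.mp hc)
  | succ r ih =>
    intro i K hK E hE h hh h0 n
    have h2 : (2 : HahnSeries ℤ F) = 0 := CharTwo.two_eq_zero
    set G := T.H i ^ E * h with hG
    have hstep := hK.step
    set K2 := quadExt K (T.e i) hK.ha hK.he with hK2
    have m := fun {x : HahnSeries ℤ F} (hx : x ∈ K) =>
      le_quadExt (e := T.e i) (ha := hK.ha) (he := hK.he) hx
    have me := gen_mem_quadExt (e := T.e i) (ha := hK.ha) (he := hK.he)
    obtain ⟨α₀, _, β₀, hβ₀, hαβ⟩ := hK.hQ h hh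
    obtain ⟨l, hl, hlh⟩ : ∃ l ∈ K, od h = l * h := by
      refine ⟨T.D * β₀ ^ 2 / h, K.div_mem (K.mul_mem hK.hD (K.pow_mem hβ₀ 2)) hh, ?_⟩
      rw [div_mul_cancel₀ _ h0, hαβ, HypK.od_of_sq]
    have hHE : od (T.H i ^ E) = T.e i * T.H i ^ E := by
      have h3 := od_pow_odd (T.H i) hE
      have h4 := T.H_ne i
      apply mul_right_cancel₀ h4
      rw [h3, T.od_H]; ring
    have hodG : od G = (T.e i + l) * G := by
      rw [hG, od_mul, hHE, hlh]; ring
    have he1 := T.one_add_e_ne i
    have hev : G + od G = (1 + T.e i + l) * G := by rw [hodG]; ring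
    have hHi : T.H i = T.H (i + 1) ^ 2 / (1 + T.e i) := by
      rw [← T.one_add_e]; field_simp
    have hH1 := T.H_ne (i + 1)
    have hGx : G = T.H (i + 1) ^ (2 * E) * (h / (1 + T.e i) ^ E) := by
      rw [hG, hHi, div_pow, pow_mul]; field_simp
    have hodsq : ∀ x : HahnSeries ℤ F, od (T.H (i + 1) ^ (2 * E) * x) =
        T.H (i + 1) ^ (2 * E) * od x := by
      intro x
      rw [mul_comm 2 E, pow_mul, od_mul, od_sq]; ring
    have hxe : T.e i + l ≠ 0 := by
      intro h
      apply hK.he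
      have : T.e i = -l := by linear_combination h
      rw [this]; exact K.neg_mem hl
    have hxe1 : 1 + T.e i + l ≠ 0 := by
      intro h
      apply hK.he
      have : T.e i = -l - 1 := by linear_combination h
      rw [this]; exact K.sub_mem (K.neg_mem hl) K.one_mem
    have hK2e1 : (1 + T.e i) ^ E ∈ K2 :=
      Subfield.pow_mem _ (Subfield.add_mem _ (Subfield.one_mem _) me) _
    rcases Int.even_or_odd' n with ⟨n', rfl | rfl⟩
    · -- even class
      set x := (1 + T.e i + l) * h / (1 + T.e i) ^ E with hx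
      have hxK : x ∈ K2 := Subfield.div_mem _ (Subfield.mul_mem _ (Subfield.add_mem _
        (Subfield.add_mem _ (Subfield.one_mem _) me) (m hl)) (m hh)) hK2e1
      have hx0 : x ≠ 0 := div_ne_zero (mul_ne_zero hxe1 h0) (pow_ne_zero _ he1)
      have hevx : G + od G = T.H (i + 1) ^ (2 * E) * x := by
        rw [hev, hGx, hx]; ring
      have hodx : od x = 0 := by
        have h5 : od (G + od G) = 0 := by rw [od_add, od_od, hs_add_self]
        rw [hevx, hodsq] at h5
        exact (mul_eq_zero.mp h5).resolve_left (pow_ne_zero _ hH1)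
      obtain ⟨α, hα, β, hβ, hxαβ⟩ := hstep.hQ x hxK
      have h6 : x = α ^ 2 := by
        have h7 := hodx
        rw [hxαβ, HypK.od_of_sq] at h7
        rw [hxαβ, h7, add_zero]
      have hα0 : α ≠ 0 := by
        rintro rfl
        apply hx0; rw [h6]; ring
      obtain ⟨m', hm', hm0⟩ := ih (i + 1) K2 hstep E hE α hα hα0 n'
      refine ⟨2 * m', ?_, ?_⟩
      · rw [pow_succ, ← mul_sub, mul_comm]
        exact mul_dvd_mul_left 2 hm'
      · have h8 : (G + od G).coeff (2 * m') = ((T.H (i + 1) ^ E * α).coeff m') ^ 2 := by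
          rw [hevx, h6, ← coeff_sq_two_mul]
          congr 1
          ring
        rw [coeff_add, od_coeff, if_neg (by simp), add_zero] at h8
        rw [h8]
        exact pow_ne_zero 2 hm0
    · -- odd class
      set y := (T.e i + l) * h / (1 + T.e i) ^ E with hy
      have hyK : y ∈ K2 := Subfield.div_mem _ (Subfield.mul_mem _ (Subfield.add_mem _
        me (m hl)) (m hh)) hK2e1
      have hy0 : y ≠ 0 := div_ne_zero (mul_ne_zero hxe h0) (pow_ne_zero _ he1)
      have hody' : od G = T.H (i + 1) ^ (2 * E) * y := by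
        rw [hodG, hGx, hy]; ring
      have hody : od y = y := by
        have h5 : od (od G) = od G := od_od G
        rw [hody', hodsq] at h5
        exact mul_left_cancel₀ (pow_ne_zero _ hH1) h5
      obtain ⟨α, hα, β, hβ, hyαβ⟩ := hstep.hQ y hyK
      have h6 : y = T.D * β ^ 2 := by
        have h7 := hody
        rw [hyαβ, HypK.od_of_sq] at h7
        rw [hyαβ, ← h7]
      obtain ⟨κ, hκ, hκ'⟩ := hstep.hκ
      have hκ0 : κ ≠ 0 := by
        rintro rfl
        apply T.H_ne 0
        rw [hκ']; ring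
      have hβ0 : β ≠ 0 := by
        rintro rfl
        apply hy0; rw [h6]; ring
      have hE' : Odd (E + 2 ^ (i + 3)) := by
        apply hE.add_even
        rw [pow_succ]
        exact Even.mul_left even_two _
      obtain ⟨M', hM'⟩ := T.hM
      obtain ⟨m', hm', hm0⟩ := ih (i + 1) K2 hstep (E + 2 ^ (i + 3)) hE' (κ ^ 4 * β)
        (Subfield.mul_mem _ (Subfield.pow_mem _ hκ 4) hβ)
        (mul_ne_zero (pow_ne_zero _ hκ0) hβ0) (n' - M')
      have h9 : od G = single T.M 1 *
          (T.H (i + 1) ^ (E + 2 ^ (i + 3)) * (κ ^ 4 * β)) ^ 2 := by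
        rw [hody', h6, T.hD]
        have : T.H 0 ^ 8 = (κ ^ 4) ^ 2 * (T.H (i + 1) ^ (2 ^ (i + 3))) ^ 2 := by
          conv_lhs => rw [hκ', mul_pow]
          rw [← pow_mul, ← pow_mul, ← pow_mul]
          congr 2
          ring
        rw [this, _root_.pow_add]
        ring
      refine ⟨T.M + 2 * m', ?_, ?_⟩
      · have : T.M + 2 * m' - (2 * n' + 1) = 2 * (m' - (n' - M')) := by rw [hM']; ring
        rw [this, pow_succ, mul_comm]
        exact mul_dvd_mul_left 2 hm'
      · have h10 : (od G).coeff (T.M + 2 * m') =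
            ((T.H (i + 1) ^ (E + 2 ^ (i + 3)) * (κ ^ 4 * β)).coeff m') ^ 2 := by
          rw [h9, coeff_single_mul, ← coeff_sq_two_mul]
          simp
        have hodd : Odd (T.M + 2 * m') := T.hM.add_even (by simp)
        rw [od_coeff, if_pos hodd] at h10
        rw [h10]
        exact pow_ne_zero 2 hm0

theorem exists_pow_of_dvd [PerfectRing F 2] (t : ℕ) : ∀ x : HahnSeries ℤ F,
    (∀ m, x.coeff m ≠ 0 → (2 ^ t : ℤ) ∣ m) → ∃ z : HahnSeries ℤ F, z ^ (2 ^ t) = x := by
  induction t with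
  | zero => intro x _; exact ⟨x, by simp⟩
  | succ t ih =>
    intro x hx
    have hodx : od x = 0 := by
      ext m
      rw [od_coeff]
      split_ifs with hm
      · by_contra hc
        have h1 := hx m hc
        rw [pow_succ] at h1
        have h2 : (2 : ℤ) ∣ m := dvd_trans (dvd_mul_left _ _) h1
        rw [← even_iff_two_dvd] at h2
        exact (Int.not_even_iff_odd.mpr hm) h2
      · rfl
    obtain ⟨y, rfl⟩ := exists_sq_of_od_eq_zero hodx
    obtain ⟨z, hz⟩ := ih y (by
      intro m hm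
      have h1 := hx (2 * m) (by rw [coeff_sq_two_mul]; exact pow_ne_zero 2 hm)
      rw [pow_succ, mul_comm] at h1
      exact (mul_dvd_mul_iff_left two_ne_zero).mp h1)
    exact ⟨z, by rw [pow_succ, pow_mul, hz]⟩

theorem HypK.exists_eq {K : Subfield (HahnSeries ℤ F)} (hQ : PropQ K T.D) (t : ℕ) :
    t ≤ 3 → ∀ x ∈ K, x ≠ 0 → ∀ (n : ℤ) (z : HahnSeries ℤ F), x = single n 1 * z ^ (2 ^ t) →
      ∃ E : ℕ, ∃ h ∈ K, x = T.D ^ E * h ^ (2 ^ t) := by
  induction t with
  | zero => intro _ x hx _ _ _ _; exact ⟨0, x, hx, by simp⟩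
  | succ t ih =>
    intro ht x hx hx0 n z hxz
    obtain ⟨α, hα, β, hβ, hxαβ⟩ := hQ x hx
    have hodsq : ∀ y : HahnSeries ℤ F, od (y * z ^ 2 ^ (t + 1)) = od y * z ^ 2 ^ (t + 1) := by
      intro y
      rw [pow_succ, pow_mul, od_mul, od_sq]; ring
    rcases Int.even_or_odd' n with ⟨n', rfl | rfl⟩
    · have h1 : single (2 * n') (1 : F) = (single n' 1) ^ 2 := by
        rw [single_pow]; simp
      have h2 : od x = 0 := by
        rw [hxz, hodsq, h1, od_sq, zero_mul]
      have h3 : x = α ^ 2 := by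
        rw [hxαβ, HypK.od_of_sq] at h2
        rw [hxαβ, h2, add_zero]
      have h4 : α = single n' 1 * z ^ 2 ^ t := by
        apply hs_sq_inj
        rw [← h3, hxz, h1, show (2 : ℕ) ^ (t + 1) = 2 ^ t * 2 from pow_succ 2 t, pow_mul]; ring
      have hα0 : α ≠ 0 := by
        rintro rfl
        apply hx0; rw [h3]; ring
      obtain ⟨E, h, hh, hE⟩ := ih (by omega) α hα hα0 n' z h4
      refine ⟨E * 2, h, hh, ?_⟩
      rw [h3, hE, mul_pow, ← pow_mul, ← pow_mul, pow_succ 2 t]
    · have hn : Odd (2 * n' + 1) := ⟨n', rfl⟩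
      have h2 : od x = x := by
        conv_lhs => rw [hxz]
        rw [hodsq, od_single_odd hn, ← hxz]
      have h3 : x = T.D * β ^ 2 := by
        rw [hxαβ, HypK.od_of_sq] at h2
        rw [hxαβ, ← h2]
      have hβ0 : β ≠ 0 := by
        rintro rfl
        apply hx0; rw [h3]; ring
      obtain ⟨M', hM'⟩ := T.hM
      have hH := T.H_ne 0
      have h4 : β = single (n' - M') 1 * (z / T.H 0 ^ (2 ^ (2 - t))) ^ 2 ^ t := by
        apply hs_sq_inj
        apply mul_left_cancel₀ T.D_ne
        rw [← h3, hxz, T.hD, mul_pow, single_pow, div_pow, ← pow_mul, div_pow, ← pow_mul,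
          ← pow_mul]
        have ht2 : t ≤ 2 := by omega
        have h5 : 2 ^ (2 - t) * (2 ^ t * 2) = 8 := by
          interval_cases t <;> rfl
        have h6 : 2 ^ (2 - t) * 2 ^ t * 2 = 8 := by rw [mul_assoc]; exact h5
        rw [h6]
        have h7 : (single (2 * n' + 1) (1 : F) : HahnSeries ℤ F) = single T.M 1 * single (2 * (n' - M')) 1 := by
          rw [single_mul_single, hM']; congr 1; ring
          simp
        rw [h7, pow_succ 2 t]
        simp only [nsmul_eq_mul, Nat.cast_ofNat, one_pow]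
        field_simp
      obtain ⟨E, h, hh, hE⟩ := ih (by omega) β hβ hβ0 _ _ h4
      refine ⟨E * 2 + 1, h, hh, ?_⟩
      rw [h3, hE, mul_pow, ← pow_mul, ← pow_mul, pow_succ 2 t]
      ring

/-- Main theorem of this file. -/
theorem main [PerfectRing F 2] {K : Subfield (HahnSeries ℤ F)} (hQ : PropQ K T.D)
    (hD : T.D ∈ K) (he : T.e 0 ∉ K) {g : HahnSeries ℤ F} (hg : g ∈ K) (hg0 : g ≠ 0)
    {n₀ : ℤ} (hn₀ : Odd n₀) (hsupp : ∀ m, g.coeff m ≠ 0 → (8 : ℤ) ∣ m - n₀)
    (r : ℕ) {n : ℤ} (hn : (8 : ℤ) ∣ n - n₀) :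
    ∃ m : ℤ, (2 ^ r : ℤ) ∣ m - n ∧ g.coeff m ≠ 0 := by
  have hK : T.HypK 0 K := by
    refine ⟨hD, ?_, ?_, ⟨1, K.one_mem, by simp⟩, hQ, he⟩
    · rw [T.e_sq_zero]; exact hD
    · simp only [b, Finset.range_zero, Finset.sum_empty]; exact K.zero_mem
  obtain ⟨z, hz⟩ : ∃ z : HahnSeries ℤ F, z ^ (2 ^ 3) = single (-n₀) 1 * g := by
    apply exists_pow_of_dvd
    intro m hm
    rw [coeff_single_mul] at hm
    have := hsupp (m + n₀) (by simpa using hm)
    simpa using this
  have hgz : g = single n₀ 1 * z ^ (2 ^ 3) := by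
    rw [hz, ← mul_assoc, single_mul_single]
    simp
  obtain ⟨E, h, hh, hE⟩ := HypK.exists_eq hQ 3 le_rfl g hg hg0 n₀ z hgz
  have hh0 : h ≠ 0 := by
    rintro rfl
    apply hg0; rw [hE]; simp
  have hodd : Odd E := by
    by_contra hEe
    rw [Nat.not_odd_iff_even] at hEe
    obtain ⟨k, rfl⟩ := hEe
    have h1 : od g = 0 := by
      have : g = (T.D ^ k * h ^ 4) ^ 2 := by rw [hE]; ring
      rw [this, od_sq]
    have h2 : od g = g := by
      conv_lhs => rw [hgz]
      have : z ^ 2 ^ 3 = (z ^ 4) ^ 2 := by ring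
      rw [this, od_mul, od_sq, od_single_odd hn₀, mul_zero, add_zero, ← this, ← hgz]
    exact hg0 (h2.symm.trans h1)
  have hG : g = single (E * T.M) 1 * (((T.H 0 ^ E * h) ^ 2) ^ 2) ^ 2 := by
    rw [hE, T.hD, mul_pow, single_pow]
    simp only [nsmul_eq_mul, one_pow]
    ring
  have hcoeff : ∀ m : ℤ, g.coeff (E * T.M + 2 * (2 * (2 * m))) =
      ((((T.H 0 ^ E * h).coeff m) ^ 2) ^ 2) ^ 2 := by
    intro m
    rw [hG, coeff_single_mul, ← coeff_sq_two_mul, ← coeff_sq_two_mul, ← coeff_sq_two_mul]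
    simp
  have hG0 : T.H 0 ^ E * h ≠ 0 := mul_ne_zero (pow_ne_zero _ (T.H_ne 0)) hh0
  have hcong : (8 : ℤ) ∣ n - E * T.M := by
    have h1 : g.coeff (E * T.M + 2 * (2 * (2 * (T.H 0 ^ E * h).order))) ≠ 0 := by
      rw [hcoeff]
      have : (T.H 0 ^ E * h).coeff (T.H 0 ^ E * h).order ≠ 0 := fun hc =>
        hG0 (coeff_order_eq_zero.mp hc)
      positivity
    have h2 := hsupp _ h1
    omega
  obtain ⟨k, hk⟩ := hcong
  obtain ⟨m, hm, hm0⟩ := nonvanish r 0 K hK E hodd h hh hh0 k
  refine ⟨E * T.M + 2 * (2 * (2 * m)), ?_, ?_⟩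
  · have : E * T.M + 2 * (2 * (2 * m)) - n = 8 * (m - k) := by linear_combination -hk
    rw [this]
    exact Dvd.dvd.mul_left hm _
  · rw [hcoeff]
    exact pow_ne_zero _ (pow_ne_zero _ (pow_ne_zero _ hm0))

end TowerData

end tower

end Pool.Agent.Lib.MP_24de68_nt
end

section

section

namespace Pool.Agent.Lib.MP_24de68_nt

open HahnSeries

/-- Functions with finite sublevel sets. -/
def FinLow {ι : Type*} (f : ι → ℤ) : Prop := ∀ b : ℤ, {i | f i ≤ b}.Finite

theorem FinLow.bddBelow {ι : Type*} {f : ι → ℤ} (hf : FinLow f) : BddBelow (Set.range f) := by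
  have h1 : (f '' {i | f i ≤ 0}).Finite := (hf 0).image f
  obtain ⟨c, hc⟩ := h1.bddBelow
  refine ⟨min c 0, ?_⟩
  rintro _ ⟨i, rfl⟩
  by_cases hi : f i ≤ 0
  · exact (min_le_left _ _).trans (hc ⟨i, hi, rfl⟩)
  · exact (min_le_right _ _).trans (by omega)

theorem FinLow.isPWO {ι : Type*} {f : ι → ℤ} (hf : FinLow f) : (Set.range f).IsPWO := by
  rw [Set.isPWO_iff_isWF]
  exact hf.bddBelow.isWF

section

variable (F : Type*) [Field F]

/-- The family of monomials attached to a function. -/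
noncomputable def thetaFam {ι : Type*} (f : ι → ℤ) (hf : FinLow f) : SummableFamily ℤ F ι where
  toFun i := single (f i) 1
  isPWO_iUnion_support' := by
    refine hf.isPWO.mono ?_
    intro n hn
    simp only [Set.mem_iUnion] at hn
    obtain ⟨i, hi⟩ := hn
    exact ⟨i, (eq_of_mem_support_single hi).symm⟩
  finite_co_support' g := by
    refine (hf g).subset ?_
    intro i hi
    simp only [Set.mem_ofPred_eq] at hi ⊢
    by_contra hc
    apply hi
    apply coeff_single_of_ne
    intro h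
    exact hc h.ge

open Classical in
/-- The generating series of a function. -/
noncomputable def theta {ι : Type*} (f : ι → ℤ) : HahnSeries ℤ F :=
  if hf : FinLow f then (thetaFam F f hf).hsum else 0

theorem theta_def {ι : Type*} {f : ι → ℤ} (hf : FinLow f) :
    theta F f = (thetaFam F f hf).hsum := dif_pos hf

theorem theta_coeff {ι : Type*} {f : ι → ℤ} (hf : FinLow f) (n : ℤ) :
    (theta F f).coeff n = ({i | f i = n}.ncard : F) := by
  classical
  rw [theta_def F hf, SummableFamily.coeff_hsum]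
  have hfin : {i | f i = n}.Finite := (hf n).subset (fun i hi => le_of_eq hi)
  rw [finsum_eq_sum_of_support_subset (s := hfin.toFinset)]
  · rw [Set.ncard_eq_toFinset_card _ hfin, Finset.cast_card]
    apply Finset.sum_congr rfl
    intro i hi
    have : f i = n := by simpa using hi
    show (single (f i) (1 : F)).coeff n = 1
    rw [this, coeff_single_same]
  · intro i hi
    have h1 : (single (f i) (1 : F)).coeff n ≠ 0 := hi
    simp only [Set.Finite.coe_toFinset, Set.mem_ofPred_eq]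
    by_contra hc
    exact h1 (coeff_single_of_ne (fun h => hc h.symm))

theorem FinLow.comp_equiv {ι κ : Type*} {f : ι → ℤ} {g : κ → ℤ} (e : ι ≃ κ)
    (h : ∀ i, g (e i) = f i) (hg : FinLow g) : FinLow f := by
  intro b
  refine Set.Finite.of_finite_image (f := e) ((hg b).subset ?_) e.injective.injOn
  rintro _ ⟨i, hi, rfl⟩
  simpa [h] using hi

theorem FinLow.comp_injective {ι κ : Type*} {g : κ → ℤ} (e : ι → κ) (he : Function.Injective e)
    (hg : FinLow g) : FinLow (fun i => g (e i)) := by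
  intro b
  exact Set.Finite.of_finite_image (f := e) ((hg b).subset (by
    rintro _ ⟨i, hi, rfl⟩
    simpa using hi)) he.injOn

theorem theta_equiv {ι κ : Type*} {f : ι → ℤ} {g : κ → ℤ} (e : ι ≃ κ)
    (h : ∀ i, g (e i) = f i) (hg : FinLow g) : theta F f = theta F g := by
  have hf := FinLow.comp_equiv e h hg
  ext n
  rw [theta_coeff F hf, theta_coeff F hg]
  congr 1
  refine Set.ncard_congr (fun i _ => e i) ?_ ?_ ?_
  · intro i hi
    simpa [h] using hi
  · intro i j _ _ hij
    exact e.injective hij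
  · intro k hk
    refine ⟨e.symm k, ?_, by simp⟩
    simp only [Set.mem_ofPred_eq] at hk ⊢
    rw [← h, Equiv.apply_symm_apply, hk]

theorem theta_mul {ι κ : Type*} {f : ι → ℤ} {g : κ → ℤ} (hf : FinLow f) (hg : FinLow g) :
    theta F f * theta F g = theta F (fun p : ι × κ => f p.1 + g p.2) := by
  have hfg : FinLow (fun p : ι × κ => f p.1 + g p.2) := by
    obtain ⟨c, hc⟩ := hf.bddBelow
    obtain ⟨d, hd⟩ := hg.bddBelow
    intro b
    refine ((hf (b - d)).prod (hg (b - c))).subset ?_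
    rintro ⟨i, j⟩ hij
    have h1 : c ≤ f i := hc ⟨i, rfl⟩
    have h2 : d ≤ g j := hd ⟨j, rfl⟩
    simp only [Set.mem_ofPred_eq, Set.mem_prod] at hij ⊢
    omega
  rw [theta_def F hf, theta_def F hg, theta_def F hfg, ← SummableFamily.hsum_mul]
  congr 1
  apply SummableFamily.ext
  intro p
  show (single (f p.1) (1 : F)) * (single (g p.2) (1 : F)) = single (f p.1 + g p.2) 1
  rw [single_mul_single, one_mul]

theorem FinLow.add {ι κ : Type*} {f : ι → ℤ} {g : κ → ℤ} (hf : FinLow f) (hg : FinLow g) :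
    FinLow (fun p : ι × κ => f p.1 + g p.2) := by
  obtain ⟨c, hc⟩ := hf.bddBelow
  obtain ⟨d, hd⟩ := hg.bddBelow
  intro b
  refine ((hf (b - d)).prod (hg (b - c))).subset ?_
  rintro ⟨i, j⟩ hij
  have h1 : c ≤ f i := hc ⟨i, rfl⟩
  have h2 : d ≤ g j := hd ⟨j, rfl⟩
  simp only [Set.mem_ofPred_eq, Set.mem_prod] at hij ⊢
  omega

theorem FinLow.const_add {ι : Type*} {f : ι → ℤ} (hf : FinLow f) (c : ℤ) :
    FinLow (fun i => c + f i) := by
  intro b
  refine (hf (b - c)).subset ?_
  intro i hi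
  simp only [Set.mem_ofPred_eq] at hi ⊢
  omega

theorem FinLow.two_mul {ι : Type*} {f : ι → ℤ} (hf : FinLow f) :
    FinLow (fun i => 2 * f i) := by
  intro b
  refine (hf |b|).subset ?_
  intro i hi
  simp only [Set.mem_ofPred_eq] at hi ⊢
  have := le_abs_self b
  have := abs_nonneg b
  omega

theorem single_mul_theta {ι : Type*} {f : ι → ℤ} (hf : FinLow f) (c : ℤ) :
    single c 1 * theta F f = theta F (fun i => c + f i) := by
  ext n
  rw [coeff_single_mul, theta_coeff F hf, theta_coeff F (hf.const_add c), one_mul]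
  congr 2
  ext i
  simp only [Set.mem_ofPred_eq]
  omega

theorem theta_split {ι : Type*} {f : ι → ℤ} (hf : FinLow f) (p : ι → Prop) :
    theta F f = theta F (fun i : {i // p i} => f i) + theta F (fun i : {i // ¬ p i} => f i) := by
  classical
  have h1 : FinLow (fun i : {i // p i} => f i) := FinLow.comp_injective _ Subtype.val_injective hf
  have h2 : FinLow (fun i : {i // ¬ p i} => f i) :=
    FinLow.comp_injective _ Subtype.val_injective hf
  ext n
  rw [coeff_add, theta_coeff F hf, theta_coeff F h1, theta_coeff F h2, ← Nat.cast_add]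
  congr 1
  have hfin : {i | f i = n}.Finite := (hf n).subset (fun i hi => le_of_eq hi)
  have e1 : {i : {i // p i} | f i = n}.ncard = ({i | f i = n} ∩ {i | p i}).ncard := by
    rw [← Set.ncard_image_of_injective _ Subtype.val_injective]
    congr 1
    ext i
    simp only [Set.mem_image, Set.mem_ofPred_eq, Subtype.exists, exists_and_left, exists_prop,
      exists_eq_right_right, Set.mem_inter_iff]
  have e2 : {i : {i // ¬ p i} | f i = n}.ncard = ({i | f i = n} \ {i | p i}).ncard := by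
    rw [← Set.ncard_image_of_injective _ Subtype.val_injective]
    congr 1
    ext i
    simp only [Set.mem_image, Set.mem_ofPred_eq, Subtype.exists, exists_and_left, exists_prop,
      exists_eq_right_right, Set.mem_sdiff]
  rw [e1, e2, Set.ncard_inter_add_ncard_sdiff_eq_ncard _ _ hfin]

theorem od_theta {ι : Type*} {f : ι → ℤ} (hf : FinLow f) :
    od (theta F f) = theta F (fun i : {i // Odd (f i)} => f i) := by
  have h1 : FinLow (fun i : {i // Odd (f i)} => f i) :=
    FinLow.comp_injective _ Subtype.val_injective hf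
  ext n
  rw [od_coeff, theta_coeff F hf, theta_coeff F h1]
  have e1 : {i : {i // Odd (f i)} | f i = n}.ncard = ({i | f i = n} ∩ {i | Odd (f i)}).ncard := by
    rw [← Set.ncard_image_of_injective _ Subtype.val_injective]
    congr 1
    ext i
    simp only [Set.mem_image, Set.mem_ofPred_eq, Subtype.exists, exists_and_left, exists_prop,
      exists_eq_right_right, Set.mem_inter_iff]
  rw [e1]
  split_ifs with hn
  · congr 2
    ext i
    simp only [Set.mem_ofPred_eq, Set.mem_inter_iff]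
    constructor
    · rintro rfl; exact ⟨rfl, hn⟩
    · exact fun h => h.1
  · have : ({i | f i = n} ∩ {i | Odd (f i)}) = ∅ := by
      ext i
      simp only [Set.mem_ofPred_eq, Set.mem_inter_iff, Set.mem_empty_iff_false, iff_false, not_and]
      rintro rfl; exact hn
    rw [this]
    simp

variable [CharP F 2]

theorem natCast_sq_char_two (c : ℕ) : (c : F) ^ 2 = c := by
  rcases Nat.even_or_odd' c with ⟨k, rfl | rfl⟩
  · have : ((2 * k : ℕ) : F) = 0 := by
      rw [Nat.cast_mul, Nat.cast_ofNat, CharTwo.two_eq_zero, zero_mul]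
    rw [this]; ring
  · have : ((2 * k + 1 : ℕ) : F) = 1 := by
      rw [Nat.cast_add, Nat.cast_mul, Nat.cast_ofNat, CharTwo.two_eq_zero, zero_mul]; simp
    rw [this]; ring

theorem theta_sq {ι : Type*} {f : ι → ℤ} (hf : FinLow f) :
    theta F f ^ 2 = theta F (fun i => 2 * f i) := by
  ext n
  rw [theta_coeff F hf.two_mul]
  rcases Int.even_or_odd' n with ⟨k, rfl | rfl⟩
  · rw [coeff_sq_two_mul, theta_coeff F hf, natCast_sq_char_two]
    congr 2
    ext i
    simp only [Set.mem_ofPred_eq]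
    omega
  · rw [coeff_sq_odd _ ⟨k, rfl⟩]
    have : {i | 2 * f i = 2 * k + 1} = ∅ := by
      ext i
      simp only [Set.mem_ofPred_eq, Set.mem_empty_iff_false, iff_false]
      omega
    rw [this]; simp

theorem FinLow.two_pow_mul {ι : Type*} {f : ι → ℤ} (hf : FinLow f) (j : ℕ) :
    FinLow (fun i => 2 ^ j * f i) := by
  induction j with
  | zero => simpa using hf
  | succ j ih => simpa [pow_succ, mul_assoc, mul_left_comm] using ih.two_mul

theorem theta_pow_two_pow {ι : Type*} {f : ι → ℤ} (hf : FinLow f) (j : ℕ) :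
    theta F f ^ (2 ^ j) = theta F (fun i => 2 ^ j * f i) := by
  induction j with
  | zero => simp
  | succ j ih =>
    rw [pow_succ 2 j, pow_mul, ih, theta_sq F (hf.two_pow_mul j)]
    congr 1
    ext i
    ring

end

end Pool.Agent.Lib.MP_24de68_nt
end

section

namespace Pool.Agent.Lib.MP_24de68_nt

open HahnSeries

/-- The exponents of the theta series of the tower. -/
def hExp (M : ℤ) (j : ℕ) (k : ℤ) : ℤ := M * (2 ^ j * k ^ 2 + k)

theorem le_hExp {M : ℤ} (hpos : 0 < M) (j : ℕ) (k : ℤ) : |k| ≤ hExp M (j + 1) k := by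
  unfold hExp
  have h2 : (1 : ℤ) ≤ 2 ^ j := one_le_pow₀ (by norm_num)
  have hk : |k| ^ 2 = k ^ 2 := sq_abs k
  have hk0 := abs_nonneg k
  have h3 : |k| ≤ |k| ^ 2 := by
    rcases hk0.eq_or_lt with h | h
    · rw [← h]; norm_num
    · nlinarith
  have h4 : -|k| ≤ k := neg_abs_le k
  have h5 : |k| ≤ 2 ^ (j + 1) * k ^ 2 + k := by
    rw [pow_succ]
    nlinarith [mul_le_mul_of_nonneg_right h2 (sq_nonneg k)]
  nlinarith

theorem hExp_finLow {M : ℤ} (hpos : 0 < M) (j : ℕ) : FinLow (hExp M (j + 1)) := by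
  intro b
  refine (Set.finite_Icc (-b) b).subset ?_
  intro k hk
  have h1 := (le_hExp hpos j k).trans (show hExp M (j + 1) k ≤ b from hk)
  exact abs_le.mp h1

/-- Index set of positive odd integers. -/
def OddPos : Type := {m : ℤ // Odd m ∧ 0 < m}

def dExp (M : ℤ) (m : OddPos) : ℤ := M * m.1 ^ 2

theorem dExp_finLow {M : ℤ} (hpos : 0 < M) : FinLow (dExp M) := by
  intro b
  refine Set.Finite.of_finite_image (f := Subtype.val)
    ((Set.finite_Icc (-b) b).subset ?_) Subtype.val_injective.injOn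
  rintro _ ⟨m, hm, rfl⟩
  have h1 : M * m.1 ^ 2 ≤ b := hm
  have h2 := m.2.2
  constructor
  · nlinarith
  · nlinarith

theorem odd_hExp {M : ℤ} (hM : Odd M) (j : ℕ) (k : ℤ) : Odd (hExp M (j + 1) k) ↔ Odd k := by
  unfold hExp
  rw [Int.odd_mul, Int.odd_add]
  have : Even (2 ^ (j + 1) * k ^ 2) := by
    rw [pow_succ]
    exact (Even.mul_left even_two _).mul_right _
  constructor
  · rintro ⟨_, h⟩
    by_contra hk
    rw [Int.not_odd_iff_even] at hk
    have := h.mpr hk
    rw [← Int.not_even_iff_odd] at this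
    contradiction
  · intro hk
    refine ⟨hM, ?_⟩
    constructor
    · intro h
      rw [← Int.not_even_iff_odd] at h
      contradiction
    · intro h
      rw [← Int.not_even_iff_odd] at hk
      contradiction

/-- The bijection behind the product identity. -/
noncomputable def prodEquiv :
    {b : ℤ // Even b} × {a : ℤ // Odd a} ≃ OddPos × {c : ℤ // Odd c} := by
  refine Equiv.ofBijective (fun p => (⟨|p.2.1 - p.1.1|, ?_, ?_⟩, ⟨p.2.1 + p.1.1, ?_⟩)) ⟨?_, ?_⟩
  · rw [odd_abs]
    exact p.2.2.sub_even p.1.2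
  · rw [abs_pos, sub_ne_zero]
    intro h
    have h1 := p.2.2
    rw [h] at h1
    exact (Int.not_odd_iff_even.mpr p.1.2) h1
  · exact p.2.2.add_even p.1.2
  · rintro ⟨⟨b, hb⟩, ⟨a, ha⟩⟩ ⟨⟨b', hb'⟩, ⟨a', ha'⟩⟩ h
    simp only [Prod.mk.injEq, Subtype.mk.injEq] at h
    obtain ⟨h1, h2⟩ := h
    have h1' : |a - b| = |a' - b'| := congrArg Subtype.val h1
    rcases abs_eq_abs.mp h1' with h3 | h3
    · have : a = a' := by omega
      have : b = b' := by omega
      subst_vars; rfl
    · exfalso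
      have : a = b' := by omega
      subst this
      exact (Int.not_odd_iff_even.mpr hb') ha
  · rintro ⟨⟨m, hm, hm0⟩, ⟨c, hc⟩⟩
    obtain ⟨x, hx⟩ : Even (c + m) := hc.add_odd hm
    rcases Int.even_or_odd x with hxe | hxo
    · refine ⟨(⟨x, hxe⟩, ⟨c - x, ?_⟩), ?_⟩
      · exact hc.sub_even hxe
      · simp only [Prod.mk.injEq, Subtype.mk.injEq]
        refine ⟨Subtype.ext ?_, by ring⟩
        show |c - x - x| = m
        have : c - x - x = -m := by omega
        rw [this, abs_neg, abs_of_pos hm0]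
    · have hy : Even (c - x) := hc.sub_odd hxo
      refine ⟨(⟨c - x, hy⟩, ⟨x, hxo⟩), ?_⟩
      simp only [Prod.mk.injEq, Subtype.mk.injEq]
      refine ⟨Subtype.ext ?_, by ring⟩
      show |x - (c - x)| = m
      have : x - (c - x) = m := by omega
      rw [this, abs_of_pos hm0]

theorem prodEquiv_apply (p : {b : ℤ // Even b} × {a : ℤ // Odd a}) :
    (prodEquiv p).1.1 = |p.2.1 - p.1.1| ∧ (prodEquiv p).2.1 = p.2.1 + p.1.1 := ⟨rfl, rfl⟩

section

variable (F : Type*) [Field F]

theorem FinLow.subtype {ι : Type*} {f : ι → ℤ} (hf : FinLow f) (p : ι → Prop) :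
    FinLow (fun i : {i // p i} => f i) :=
  FinLow.comp_injective _ Subtype.val_injective hf

theorem prod_identity {M : ℤ} (hpos : 0 < M) (j : ℕ)
    (hf : FinLow (fun c : {c : ℤ // Odd c} => hExp M j c)) :
    theta F (fun b : {b : ℤ // Even b} => hExp M (j + 1) b) *
      theta F (fun a : {a : ℤ // Odd a} => hExp M (j + 1) a) =
    theta F (fun m : OddPos => 2 ^ j * dExp M m) *
      theta F (fun c : {c : ℤ // Odd c} => hExp M j c) := by
  rw [theta_mul F ((hExp_finLow hpos j).subtype _) ((hExp_finLow hpos j).subtype _),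
    theta_mul F ((dExp_finLow hpos).two_pow_mul j) hf]
  refine theta_equiv F prodEquiv ?_ (((dExp_finLow hpos).two_pow_mul j).add hf)
  rintro ⟨⟨b, hb⟩, ⟨a, ha⟩⟩
  obtain ⟨h1, h2⟩ := prodEquiv_apply (⟨b, hb⟩, ⟨a, ha⟩)
  simp only [dExp, hExp, h1, h2, sq_abs]
  rw [pow_succ]
  ring

variable [CharP F 2]

theorem theta_add_od {ι : Type*} {f : ι → ℤ} (hf : FinLow f) :
    theta F f + od (theta F f) = theta F (fun i : {i // ¬ Odd (f i)} => f i) := by
  rw [od_theta F hf, theta_split F hf (fun i => Odd (f i))]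
  rw [add_right_comm, hs_add_self, zero_add]

/-- The theta series of the tower. -/
noncomputable def Hs (M : ℤ) (i : ℕ) : HahnSeries ℤ F := theta F (hExp M (i + 1))

theorem od_Hs {M : ℤ} (hM : Odd M) (hpos : 0 < M) (i : ℕ) :
    od (Hs F M i) = theta F (fun c : {c : ℤ // Odd c} => hExp M (i + 1) c) := by
  rw [Hs, od_theta F (hExp_finLow hpos i)]
  refine theta_equiv F (Equiv.subtypeEquivRight (fun k => odd_hExp hM i k)) ?_
    ((hExp_finLow hpos i).subtype _)
  intro k
  rfl

theorem ev_Hs {M : ℤ} (hM : Odd M) (hpos : 0 < M) (i : ℕ) :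
    Hs F M i + od (Hs F M i) = theta F (fun c : {c : ℤ // Even c} => hExp M (i + 1) c) := by
  rw [Hs, theta_add_od F (hExp_finLow hpos i)]
  refine theta_equiv F (Equiv.subtypeEquivRight (fun k => ?_)) ?_
    ((hExp_finLow hpos i).subtype _)
  · rw [odd_hExp hM, Int.not_odd_iff_even]
  · intro k
    rfl

theorem ev_Hs' {M : ℤ} (hM : Odd M) (hpos : 0 < M) (i : ℕ) :
    Hs F M i + od (Hs F M i) = Hs F M (i + 1) ^ 2 := by
  rw [ev_Hs F hM hpos, Hs, theta_sq F (hExp_finLow hpos (i + 1))]
  symm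
  refine theta_equiv F (Equiv.ofBijective (fun l : ℤ => (⟨2 * l, even_two_mul l⟩ : {c : ℤ // Even c}))
    ⟨?_, ?_⟩) ?_ ((hExp_finLow hpos i).subtype _)
  · intro a b hab
    simpa using hab
  · rintro ⟨c, k, rfl⟩
    exact ⟨k, Subtype.ext (by ring)⟩
  · intro l
    simp only [Equiv.ofBijective_apply, hExp]
    ring

/-- The series of odd squares. -/
noncomputable def Ds (M : ℤ) : HahnSeries ℤ F := theta F (dExp M)

theorem Hs_ne {M : ℤ} (hpos : 0 < M) (i : ℕ) : Hs F M i ≠ 0 := by
  have h : (Hs F M i).coeff 0 = 1 := by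
    rw [Hs, theta_coeff F (hExp_finLow hpos i)]
    have : {k | hExp M (i + 1) k = 0} = {0} := by
      ext k
      simp only [Set.mem_ofPred_eq, Set.mem_singleton_iff]
      constructor
      · intro h
        have := le_hExp hpos i k
        rw [h] at this
        simpa using this
      · rintro rfl
        simp [hExp]
    rw [this]; simp
  intro h0
  rw [h0] at h
  simp at h

theorem Ds_eq {M : ℤ} (hpos : 0 < M) : Ds F M = single M 1 * Hs F M 0 ^ 8 := by
  have h8 : Hs F M 0 ^ 8 = Hs F M 0 ^ (2 ^ 3) := by norm_num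
  rw [h8, Hs, theta_pow_two_pow F (hExp_finLow hpos 0), single_mul_theta F
    ((hExp_finLow hpos 0).two_pow_mul 3)]
  symm
  refine theta_equiv F (Equiv.ofBijective (fun k : ℤ => (⟨|4 * k + 1|, ?_, ?_⟩ : OddPos))
    ⟨?_, ?_⟩) ?_ (dExp_finLow hpos)
  · rw [odd_abs]
    exact ⟨2 * k, by ring⟩
  · rw [abs_pos]; omega
  · intro a b hab
    have h1 : |4 * a + 1| = |4 * b + 1| := congrArg Subtype.val hab
    rcases abs_eq_abs.mp h1 with h | h <;> omega
  · rintro ⟨m, ⟨k, hk⟩, hm⟩
    rcases Int.even_or_odd' k with ⟨l, rfl | rfl⟩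
    · refine ⟨l, Subtype.ext ?_⟩
      show |4 * l + 1| = m
      rw [abs_of_pos (by omega)]; omega
    · refine ⟨-l - 1, Subtype.ext ?_⟩
      show |4 * (-l - 1) + 1| = m
      rw [abs_of_neg (by omega)]; omega
  · intro k
    simp only [Equiv.ofBijective_apply, hExp, dExp, sq_abs]
    ring

theorem finLow_hExp_zero {M : ℤ} (hpos : 0 < M) :
    FinLow (fun c : {c : ℤ // Odd c} => hExp M 0 c) := by
  have hf : FinLow (fun c : ℤ => hExp M 0 c) := by
    intro b
    refine (Set.finite_Icc (-(|b| + 1)) (|b| + 1)).subset ?_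
    intro k hk
    have h1 : M * (2 ^ 0 * k ^ 2 + k) ≤ b := hk
    have hb := le_abs_self b
    have hb0 := abs_nonneg b
    rw [pow_zero, one_mul] at h1
    have h2 : 0 ≤ k ^ 2 + k := by
      rcases le_or_gt 0 k with h | h
      · positivity
      · nlinarith
    have h3 : k ^ 2 + k ≤ |b| := by nlinarith
    constructor
    · nlinarith
    · nlinarith
  exact hf.subtype _

theorem prod_zero {M : ℤ} (hM : Odd M) (hpos : 0 < M) :
    (Hs F M 0 + od (Hs F M 0)) * od (Hs F M 0) = Ds F M * Hs F M 0 ^ 2 := by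
  rw [ev_Hs F hM hpos, od_Hs F hM hpos, prod_identity F hpos 0 (finLow_hExp_zero hpos)]
  congr 1
  · simp only [pow_zero, one_mul]; rfl
  · rw [Hs, theta_sq F (hExp_finLow hpos 0)]
    symm
    refine theta_equiv F (Equiv.ofBijective (fun k : ℤ => (⟨-(2 * k + 1), ?_⟩ : {c : ℤ // Odd c}))
      ⟨?_, ?_⟩) ?_ (finLow_hExp_zero hpos)
    · exact Odd.neg ⟨k, rfl⟩
    · intro a b hab
      have h1 : -(2 * a + 1) = -(2 * b + 1) := congrArg Subtype.val hab
      omega
    · rintro ⟨c, k, rfl⟩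
      exact ⟨-k - 1, Subtype.ext (by ring)⟩
    · intro k
      simp only [Equiv.ofBijective_apply, hExp]
      ring

theorem prod_succ {M : ℤ} (hM : Odd M) (hpos : 0 < M) (i : ℕ) :
    (Hs F M (i + 1) + od (Hs F M (i + 1))) * od (Hs F M (i + 1)) =
      Ds F M ^ (2 ^ (i + 1)) * od (Hs F M i) := by
  rw [ev_Hs F hM hpos, od_Hs F hM hpos, od_Hs F hM hpos,
    prod_identity F hpos (i + 1) ((hExp_finLow hpos i).subtype _), Ds,
    theta_pow_two_pow F (dExp_finLow hpos)]

/-- The tower data for odd positive `M`. -/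
noncomputable def towerData {M : ℤ} (hM : Odd M) (hpos : 0 < M) : TowerData F where
  M := M
  hM := hM
  H := Hs F M
  H_ne := Hs_ne F hpos
  D := Ds F M
  hD := Ds_eq F hpos
  hev := ev_Hs' F hM hpos
  h0 := by
    have h1 := prod_zero F hM hpos
    have h2 := Hs_ne F hpos 0
    have : (od (Hs F M 0) / Hs F M 0) ^ 2 + od (Hs F M 0) / Hs F M 0 =
      ((Hs F M 0 + od (Hs F M 0)) * od (Hs F M 0)) / Hs F M 0 ^ 2 := by
      field_simp
      ring
    rw [this, h1]
    field_simp
  hs := by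
    intro i
    have h1 := prod_succ F hM hpos i
    have h2 := Hs_ne F hpos (i + 1)
    have h3 := Hs_ne F hpos i
    have h4 := ev_Hs' F hM hpos i
    have h5 : 1 + od (Hs F M i) / Hs F M i ≠ 0 := by
      intro h
      have : Hs F M i + od (Hs F M i) = (1 + od (Hs F M i) / Hs F M i) * Hs F M i := by
        field_simp
      rw [h, zero_mul] at this
      rw [this] at h4
      exact pow_ne_zero 2 h2 h4.symm
    have : (od (Hs F M (i + 1)) / Hs F M (i + 1)) ^ 2 + od (Hs F M (i + 1)) / Hs F M (i + 1) =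
      ((Hs F M (i + 1) + od (Hs F M (i + 1))) * od (Hs F M (i + 1))) / Hs F M (i + 1) ^ 2 := by
      field_simp
      ring
    rw [this, h1, ← h4]
    field_simp

end

end Pool.Agent.Lib.MP_24de68_nt
end

section

namespace Pool.Agent.Lib.MP_24de68_nt

open HahnSeries

section

variable {F : Type*} [Field F]

/-- Twisting a Laurent series by a nonzero constant: `w ↦ u w`. -/
noncomputable def twFun (u : F) (x : HahnSeries ℤ F) : HahnSeries ℤ F where
  coeff n := u ^ n * x.coeff n
  isPWO_support' := x.isPWO_support.mono (by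
    intro n hn h
    exact hn (by simp only [h, mul_zero]))

theorem twFun_coeff (u : F) (x : HahnSeries ℤ F) (n : ℤ) :
    (twFun u x).coeff n = u ^ n * x.coeff n := rfl

theorem twFun_support_subset (u : F) (x : HahnSeries ℤ F) : (twFun u x).support ⊆ x.support := by
  intro n hn h
  exact hn (by simp only [twFun_coeff, h, mul_zero])

theorem twFun_mul {u : F} (hu : u ≠ 0) (x y : HahnSeries ℤ F) :
    twFun u (x * y) = twFun u x * twFun u y := by
  ext n
  rw [twFun_coeff, coeff_mul, coeff_mul_left' x.isPWO_support (twFun_support_subset u x)]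
  have h1 : ∑ ij ∈ Finset.antidiagonal x.isPWO_support (twFun u y).isPWO_support n,
      (twFun u x).coeff ij.1 * (twFun u y).coeff ij.2 =
      ∑ ij ∈ Finset.antidiagonal x.isPWO_support y.isPWO_support n,
      (twFun u x).coeff ij.1 * (twFun u y).coeff ij.2 := by
    apply Finset.sum_subset
    · intro ij hij
      rw [Finset.mem_antidiagonal] at hij ⊢
      exact ⟨hij.1, twFun_support_subset u y hij.2.1, hij.2.2⟩
    · intro ij hij hij'
      rw [Finset.mem_antidiagonal] at hij hij'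
      by_contra hc
      apply hij'
      refine ⟨hij.1, ?_, hij.2.2⟩
      intro h
      apply hc
      rw [h, mul_zero]
  rw [h1, Finset.mul_sum]
  apply Finset.sum_congr rfl
  intro ij hij
  rw [Finset.mem_antidiagonal] at hij
  rw [twFun_coeff, twFun_coeff, ← hij.2.2, zpow_add₀ hu]
  ring

/-- Twisting as a ring homomorphism. -/
noncomputable def tw (u : Fˣ) : HahnSeries ℤ F →+* HahnSeries ℤ F where
  toFun := twFun (u : F)
  map_one' := by
    ext n
    rw [twFun_coeff, coeff_one]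
    split_ifs with h
    · subst h; simp
    · simp
  map_mul' := twFun_mul u.ne_zero
  map_zero' := by ext n; simp [twFun_coeff]
  map_add' x y := by ext n; simp [twFun_coeff, mul_add]

theorem tw_coeff (u : Fˣ) (x : HahnSeries ℤ F) (n : ℤ) :
    (tw u x).coeff n = (u : F) ^ n * x.coeff n := rfl

/-- The ring homomorphism `w ↦ w ^ s`. -/
noncomputable def scale (s : ℕ) (hs : 0 < s) : HahnSeries ℤ F →+* HahnSeries ℤ F :=
  embDomainRingHom (AddMonoidHom.mulLeft (s : ℤ))
    (fun a b h => by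
      have h1 : (s : ℤ) * a = s * b := h
      exact mul_left_cancel₀ (by exact_mod_cast hs.ne') h1)
    (fun a b => by
      show (s : ℤ) * a ≤ s * b ↔ a ≤ b
      exact mul_le_mul_iff_of_pos_left (by exact_mod_cast hs))

theorem scale_coeff {s : ℕ} (hs : 0 < s) (x : HahnSeries ℤ F) (n : ℤ) :
    (scale s hs x).coeff (s * n) = x.coeff n := by
  rw [scale, embDomainRingHom_apply]
  exact embDomain_coeff (f := ⟨⟨AddMonoidHom.mulLeft (s : ℤ), _⟩, _⟩) (a := n)

theorem scale_coeff_of_not_dvd {s : ℕ} (hs : 0 < s) (x : HahnSeries ℤ F) {n : ℤ}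
    (hn : ¬ (s : ℤ) ∣ n) : (scale s hs x).coeff n = 0 := by
  rw [scale, embDomainRingHom_apply]
  apply embDomain_of_notMem_range
  rintro ⟨m, hm⟩
  exact hn ⟨m, hm.symm⟩

theorem hs_ext_iff {x y : HahnSeries ℤ F} : x = y ↔ ∀ n, x.coeff n = y.coeff n :=
  ⟨fun h n => by rw [h], fun h => by ext n; exact h n⟩

theorem scale_ext {s : ℕ} (hs : 0 < s) {x : HahnSeries ℤ F} {y : HahnSeries ℤ F}
    (h1 : ∀ n : ℤ, y.coeff (s * n) = x.coeff n) (h2 : ∀ n : ℤ, ¬ (s : ℤ) ∣ n → y.coeff n = 0) :
    y = scale s hs x := by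
  ext n
  by_cases hn : (s : ℤ) ∣ n
  · obtain ⟨m, rfl⟩ := hn
    rw [h1, scale_coeff]
  · rw [h2 n hn, scale_coeff_of_not_dvd hs x hn]

theorem scale_scale {s t : ℕ} (hs : 0 < s) (ht : 0 < t) (x : HahnSeries ℤ F) :
    scale s hs (scale t ht x) = scale (s * t) (Nat.mul_pos hs ht) x := by
  apply scale_ext
  · intro n
    have : ((s * t : ℕ) : ℤ) * n = s * (t * n) := by push_cast; ring
    rw [this, scale_coeff, scale_coeff]
  · intro n hn
    by_cases h : (s : ℤ) ∣ n
    · obtain ⟨m, rfl⟩ := h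
      rw [scale_coeff]
      apply scale_coeff_of_not_dvd
      rintro ⟨k, rfl⟩
      apply hn
      exact ⟨k, by push_cast; ring⟩
    · exact scale_coeff_of_not_dvd hs _ h

theorem tw_scale (u : Fˣ) {s : ℕ} (hs : 0 < s) (x : HahnSeries ℤ F) :
    tw u (scale s hs x) = scale s hs (tw (u ^ s) x) := by
  apply scale_ext
  · intro n
    rw [tw_coeff, scale_coeff, tw_coeff, zpow_mul]
    push_cast
    rw [zpow_natCast]
  · intro n hn
    rw [tw_coeff, scale_coeff_of_not_dvd hs x hn, mul_zero]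

theorem scale_C {s : ℕ} (hs : 0 < s) (c : F) : scale s hs (HahnSeries.C c) = HahnSeries.C c :=
  embDomainRingHom_C

theorem tw_C (u : Fˣ) (c : F) : tw u (HahnSeries.C c) = HahnSeries.C c := by
  ext n
  rw [tw_coeff, C_apply]
  by_cases h : n = 0
  · subst h; simp
  · rw [coeff_single_of_ne h]; simp

theorem scale_injective {s : ℕ} (hs : 0 < s) :
    Function.Injective (scale s hs : HahnSeries ℤ F →+* HahnSeries ℤ F) :=
  RingHom.injective _

/-- `x` has lowest term `c w^n`. -/
def LowTerm (x : HahnSeries ℤ F) (n : ℤ) (c : F) : Prop :=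
  x.coeff n = c ∧ ∀ m < n, x.coeff m = 0

theorem LowTerm.mul {x y : HahnSeries ℤ F} {n m : ℤ} {c d : F} (hx : LowTerm x n c)
    (hy : LowTerm y m d) : LowTerm (x * y) (n + m) (c * d) := by
  have key : ∀ l ≤ n + m, (x * y).coeff l = if l = n + m then c * d else 0 := by
    intro l hl
    rw [coeff_mul]
    by_cases hlt : l = n + m
    · subst hlt
      rw [if_pos rfl]
      rw [Finset.sum_eq_single (n, m)]
      · rw [hx.1, hy.1]
      · rintro ⟨a, b⟩ hab hne
        rw [Finset.mem_antidiagonal] at hab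
        obtain ⟨_, _, h3⟩ := hab
        have h3' : a + b = n + m := h3
        rcases lt_trichotomy a n with h | h | h
        · rw [hx.2 a h, zero_mul]
        · exfalso; apply hne; subst h
          have : b = m := by omega
          rw [this]
        · rw [hy.2 b (by omega), mul_zero]
      · intro h
        rw [Finset.mem_antidiagonal] at h
        by_contra hc
        apply h
        refine ⟨?_, ?_, rfl⟩
        · intro h0; apply hc; rw [h0, zero_mul]
        · intro h0; apply hc; rw [h0, mul_zero]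
    · rw [if_neg hlt]
      apply Finset.sum_eq_zero
      rintro ⟨a, b⟩ hab
      rw [Finset.mem_antidiagonal] at hab
      obtain ⟨_, _, h3⟩ := hab
      have h3' : a + b = l := h3
      rcases lt_or_ge a n with h | h
      · rw [hx.2 a h, zero_mul]
      · rw [hy.2 b (by omega), mul_zero]
  refine ⟨?_, ?_⟩
  · rw [key _ le_rfl, if_pos rfl]
  · intro l hl
    rw [key l hl.le, if_neg hl.ne]

theorem LowTerm.one : LowTerm (1 : HahnSeries ℤ F) 0 1 := by
  refine ⟨by simp [coeff_one], ?_⟩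
  intro m hm
  rw [coeff_one, if_neg hm.ne]

theorem LowTerm.pow {x : HahnSeries ℤ F} {n : ℤ} {c : F} (hx : LowTerm x n c) (k : ℕ) :
    LowTerm (x ^ k) (k * n) (c ^ k) := by
  induction k with
  | zero => simpa using LowTerm.one
  | succ k ih =>
    rw [pow_succ, pow_succ]
    have := ih.mul hx
    convert this using 1
    push_cast; ring

theorem LowTerm.ne_zero {x : HahnSeries ℤ F} {n : ℤ} {c : F} (hx : LowTerm x n c) (hc : c ≠ 0) :
    x ≠ 0 := by
  rintro rfl
  apply hc
  rw [← hx.1, coeff_zero]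

theorem exists_lowTerm {x : HahnSeries ℤ F} (hx : x ≠ 0) : ∃ n c, c ≠ 0 ∧ LowTerm x n c := by
  refine ⟨x.order, x.coeff x.order, ?_, rfl, ?_⟩
  · intro h; exact hx (coeff_order_eq_zero.mp h)
  · intro m hm; exact coeff_eq_zero_of_lt_order hm

theorem LowTerm.unique {x : HahnSeries ℤ F} {n m : ℤ} {c d : F} (hx : LowTerm x n c)
    (hy : LowTerm x m d) (hc : c ≠ 0) (hd : d ≠ 0) : n = m ∧ c = d := by
  rcases lt_trichotomy n m with h | h | h
  · exfalso; apply hc; rw [← hx.1, hy.2 n h]
  · subst h; exact ⟨rfl, hx.1.symm.trans hy.1⟩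
  · exfalso; apply hd; rw [← hy.1, hx.2 m h]

theorem LowTerm.div {x y : HahnSeries ℤ F} {n m : ℤ} {c d : F} (hx : LowTerm x n c)
    (hc : c ≠ 0) (hy : LowTerm y m d) (hd : d ≠ 0) : LowTerm (x / y) (n - m) (c / d) := by
  have hx0 := hx.ne_zero hc
  have hy0 := hy.ne_zero hd
  obtain ⟨l, e, he, hl⟩ := exists_lowTerm (div_ne_zero hx0 hy0)
  have h1 := hl.mul hy
  rw [div_mul_cancel₀ _ hy0] at h1
  obtain ⟨h2, h3⟩ := h1.unique hx (mul_ne_zero he hd) hc
  have h4 : l = n - m := by omega
  have h5 : e = c / d := by rw [← h3]; field_simp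
  rw [← h4, ← h5]; exact hl

theorem LowTerm.C_mul {x : HahnSeries ℤ F} {n : ℤ} {c : F} (a : F) (hx : LowTerm x n c) :
    LowTerm (HahnSeries.C a * x) n (a * c) := by
  rw [C_mul_eq_smul]
  refine ⟨by rw [coeff_smul, hx.1, smul_eq_mul], ?_⟩
  intro m hm
  rw [coeff_smul, hx.2 m hm, smul_zero]

theorem LowTerm.tw {x : HahnSeries ℤ F} {n : ℤ} {c : F} (u : Fˣ) (hx : LowTerm x n c) :
    LowTerm (tw u x) n ((u : F) ^ n * c) := by
  refine ⟨by rw [tw_coeff, hx.1], ?_⟩
  intro m hm
  rw [tw_coeff, hx.2 m hm, mul_zero]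

theorem LowTerm.scale {x : HahnSeries ℤ F} {n : ℤ} {c : F} {s : ℕ} (hs : 0 < s)
    (hx : LowTerm x n c) : LowTerm (scale s hs x) (s * n) c := by
  refine ⟨by rw [scale_coeff, hx.1], ?_⟩
  intro m hm
  by_cases h : (s : ℤ) ∣ m
  · obtain ⟨k, rfl⟩ := h
    rw [scale_coeff]
    apply hx.2
    exact lt_of_mul_lt_mul_left hm (by positivity)
  · exact scale_coeff_of_not_dvd hs x h

/-- The exponents of the reduction of `η^8`. -/
def tExp (k : ℤ) : ℤ := (6 * k - 1) ^ 2

theorem tExp_finLow : FinLow tExp := by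
  intro b
  refine (Set.finite_Icc (-|b|) |b|).subset ?_
  intro k hk
  have h1 : (6 * k - 1) ^ 2 ≤ b := hk
  have hb := le_abs_self b
  constructor <;> nlinarith [sq_nonneg (k : ℤ), sq_nonneg (k - 1 : ℤ), sq_nonneg (k + 1 : ℤ)]

variable (F) in
/-- The reduction of `η^8`. -/
noncomputable def Th : HahnSeries ℤ F := theta F tExp

theorem Th_low : LowTerm (Th F) 1 1 := by
  constructor
  · rw [Th, theta_coeff F tExp_finLow]
    have : {k | tExp k = 1} = {0} := by
      ext k
      simp only [Set.mem_ofPred_eq, Set.mem_singleton_iff, tExp]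
      constructor
      · intro h
        have h2 : (6 * k) * (6 * k - 2) = 0 := by linear_combination h
        rcases mul_eq_zero.mp h2 with h | h <;> omega
      · rintro rfl; norm_num
    rw [this]; simp
  · intro m hm
    rw [Th, theta_coeff F tExp_finLow]
    have : {k | tExp k = m} = ∅ := by
      ext k
      simp only [Set.mem_ofPred_eq, Set.mem_empty_iff_false, iff_false, tExp]
      intro h
      have h1 : (6 * k - 1) ^ 2 < 1 := by rw [h]; exact hm
      have h2 : (6 * k - 1) ^ 2 = 0 := by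
        have := sq_nonneg (6 * k - 1 : ℤ)
        omega
      have h3 : 6 * k - 1 = 0 := by
        rwa [sq_eq_zero_iff] at h2
      omega
    rw [this]; simp

/-- The element `1`. -/
def oddOne : OddPos := ⟨1, odd_one, one_pos⟩

theorem Ds_low [CharP F 2] {M : ℤ} (hpos : 0 < M) : LowTerm (Ds F M) M 1 := by
  constructor
  · rw [Ds, theta_coeff F (dExp_finLow hpos)]
    have : {k | dExp M k = M} = {oddOne} := by
      ext k
      rw [Set.mem_ofPred_eq, Set.mem_singleton_iff]
      unfold dExp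
      constructor
      · intro h
        have h1 : k.1 ^ 2 = 1 := by
          have : M * k.1 ^ 2 = M * 1 := by rw [h, mul_one]
          exact mul_left_cancel₀ hpos.ne' this
        apply Subtype.ext
        have h2 := k.2.2
        show k.1 = 1
        nlinarith
      · rintro rfl
        show M * 1 ^ 2 = M
        ring
    rw [this]; simp
  · intro m hm
    rw [Ds, theta_coeff F (dExp_finLow hpos)]
    have : {k | dExp M k = m} = ∅ := by
      ext k
      simp only [Set.mem_ofPred_eq, Set.mem_empty_iff_false, iff_false, dExp]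
      intro h
      have h2 := k.2.2
      have h3 : 1 ≤ k.1 ^ 2 := by nlinarith
      nlinarith
    rw [this]; simp

end

end Pool.Agent.Lib.MP_24de68_nt
end
end
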