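import Mathlib
import Pool.Agent.Lib.MP_24de68_nt.Series

section

section

namespace Pool.Agent.Lib.MP_24de68_nt

open Polynomial

section

variable {L : Type*} [Field L] [CharP L 2]

/-- The subfield of elements of the form `α² + D β²`. -/
def qField (K : Subfield L) (D : L) (hD : D ∈ K) :
    Subfield L where
  carrier := {x | ∃ α ∈ K, ∃ β ∈ K, x = α ^ 2 + D * β ^ 2}
  mul_mem' := by
    rintro _ _ ⟨a, ha, b, hb, rfl⟩ ⟨c, hc, d, hd, rfl⟩
    have h2 : (2 : L) = 0 := CharTwo.two_eq_zero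
    refine ⟨a * c + D * b * d, K.add_mem (K.mul_mem ha hc) (K.mul_mem (K.mul_mem hD hb) hd),
      a * d + b * c, K.add_mem (K.mul_mem ha hd) (K.mul_mem hb hc), ?_⟩
    linear_combination (-2 * D * a * b * c * d) * h2
  one_mem' := ⟨1, K.one_mem, 0, K.zero_mem, by ring⟩
  add_mem' := by
    rintro _ _ ⟨a, ha, b, hb, rfl⟩ ⟨c, hc, d, hd, rfl⟩
    have h2 : (2 : L) = 0 := CharTwo.two_eq_zero
    refine ⟨a + c, K.add_mem ha hc, b + d, K.add_mem hb hd, ?_⟩
    linear_combination (-a * c - D * b * d) * h2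
  zero_mem' := ⟨0, K.zero_mem, 0, K.zero_mem, by ring⟩
  neg_mem' := by
    rintro _ ⟨a, ha, b, hb, rfl⟩
    have h2 : (2 : L) = 0 := CharTwo.two_eq_zero
    refine ⟨a, ha, b, hb, ?_⟩
    linear_combination (-a ^ 2 - D * b ^ 2) * h2
  inv_mem' := by
    rintro _ ⟨a, ha, b, hb, rfl⟩
    by_cases h : a ^ 2 + D * b ^ 2 = 0
    · rw [h, inv_zero]; exact ⟨0, K.zero_mem, 0, K.zero_mem, by ring⟩
    · have hn : a ^ 2 + D * b ^ 2 ∈ K := K.add_mem (K.pow_mem ha 2) (K.mul_mem hD (K.pow_mem hb 2))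
      refine ⟨a / (a ^ 2 + D * b ^ 2), K.div_mem ha hn, b / (a ^ 2 + D * b ^ 2),
        K.div_mem hb hn, ?_⟩
      field_simp

theorem sq_mem_qField {K : Subfield L} {D : L} {hD : D ∈ K}
    {x : L} (hx : x ∈ K) : x ^ 2 ∈ qField K D hD :=
  ⟨x, hx, 0, K.zero_mem, by ring⟩

theorem gen_mem_qField {K : Subfield L} {D : L} {hD : D ∈ K} :
    D ∈ qField K D hD :=
  ⟨0, K.zero_mem, 1, K.one_mem, by ring⟩

variable {F : Type*} [Field F] [Algebra F L] [CharP F 2] [PerfectRing F 2]

theorem C_mem_qField {K : Subfield L} {D : L}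
    {hD : D ∈ K} (hC : ∀ c : F, algebraMap F L c ∈ K) (c : F) :
    algebraMap F L c ∈ qField K D hD := by
  obtain ⟨d, hd⟩ : ∃ d : F, d ^ 2 = c :=
    ⟨(frobeniusEquiv F 2).symm c, frobenius_apply_frobeniusEquiv_symm F 2 _⟩
  rw [← hd, map_pow]
  exact sq_mem_qField (hC d)

variable (F) in
theorem propQ_adjoin (D : L) :
    PropQ (IntermediateField.adjoin F {D}).toSubfield D := by
  set K := IntermediateField.adjoin F ({D} : Set L) with hK
  have hD : D ∈ K := IntermediateField.mem_adjoin_simple_self F D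
  have hC : ∀ c : F, algebraMap F L c ∈ K.toSubfield := fun c =>
    K.algebraMap_mem c
  let Q : IntermediateField F L :=
    { qField K.toSubfield D hD with
      algebraMap_mem' := fun c => C_mem_qField hC c }
  have hQ : K ≤ Q := by
    rw [hK, IntermediateField.adjoin_le_iff]
    rintro _ rfl
    exact gen_mem_qField (hD := hD)
  intro x hx
  exact hQ hx

theorem adjoin_le_qField {K : Subfield L} {D : L} (hD : D ∈ K)
    (hC : ∀ c : F, algebraMap F L c ∈ K) (y : L) (hy : y ∈ IntermediateField.adjoin F ({D} : Set L)) :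
    y ∈ qField K D hD := by
  let Q : IntermediateField F L :=
      { qField K D hD with
        algebraMap_mem' := fun c => C_mem_qField hC c }
  have hQ : IntermediateField.adjoin F ({D} : Set L) ≤ Q := by
    rw [IntermediateField.adjoin_le_iff]
    rintro _ rfl
    exact gen_mem_qField (hD := hD)
  exact hQ hy

/-- Separability of algebraic elements, abstract form. -/
theorem sep_of_prop {k : Type*} [Field k] [Algebra k L] [CharP k 2] {D : L}
    (hind : ∀ a b : L, a ^ 2 + D * b ^ 2 = 0 → a = 0 ∧ b = 0)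
    (hprop : ∀ c : k, ∃ α β : k, algebraMap k L c = (algebraMap k L α) ^ 2 +
      D * (algebraMap k L β) ^ 2) {x : L} (hint : IsIntegral k x) : IsSeparable k x := by
  have hirr := minpoly.irreducible hint
  rcases separable_or 2 hirr with h | ⟨_, g, hg, hgx⟩
  · exact h
  · exfalso
    choose α β hαβ using hprop
    set a : k[X] := ∑ i ∈ Finset.range (g.natDegree + 1), C (α (g.coeff i)) * X ^ i with ha
    set b : k[X] := ∑ i ∈ Finset.range (g.natDegree + 1), C (β (g.coeff i)) * X ^ i with hb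
    have hco : ∀ f : ℕ → k, ∀ i ∈ Finset.range (g.natDegree + 1),
        (∑ i ∈ Finset.range (g.natDegree + 1), C (f i) * X ^ i : k[X]).coeff i = f i := by
      intro f i hi
      rw [finsetSum_coeff]
      simp only [coeff_C_mul, coeff_X_pow]
      rw [Finset.sum_eq_single i]
      · simp
      · intro j _ hj
        rw [if_neg hj.symm, mul_zero]
      · intro h; exact absurd hi h
    have hdegle : ∀ f : ℕ → k,
        (∑ i ∈ Finset.range (g.natDegree + 1), C (f i) * X ^ i : k[X]).natDegree ≤ g.natDegree := by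
      intro f
      apply natDegree_sum_le_of_forall_le
      intro i hi
      rw [Finset.mem_range] at hi
      exact (natDegree_C_mul_X_pow_le _ _).trans (by omega)
    have heval : ∀ f : ℕ → k,
        aeval x (∑ i ∈ Finset.range (g.natDegree + 1), C (f i) * X ^ i : k[X]) =
        ∑ i ∈ Finset.range (g.natDegree + 1), algebraMap k L (f i) * x ^ i := by
      intro f
      rw [map_sum]
      apply Finset.sum_congr rfl
      intro i _
      rw [map_mul, aeval_C, map_pow, aeval_X]
    have hsq : ∀ f : ℕ → L, (∑ i ∈ Finset.range (g.natDegree + 1), f i) ^ 2 =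
            ∑ i ∈ Finset.range (g.natDegree + 1), (f i) ^ 2 := fun f => by
      rw [sum_pow_char]
    have h0 : (aeval x a) ^ 2 + D * (aeval x b) ^ 2 = 0 := by
      have h1 : aeval x (expand k 2 g) = 0 := by rw [hgx]; exact minpoly.aeval k x
      rw [expand_aeval, aeval_eq_sum_range] at h1
      rw [ha, hb, heval, heval, hsq, hsq, Finset.mul_sum, ← Finset.sum_add_distrib, ← h1]
      apply Finset.sum_congr rfl
      intro i _
      rw [Algebra.smul_def, hαβ (g.coeff i)]
      ring
    obtain ⟨hA, hB⟩ := hind _ _ h0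
    have hdeg : (minpoly k x).natDegree = g.natDegree * 2 := by
      rw [← hgx, natDegree_expand]
    have hgpos : 0 < g.natDegree := by
      have := minpoly.natDegree_pos hint
      omega
    have hvan : ∀ p : k[X], p.natDegree ≤ g.natDegree → aeval x p = 0 → p = 0 := by
      intro p hp hpx
      by_contra hne
      have := natDegree_le_of_dvd (minpoly.dvd k x hpx) hne
      omega
    have ha0 := hvan a (hdegle _) hA
    have hb0 := hvan b (hdegle _) hB
    apply hg.ne_zero
    ext i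
    by_cases hi : i ∈ Finset.range (g.natDegree + 1)
    · have h1 := hαβ (g.coeff i)
      have h2 : α (g.coeff i) = 0 := by
        rw [← hco (fun i => α (g.coeff i)) i hi, ← ha, ha0, coeff_zero]
      have h3 : β (g.coeff i) = 0 := by
        rw [← hco (fun i => β (g.coeff i)) i hi, ← hb, hb0, coeff_zero]
      rw [h2, h3, map_zero] at h1
      rw [coeff_zero]
      apply (algebraMap k L).injective
      rw [h1, map_zero]; ring
    · rw [Finset.mem_range] at hi
      rw [coeff_eq_zero_of_natDegree_lt (by omega)]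
      simp

theorem propQ_of_algebraic {D : L} (hind : ∀ a b : L, a ^ 2 + D * b ^ 2 = 0 → a = 0 ∧ b = 0)
    (K : Subfield L) (hD : D ∈ K)
    (hC : ∀ c : F, algebraMap F L c ∈ K)
    (halg : ∀ x ∈ K, IsAlgebraic (IntermediateField.adjoin F {D}) x) : PropQ K D := by
  intro x hx
  have hsep : IsSeparable (IntermediateField.adjoin F {D}) x := by
    have : CharP (IntermediateField.adjoin F {D}) 2 :=
      charP_of_injective_algebraMap (algebraMap F (IntermediateField.adjoin F {D})).injective 2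
    refine sep_of_prop hind ?_ (halg x hx).isIntegral
    intro c
    obtain ⟨α, hα, β, hβ, h⟩ := propQ_adjoin F D _ c.2
    exact ⟨⟨α, hα⟩, ⟨β, hβ⟩, h⟩
  have hmem : x ∈ IntermediateField.adjoin (IntermediateField.adjoin F {D}) {x ^ 2} := by
    have : CharP (IntermediateField.adjoin F {D}) 2 :=
        charP_of_injective_algebraMap (algebraMap F (IntermediateField.adjoin F {D})).injective 2
    have : ExpChar (IntermediateField.adjoin F {D}) 2 := ExpChar.prime Nat.prime_two
    have h := IntermediateField.adjoin_simple_eq_adjoin_pow_expChar_pow_of_isSeparable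
      (IntermediateField.adjoin F {D}) L hsep 2 1
    rw [pow_one] at h
    rw [← h]
    exact IntermediateField.mem_adjoin_simple_self _ x
  let Q' : IntermediateField (IntermediateField.adjoin F ({D} : Set L)) L :=
    { qField K D hD with
      algebraMap_mem' := fun c => adjoin_le_qField hD hC _ c.2 }
  have hle : IntermediateField.adjoin (IntermediateField.adjoin F {D}) {x ^ 2} ≤ Q' := by
    rw [IntermediateField.adjoin_le_iff]
    rintro _ rfl
    exact sq_mem_qField (hD := hD) hx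
  exact hle hmem

end

end Pool.Agent.Lib.MP_24de68_nt
end

section

namespace Pool.Agent.Lib.MP_24de68_nt

open HahnSeries Matrix

/-- The modular group. -/
abbrev SLZ := Matrix.SpecialLinearGroup (Fin 2) ℤ

/-- The quotient of the modular group by the principal congruence subgroup. -/
abbrev GQ (M : ℕ) := SLZ ⧸ CongruenceSubgroup.Gamma M

instance gammaNormal (M : ℕ) : (CongruenceSubgroup.Gamma M).Normal :=
  CongruenceSubgroup.Gamma_normal M

noncomputable instance (M : ℕ) [NeZero M] : Fintype (GQ M) := Fintype.ofFinite _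

/-- The exponent of the character of `η^8`. -/
def psi (γ : SLZ) : ℤ := (γ 0 0 + γ 1 1) * γ 1 0 - γ 0 1 * γ 1 1 * (γ 1 0 ^ 2 - 1)

/-- Reductions of integral modular forms, abstractly. -/
structure RedData (F : Type*) [Field F] [CharP F 2] (M : ℕ) [NeZero M] where
  ω : Fˣ
  hω : IsPrimitiveRoot ω M
  B : ℕ → Set (SLZ → HahnSeries ℤ F)
  add_mem : ∀ {k : ℕ} {x y : SLZ → HahnSeries ℤ F}, x ∈ B k → y ∈ B k → x + y ∈ B k
  mul_mem : ∀ {k l : ℕ} {x y : SLZ → HahnSeries ℤ F}, x ∈ B k → y ∈ B l → x * y ∈ B (k + l)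
  const_mem : ∀ c : F, (fun _ => HahnSeries.C c) ∈ B 0
  mono : ∀ {k : ℕ} {x : SLZ → HahnSeries ℤ F}, x ∈ B k → x ∈ B (k + 1)
  D_mem : (fun _ => Ds F M) ∈ B 3
  translate : ∀ {k : ℕ} {x : SLZ → HahnSeries ℤ F} (δ : SLZ), x ∈ B k → (fun γ => x (δ * γ)) ∈ B k
  gamma : ∀ {k : ℕ} {x : SLZ → HahnSeries ℤ F}, x ∈ B k →
    ∀ δ ∈ CongruenceSubgroup.Gamma M, ∀ γ, x (δ * γ) = x γ
  coeff_neg : ∀ {k : ℕ} {x : SLZ → HahnSeries ℤ F}, x ∈ B k → ∀ γ, ∀ n < 0, (x γ).coeff n = 0
  tau_T : ∀ {k : ℕ} {x : SLZ → HahnSeries ℤ F}, x ∈ B k → ∀ γ, x (γ * ModularGroup.T) = tw ω (x γ)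
  esymm : ∀ {k : ℕ} {x : SLZ → HahnSeries ℤ F}, x ∈ B k → ∀ n : ℕ, ∃ p : Polynomial F,
    3 * p.natDegree ≤ n * k + 2 ∧
    ∑ A ∈ Finset.powersetCard n (Finset.univ : Finset (GQ M)), ∏ g ∈ A, x g.out =
      Polynomial.eval₂ HahnSeries.C (Ds F M) p
  V : Matrix (Fin 2) (Fin 2) ℤ → HahnSeries ℤ F
  V_mem : ∀ m : Matrix (Fin 2) (Fin 2) ℤ, 0 < m.det → 3 * m.det ∣ M →
    (fun γ : SLZ => V (m * (γ : Matrix (Fin 2) (Fin 2) ℤ))) ∈ B 1
  V_chi : ∀ (γ : SLZ) (m : Matrix (Fin 2) (Fin 2) ℤ), 0 < m.det → 3 * m.det ∣ M →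
    V ((γ : Matrix (Fin 2) (Fin 2) ℤ) * m) =
      HahnSeries.C ((ω ^ (((M / 3 : ℕ) : ℤ) * psi γ) : Fˣ) : F) * V m
  V_upper : ∀ (a : ℕ) (b : ℤ) (d : ℕ) (s : ℕ) (t : ℕ) (hs : 0 < s), 0 < a → 0 < d →
    s * (3 * d) = a * M → t * (3 * d) = M → 3 * (a * d) ∣ M →
    V !![(a : ℤ), b; 0, (d : ℤ)] = scale s hs (tw (ω ^ ((t : ℤ) * b)) (Th F))

namespace RedData

variable {F : Type*} [Field F] [CharP F 2] {M : ℕ} [NeZero M] (R : RedData F M)

theorem eq_of_mk_eq {k : ℕ} {x : SLZ → HahnSeries ℤ F} (hx : x ∈ R.B k) {γ₁ γ₂ : SLZ}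
    (h : (γ₁ : GQ M) = (γ₂ : GQ M)) : x γ₁ = x γ₂ := by
  have h1 : γ₁⁻¹ * γ₂ ∈ CongruenceSubgroup.Gamma M := QuotientGroup.eq.mp h
  have h2 : γ₂ * γ₁⁻¹ ∈ CongruenceSubgroup.Gamma M := by
    have := Subgroup.Normal.conj_mem (CongruenceSubgroup.Gamma_normal M) _ h1 γ₁
    simpa [mul_assoc] using this
  have h3 := R.gamma hx _ h2 γ₁
  rw [← h3]
  congr 1
  group

theorem out_eq {k : ℕ} {x : SLZ → HahnSeries ℤ F} (hx : x ∈ R.B k) (γ : SLZ) :
    x (γ : GQ M).out = x γ :=
  R.eq_of_mk_eq hx (QuotientGroup.out_eq' _)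

theorem mono_le {k l : ℕ} (h : k ≤ l) {x : SLZ → HahnSeries ℤ F} (hx : x ∈ R.B k) : x ∈ R.B l := by
  induction l, h using Nat.le_induction with
  | base => exact hx
  | succ l _ ih => exact R.mono ih

theorem one_mem : (1 : SLZ → HahnSeries ℤ F) ∈ R.B 0 := by
  have := R.const_mem 1
  convert this using 1
  ext γ
  simp

theorem zero_mem : (0 : SLZ → HahnSeries ℤ F) ∈ R.B 0 := by
  have := R.const_mem 0
  convert this using 1
  ext γ
  simp

theorem pow_mem {k : ℕ} {x : SLZ → HahnSeries ℤ F} (hx : x ∈ R.B k) (n : ℕ) :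
    x ^ n ∈ R.B (n * k) := by
  induction n with
  | zero => simpa using R.one_mem
  | succ n ih =>
    rw [pow_succ]
    have := R.mul_mem ih hx
    convert this using 1
    ring

theorem prod_mem {ι : Type*} (s : Finset ι) (f : ι → SLZ → HahnSeries ℤ F)
    (hf : ∀ i ∈ s, ∃ k, f i ∈ R.B k) : ∃ k, ∏ i ∈ s, f i ∈ R.B k := by
  classical
  induction s using Finset.induction_on with
  | empty => exact ⟨0, by simpa using R.one_mem⟩
  | insert a s ha ih =>
    obtain ⟨k, hk⟩ := ih (fun i hi => hf i (Finset.mem_insert_of_mem hi))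
    obtain ⟨l, hl⟩ := hf a (Finset.mem_insert_self _ _)
    exact ⟨l + k, by rw [Finset.prod_insert ha]; exact R.mul_mem hl hk⟩

theorem sum_mem {ι : Type*} (s : Finset ι) (f : ι → SLZ → HahnSeries ℤ F)
    (hf : ∀ i ∈ s, ∃ k, f i ∈ R.B k) : ∃ k, ∑ i ∈ s, f i ∈ R.B k := by
  classical
  induction s using Finset.induction_on with
  | empty => exact ⟨0, by simpa using R.zero_mem⟩
  | insert a s ha ih =>
    obtain ⟨k, hk⟩ := ih (fun i hi => hf i (Finset.mem_insert_of_mem hi))
    obtain ⟨l, hl⟩ := hf a (Finset.mem_insert_self _ _)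
    exact ⟨max l k, by
      rw [Finset.sum_insert ha]
      exact R.add_mem (R.mono_le (le_max_left _ _) hl) (R.mono_le (le_max_right _ _) hk)⟩

/-- The union of all `B k`, as a subring. -/
def ball : Subring (SLZ → HahnSeries ℤ F) where
  carrier := {x | ∃ k, x ∈ R.B k}
  mul_mem' := by
    rintro x y ⟨k, hk⟩ ⟨l, hl⟩
    exact ⟨_, R.mul_mem hk hl⟩
  one_mem' := ⟨0, R.one_mem⟩
  add_mem' := by
    rintro x y ⟨k, hk⟩ ⟨l, hl⟩
    exact ⟨max k l, R.add_mem (R.mono_le (le_max_left _ _) hk) (R.mono_le (le_max_right _ _) hl)⟩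
  zero_mem' := ⟨0, R.zero_mem⟩
  neg_mem' := by
    rintro x ⟨k, hk⟩
    refine ⟨k, ?_⟩
    have : -x = x := by
      ext1 γ
      exact CharTwo.neg_eq (x γ)
    rw [this]; exact hk

theorem mem_ball {x : SLZ → HahnSeries ℤ F} : x ∈ R.ball ↔ ∃ k, x ∈ R.B k := Iff.rfl

theorem ball_gamma {x : SLZ → HahnSeries ℤ F} (hx : x ∈ R.ball) {γ₁ γ₂ : SLZ}
    (h : (γ₁ : GQ M) = (γ₂ : GQ M)) : x γ₁ = x γ₂ := by
  obtain ⟨k, hk⟩ := hx
  exact R.eq_of_mk_eq hk h

theorem ball_translate {x : SLZ → HahnSeries ℤ F} (hx : x ∈ R.ball) (δ : SLZ) :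
    (fun γ => x (δ * γ)) ∈ R.ball := by
  obtain ⟨k, hk⟩ := hx
  exact ⟨k, R.translate δ hk⟩

theorem ball_const (c : F) : (fun _ => HahnSeries.C c) ∈ R.ball := ⟨0, R.const_mem c⟩

/-- The set of `δ` preserving the vanishing of reductions. -/
def dec : Subgroup SLZ where
  carrier := {δ | ∀ x ∈ R.ball, x 1 = 0 → x δ = 0}
  mul_mem' := by
    intro δ ε hδ hε x hx h1
    have h2 := hδ x hx h1
    exact hε _ (R.ball_translate hx δ) (by simpa using h2)
  one_mem' := fun x _ h => h
  inv_mem' := by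
    intro δ hδ x hx h1
    -- `δ⁻¹` is congruent to a positive power of `δ`
    have hfin : IsOfFinOrder (δ : GQ M) := isOfFinOrder_of_finite _
    obtain ⟨n, hn, hn1⟩ := hfin.exists_pow_eq_one
    have h2 : ((δ⁻¹ : SLZ) : GQ M) = ((δ ^ (n - 1) : SLZ) : GQ M) := by
      have h3 : (δ : GQ M) ^ (n - 1) * (δ : GQ M) = 1 := by
        rw [← pow_succ, Nat.sub_add_cancel hn, hn1]
      have h4 := eq_inv_of_mul_eq_one_left h3
      rw [QuotientGroup.mk_pow, h4]
      rfl
    rw [R.ball_gamma hx h2]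
    have hpow : ∀ m : ℕ, ∀ y ∈ R.ball, y 1 = 0 → y (δ ^ m) = 0 := by
      intro m
      induction m with
      | zero => intro y _ h; simpa using h
      | succ m ih =>
        intro y hy h
        have h5 := ih y hy h
        have h6 := hδ _ (R.ball_translate hy (δ ^ m)) (by simpa using h5)
        rw [pow_succ]
        exact h6
    exact hpow _ x hx h1

theorem mem_dec {δ : SLZ} : δ ∈ R.dec ↔ ∀ x ∈ R.ball, x 1 = 0 → x δ = 0 := Iff.rfl

theorem gamma_le_dec : CongruenceSubgroup.Gamma M ≤ R.dec := by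
  intro δ hδ x hx h
  have h1 : (δ : GQ M) = ((1 : SLZ) : GQ M) := by
    rw [QuotientGroup.eq]
    simpa using hδ
  rw [R.ball_gamma hx h1, h]

theorem T_mem_dec : ModularGroup.T ∈ R.dec := by
  rintro x ⟨k, hk⟩ h
  have := R.tau_T hk 1
  rw [one_mul, h, map_zero] at this
  exact this

/-- `x δ ≠ 0` if `x 1 ≠ 0` and `δ` is in the decomposition group. -/
theorem ne_zero_of_mem_dec {δ : SLZ} (hδ : δ ∈ R.dec) {x : SLZ → HahnSeries ℤ F}
    (hx : x ∈ R.ball) (h : x 1 ≠ 0) : x δ ≠ 0 := by
  intro h0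
  apply h
  have := R.dec.inv_mem hδ _ (R.ball_translate hx δ) (by simpa using h0)
  simpa using this

/-- A function vanishing exactly outside the decomposition group. -/
theorem exists_sep : ∃ c ∈ R.ball, c 1 ≠ 0 ∧ ∀ δ, δ ∉ R.dec → c δ = 0 := by
  classical
  have h : ∀ g : GQ M, ∃ y ∈ R.ball, y 1 ≠ 0 ∧
      (g.out ∉ R.dec → ∀ δ : SLZ, ((g.out * δ : SLZ) : GQ M) = 1 → y δ = 0) := by
    intro g
    by_cases hg : g.out ∈ R.dec
    · exact ⟨1, R.ball.one_mem, one_ne_zero, fun h => absurd hg h⟩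
    · have hg' := hg
      rw [mem_dec] at hg'
      push Not at hg'
      obtain ⟨x, hx, h1, h2⟩ := hg'
      refine ⟨fun γ => x (g.out * γ), R.ball_translate hx _, by simpa using h2, ?_⟩
      intro _ δ hδ
      show x (g.out * δ) = 0
      rw [← h1]
      apply R.ball_gamma hx
      rw [hδ]
      rfl
  choose y hy h1 h2 using h
  refine ⟨∏ g : GQ M, y g, R.ball.prod_mem (fun g _ => hy g), ?_, ?_⟩
  · rw [Finset.prod_apply, Finset.prod_ne_zero_iff]
    intro g _
    exact h1 g
  · intro δ hδ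
    rw [Finset.prod_apply]
    have hmk : (((δ⁻¹ : SLZ) : GQ M).out : GQ M) = ((δ⁻¹ : SLZ) : GQ M) :=
      QuotientGroup.out_eq' _
    apply Finset.prod_eq_zero (Finset.mem_univ ((δ⁻¹ : SLZ) : GQ M))
    apply h2
    · intro hmem
      apply hδ
      have h3 : (((δ⁻¹ : SLZ) : GQ M).out)⁻¹ * δ⁻¹ ∈ CongruenceSubgroup.Gamma M :=
        QuotientGroup.eq.mp hmk
      have h4 := R.dec.mul_mem hmem (R.gamma_le_dec h3)
      rw [mul_inv_cancel_left] at h4
      exact (R.dec.inv_mem_iff).mp h4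
    · rw [QuotientGroup.mk_mul, hmk, QuotientGroup.mk_inv, inv_mul_cancel]

end RedData

end Pool.Agent.Lib.MP_24de68_nt
end
end

section

section

namespace Pool.Agent.Lib.MP_24de68_nt

open HahnSeries

/-- The involution on pairs of integers. -/
def tau (p : ℤ × ℤ) : ℤ × ℤ :=
  if (p.1 + p.2) % 2 = 0 then (-((p.1 + 3 * p.2) / 2), (p.2 - p.1) / 2)
  else ((p.1 + 3 * p.2 - 1) / 2, (p.1 - p.2 + 1) / 2)

theorem tau_tau (p : ℤ × ℤ) : tau (tau p) = p := by
  obtain ⟨i, j⟩ := p
  unfold tau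
  dsimp only
  split_ifs with h1 h2 h2 <;> simp only [Prod.mk.injEq] <;> constructor <;> omega

theorem tau_norm (p : ℤ × ℤ) :
    (2 * (tau p).1 ^ 2 + (tau p).1) + 3 * (2 * (tau p).2 ^ 2 - (tau p).2) =
      (2 * p.1 ^ 2 + p.1) + 3 * (2 * p.2 ^ 2 - p.2) := by
  obtain ⟨i, j⟩ := p
  unfold tau
  dsimp only
  split_ifs with h
  · obtain ⟨a, ha⟩ : ∃ a, i + 3 * j = 2 * a := ⟨(i + 3 * j) / 2, by omega⟩
    obtain ⟨b, hb⟩ : ∃ b, j - i = 2 * b := ⟨(j - i) / 2, by omega⟩
    have h1 : (i + 3 * j) / 2 = a := by omega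
    have h2 : (j - i) / 2 = b := by omega
    simp only [h1, h2]
    have hi : i = j - 2 * b := by omega
    have ha' : a = 2 * j - b := by omega
    subst hi ha'
    ring
  · obtain ⟨a, ha⟩ : ∃ a, i + 3 * j - 1 = 2 * a := ⟨(i + 3 * j - 1) / 2, by omega⟩
    obtain ⟨b, hb⟩ : ∃ b, i - j + 1 = 2 * b := ⟨(i - j + 1) / 2, by omega⟩
    have h1 : (i + 3 * j - 1) / 2 = a := by omega
    have h2 : (i - j + 1) / 2 = b := by omega
    simp only [h1, h2]
    have hi : i = 2 * b + j - 1 := by omega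
    have ha' : a = b + 2 * j - 1 := by omega
    subst hi ha'
    ring

theorem tau_fixed (p : ℤ × ℤ) : tau p = p ↔ (p.1 = -p.2 ∨ p.1 = 3 * p.2 - 1) := by
  obtain ⟨i, j⟩ := p
  unfold tau
  dsimp only
  split_ifs with h
  · simp only [Prod.mk.injEq]
    constructor
    · rintro ⟨h1, h2⟩; left; omega
    · rintro (h1 | h1)
      · constructor <;> omega
      · exfalso; omega
  · simp only [Prod.mk.injEq]
    constructor
    · rintro ⟨h1, h2⟩; right; omega
    · rintro (h1 | h1)
      · exfalso; omega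
      · constructor <;> omega

theorem tau_mod (p : ℤ × ℤ) : (tau p).1 % 3 = 2 ↔ p.1 % 3 = 2 := by
  obtain ⟨i, j⟩ := p
  unfold tau
  dsimp only
  split_ifs with h <;> omega

section

variable (F : Type*) [Field F] [CharP F 2]

theorem theta_involution {ι : Type*} {f : ι → ℤ} (hf : FinLow f) (σ : ι → ι)
    (hσ : ∀ i, σ (σ i) = i) (hfσ : ∀ i, f (σ i) = f i) :
    theta F f = theta F (fun i : {i // σ i = i} => f i) := by
  classical
  have h1 : FinLow (fun i : {i // σ i = i} => f i) := hf.subtype _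
  rw [theta_split F hf (fun i => σ i = i)]
  have h2 : FinLow (fun i : {i // ¬ σ i = i} => f i) := hf.subtype _
  have : theta F (fun i : {i // ¬ σ i = i} => f i) = 0 := by
    ext n
    rw [theta_coeff F h2, coeff_zero]
    have hfin : {i : {i // ¬ σ i = i} | f i = n}.Finite := (h2 n).subset (fun i hi => le_of_eq hi)
    rw [Set.ncard_eq_toFinset_card _ hfin, Finset.cast_card]
    refine Finset.sum_involution (fun (i : {i // ¬ σ i = i}) _ =>
      (⟨σ i.1, by rw [hσ]; exact fun h => i.2 h.symm⟩ : {i // ¬ σ i = i})) ?_ ?_ ?_ ?_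
    · intro i _
      exact CharTwo.add_self_eq_zero 1
    · intro i _ _ h
      exact i.2 (congrArg Subtype.val h)
    · intro i hi
      simp only [Set.Finite.mem_toFinset, Set.mem_ofPred_eq] at hi ⊢
      rw [hfσ, hi]
    · intro i _
      exact Subtype.ext (hσ i.1)
  rw [this, add_zero]

theorem scale_theta {ι : Type*} {f : ι → ℤ} (hf : FinLow f) {s : ℕ} (hs : 0 < s) :
    scale s hs (theta F f) = theta F (fun i => s * f i) := by
  have hsz : (0 : ℤ) < s := by exact_mod_cast hs
  have hf' : FinLow (fun i => (s : ℤ) * f i) := by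
    intro b
    refine (hf |b|).subset ?_
    intro i hi
    simp only [Set.mem_ofPred_eq] at hi ⊢
    have h1 := le_abs_self b
    have h2 := abs_nonneg b
    rcases le_or_gt (f i) 0 with h | h
    · omega
    · nlinarith
  symm
  apply scale_ext
  · intro n
    rw [theta_coeff F hf', theta_coeff F hf]
    congr 2
    ext i
    simp only [Set.mem_ofPred_eq]
    exact mul_right_inj' hsz.ne'
  · intro n hn
    rw [theta_coeff F hf']
    have : {i | (s : ℤ) * f i = n} = ∅ := by
      ext i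
      simp only [Set.mem_ofPred_eq, Set.mem_empty_iff_false, iff_false]
      rintro rfl
      exact hn (dvd_mul_right _ _)
    rw [this]; simp

theorem FinLow.mul_pos {ι : Type*} {f : ι → ℤ} (hf : FinLow f) {s : ℤ} (hs : 0 < s) :
    FinLow (fun i => s * f i) := by
  intro b
  refine (hf |b|).subset ?_
  intro i hi
  simp only [Set.mem_ofPred_eq] at hi ⊢
  have h1 := le_abs_self b
  have h2 := abs_nonneg b
  rcases le_or_gt (f i) 0 with h | h
  · omega
  · nlinarith

/-- Triangular exponents. -/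
def triExp (k : ℤ) : ℤ := 2 * k ^ 2 + k

theorem triExp_finLow : FinLow triExp := by
  have := hExp_finLow (M := 1) one_pos 0
  convert this using 1
  ext k
  simp [triExp, hExp]

/-- Three times the exponents of the pentagonal series, on sign-normalised indices. -/
def pentIdx : Type := {i : ℤ // ¬ i % 3 = 2}

/-- The pentagonal exponents. -/
def pentExp (k : ℤ) : ℤ := k * (3 * k - 1) / 2

theorem two_mul_pentExp (k : ℤ) : 2 * pentExp k = k * (3 * k - 1) := by
  unfold pentExp
  apply Int.mul_ediv_cancel'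
  rcases Int.even_or_odd' k with ⟨l, rfl | rfl⟩
  · exact ⟨l * (3 * (2 * l) - 1), by ring⟩
  · exact ⟨(2 * l + 1) * (3 * l + 1), by ring⟩

theorem pentExp_finLow : FinLow pentExp := by
  intro b
  refine (Set.finite_Icc (-|b|) |b|).subset ?_
  intro k hk
  have h1 : pentExp k ≤ b := hk
  have h2 := two_mul_pentExp k
  have hb := le_abs_self b
  have h3 : k * (3 * k - 1) ≤ 2 * |b| := by omega
  constructor
  · by_contra hc
    push Not at hc
    nlinarith [abs_nonneg b]
  · by_contra hc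
    push Not at hc
    nlinarith [abs_nonneg b]

/-- The bijection between the two index sets. -/
noncomputable def pentEquiv : ℤ ≃ {i : ℤ // ¬ i % 3 = 2} := by
  refine Equiv.ofBijective (fun k => ⟨if k % 2 = 0 then -3 * (k / 2) else 3 * (k / 2) + 1, ?_⟩) ⟨?_, ?_⟩
  · split_ifs <;> omega
  · intro k l h
    have h1 := congrArg Subtype.val h
    dsimp only at h1
    split_ifs at h1 <;> omega
  · rintro ⟨i, hi⟩
    by_cases h : i % 3 = 0
    · refine ⟨-2 * (i / 3), Subtype.ext ?_⟩
      dsimp only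
      rw [if_pos (by omega)]
      omega
    · refine ⟨2 * (i / 3) + 1, Subtype.ext ?_⟩
      dsimp only
      rw [if_neg (by omega)]
      omega

theorem pentEquiv_val (k : ℤ) :
    ((pentEquiv k).1 : ℤ) = if k % 2 = 0 then -3 * (k / 2) else 3 * (k / 2) + 1 := rfl

theorem triExp_pentEquiv (k : ℤ) : triExp (pentEquiv k).1 = 3 * pentExp k := by
  have h2 := two_mul_pentExp k
  rw [pentEquiv_val]
  unfold triExp
  split_ifs with h
  · obtain ⟨l, hl⟩ : ∃ l, k = 2 * l := ⟨k / 2, by omega⟩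
    have : k / 2 = l := by omega
    rw [this]
    subst hl
    have : 2 * (2 * (-3 * l) ^ 2 + -3 * l) = 2 * (3 * pentExp (2 * l)) := by
      linear_combination (-3) * h2
    linarith
  · obtain ⟨l, hl⟩ : ∃ l, k = 2 * l + 1 := ⟨k / 2, by omega⟩
    have : k / 2 = l := by omega
    rw [this]
    subst hl
    have : 2 * (2 * (3 * l + 1) ^ 2 + (3 * l + 1)) = 2 * (3 * pentExp (2 * l + 1)) := by
      linear_combination (-3) * h2
    linarith

/-- The triangular series. -/
noncomputable def Psi : HahnSeries ℤ F := theta F triExp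

/-- The pentagonal series. -/
noncomputable def P1 : HahnSeries ℤ F := theta F pentExp

theorem Psi_neg : Psi F = theta F (fun k => 2 * k ^ 2 - k) := by
  refine theta_equiv F (Equiv.neg ℤ) ?_ ?_
  · intro k
    simp only [Equiv.neg_apply, triExp]
    ring
  · have := FinLow.comp_equiv (f := fun k : ℤ => 2 * k ^ 2 - k) (g := triExp) (Equiv.neg ℤ)
      (fun k => by simp only [Equiv.neg_apply, triExp]; ring) triExp_finLow
    exact this

theorem triNeg_finLow : FinLow (fun k : ℤ => 2 * k ^ 2 - k) :=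
  FinLow.comp_equiv (f := fun k : ℤ => 2 * k ^ 2 - k) (g := triExp) (Equiv.neg ℤ)
      (fun k => by simp only [Equiv.neg_apply, triExp]; ring) triExp_finLow

/-- The weight on pairs. -/
def pairExp (p : ℤ × ℤ) : ℤ := triExp p.1 + 3 * (2 * p.2 ^ 2 - p.2)

theorem pairExp_finLow : FinLow pairExp :=
  triExp_finLow.add (triNeg_finLow.mul_pos (by norm_num : (0 : ℤ) < 3))

theorem pairExp_tau (p : ℤ × ℤ) : pairExp (tau p) = pairExp p := tau_norm p

theorem Psi_mul_scale3 :
    Psi F * scale 3 (by norm_num) (Psi F) = scale 4 (by norm_num) (Psi F) +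
      single 1 1 * scale 12 (by norm_num) (Psi F) := by
  have h1 : Psi F * scale 3 (by norm_num) (Psi F) = theta F pairExp := by
    conv_lhs => rw [Psi_neg F]
    rw [← Psi_neg F]
    nth_rewrite 2 [Psi_neg F]
    rw [scale_theta F triNeg_finLow, Psi,
      theta_mul F triExp_finLow (triNeg_finLow.mul_pos (by norm_num))]
    rfl
  rw [h1, theta_involution F pairExp_finLow tau tau_tau pairExp_tau,
    theta_split F (pairExp_finLow.subtype _) (fun p => p.1.1 = -p.1.2)]
  congr 1
  · rw [Psi_neg F, scale_theta F triNeg_finLow]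
    symm
    refine theta_equiv F (Equiv.ofBijective (fun j : ℤ =>
      (⟨⟨(-j, j), (tau_fixed _).mpr (Or.inl rfl)⟩, rfl⟩ :
        {p : {p : ℤ × ℤ // tau p = p} // p.1.1 = -p.1.2})) ⟨?_, ?_⟩) ?_
        ((pairExp_finLow.subtype _).subtype _)
    · intro a b h
      have h1 := congrArg (fun p => p.1.1.2) h
      exact h1
    · rintro ⟨⟨⟨i, j⟩, h1⟩, h2⟩
      have h3 : i = -j := h2
      subst h3
      exact ⟨j, rfl⟩
    · intro j
      simp only [Equiv.ofBijective_apply, pairExp, triExp]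
      push_cast
      ring
  · rw [Psi_neg F, scale_theta F triNeg_finLow, single_mul_theta F
      (triNeg_finLow.mul_pos (by norm_num))]
    symm
    refine theta_equiv F (Equiv.ofBijective (fun j : ℤ =>
      (⟨⟨(3 * j - 1, j), (tau_fixed _).mpr (Or.inr rfl)⟩, (by
        show ¬ (3 * j - 1 = -j)
        omega)⟩ :
        {p : {p : ℤ × ℤ // tau p = p} // ¬ p.1.1 = -p.1.2})) ⟨?_, ?_⟩) ?_
        ((pairExp_finLow.subtype _).subtype _)
    · intro a b h
      have h1 := congrArg (fun p => p.1.1.2) h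
      exact h1
    · rintro ⟨⟨⟨i, j⟩, h1⟩, h2⟩
      have h3 : i = 3 * j - 1 := by
        rcases (tau_fixed _).mp h1 with h | h
        · exact absurd h h2
        · exact h
      subst h3
      exact ⟨j, rfl⟩
    · intro j
      simp only [Equiv.ofBijective_apply, pairExp, triExp]
      push_cast
      ring

theorem scale3_Psi_P1 :
    scale 3 (by norm_num) (P1 F * Psi F) = scale 3 (by norm_num) (scale 4 (by norm_num) (P1 F)) := by
  have hP : scale 3 (by norm_num) (P1 F) = theta F (fun i : {i : ℤ // ¬ i % 3 = 2} => triExp i) := by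
    rw [P1, scale_theta F pentExp_finLow]
    refine theta_equiv F pentEquiv ?_ (triExp_finLow.subtype _)
    intro k
    rw [triExp_pentEquiv]
    push_cast; ring
  have hfl : FinLow (fun p : {i : ℤ // ¬ i % 3 = 2} × ℤ => triExp p.1 + 3 * (2 * p.2 ^ 2 - p.2)) :=
    (triExp_finLow.subtype _).add (triNeg_finLow.mul_pos (by norm_num : (0 : ℤ) < 3))
  rw [map_mul, hP]
  nth_rewrite 1 [Psi_neg F]
  rw [scale_theta F triNeg_finLow, theta_mul F (triExp_finLow.subtype _)
      (triNeg_finLow.mul_pos (by norm_num))]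
  let σ : {i : ℤ // ¬ i % 3 = 2} × ℤ → {i : ℤ // ¬ i % 3 = 2} × ℤ := fun p =>
    (⟨(tau (p.1.1, p.2)).1, by rw [tau_mod]; exact p.1.2⟩, (tau (p.1.1, p.2)).2)
  have hσσ : ∀ p, σ (σ p) = p := by
    rintro ⟨⟨i, hi⟩, j⟩
    have h := tau_tau (i, j)
    have h1 : (tau (tau (i, j))).1 = i := congrArg Prod.fst h
    have h2 : (tau (tau (i, j))).2 = j := congrArg Prod.snd h
    apply Prod.ext
    · apply Subtype.ext
      exact h1
    · exact h2
  have hσf : ∀ p : {i : ℤ // ¬ i % 3 = 2} × ℤ,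
      triExp (σ p).1 + 3 * (2 * (σ p).2 ^ 2 - (σ p).2) = triExp p.1 + 3 * (2 * p.2 ^ 2 - p.2) := by
    rintro ⟨⟨i, hi⟩, j⟩
    exact pairExp_tau (i, j)
  have hinv := theta_involution F hfl σ hσσ hσf
  have h0 : (fun p : {i : ℤ // ¬ i % 3 = 2} × ℤ => triExp p.1 + ((3 : ℕ) : ℤ) * (2 * p.2 ^ 2 - p.2)) =
    (fun p : {i : ℤ // ¬ i % 3 = 2} × ℤ => triExp p.1 + 3 * (2 * p.2 ^ 2 - p.2)) := by
    ext p; push_cast; ring
  rw [h0, hinv, scale_scale, P1, scale_theta F pentExp_finLow]
  have hfix : ∀ p, σ p = p ↔ p.1.1 = -p.2 := by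
    rintro ⟨⟨i, hi⟩, j⟩
    constructor
    · intro h
      have h1 : tau (i, j) = (i, j) := by
        have ha : (σ (⟨i, hi⟩, j)).1.1 = i := congrArg (fun p : {i : ℤ // ¬ i % 3 = 2} × ℤ => p.1.1) h
        have hb : (σ (⟨i, hi⟩, j)).2 = j := congrArg (fun p : {i : ℤ // ¬ i % 3 = 2} × ℤ => p.2) h
        apply Prod.ext
        · exact ha
        · exact hb
      rcases (tau_fixed _).mp h1 with h2 | h2
      · exact h2
      · exfalso
        apply hi
        have : i = 3 * j - 1 := h2
        omega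
    · intro h
      have h1 := (tau_fixed (i, j)).mpr (Or.inl h)
      have ha : (tau (i, j)).1 = i := congrArg Prod.fst h1
      have hb : (tau (i, j)).2 = j := congrArg Prod.snd h1
      apply Prod.ext
      · apply Subtype.ext
        exact ha
      · exact hb
  symm
  refine theta_equiv F (Equiv.ofBijective (fun k : ℤ =>
    (⟨(pentEquiv k, -(pentEquiv k).1), (hfix _).mpr (by simp)⟩ :
      {p : {i : ℤ // ¬ i % 3 = 2} × ℤ // σ p = p})) ⟨?_, ?_⟩) ?_ (hfl.subtype _)
  · intro a b h
    have h1 := congrArg (fun p => p.1.1) h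
    exact pentEquiv.injective h1
  · rintro ⟨⟨i, j⟩, h⟩
    have h1 := (hfix _).mp h
    refine ⟨pentEquiv.symm i, Subtype.ext ?_⟩
    apply Prod.ext
    · show pentEquiv (pentEquiv.symm i) = i
      simp
    · show -(pentEquiv (pentEquiv.symm i)).1 = j
      rw [Equiv.apply_symm_apply]
      have : i.1 = -j := h1
      omega
  · intro k
    have h2 := triExp_pentEquiv k
    simp only [Equiv.ofBijective_apply]
    unfold triExp at h2 ⊢
    push_cast
    linear_combination 4 * h2

theorem P1_mul_Psi : P1 F * Psi F = scale 4 (by norm_num) (P1 F) :=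
  scale_injective (by norm_num) (scale3_Psi_P1 F)

theorem P1_pow_two_pow (j : ℕ) : P1 F ^ (2 ^ j) = scale (2 ^ j) (by positivity) (P1 F) := by
  rw [P1, theta_pow_two_pow F pentExp_finLow, scale_theta F pentExp_finLow]
  push_cast; rfl

theorem P1_low : LowTerm (P1 F) 0 1 := by
  constructor
  · rw [P1, theta_coeff F pentExp_finLow]
    have : {k | pentExp k = 0} = {0} := by
      ext k
      simp only [Set.mem_ofPred_eq, Set.mem_singleton_iff]
      constructor
      · intro h
        have h2 := two_mul_pentExp k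
        rw [h, mul_zero] at h2
        rcases mul_eq_zero.mp h2.symm with h | h <;> omega
      · rintro rfl; rfl
    rw [this]; simp
  · intro m hm
    rw [P1, theta_coeff F pentExp_finLow]
    have : {k | pentExp k = m} = ∅ := by
      ext k
      simp only [Set.mem_ofPred_eq, Set.mem_empty_iff_false, iff_false]
      intro h
      have h2 := two_mul_pentExp k
      rw [h] at h2
      have : 0 ≤ k * (3 * k - 1) := by
        rcases le_or_gt k 0 with h | h
        · nlinarith
        · nlinarith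
      omega
    rw [this]; simp

theorem P1_ne : P1 F ≠ 0 := (P1_low F).ne_zero one_ne_zero

theorem P1_cube : P1 F ^ 3 = Psi F := by
  apply mul_left_cancel₀ (P1_ne F)
  rw [P1_mul_Psi]
  have := P1_pow_two_pow F 2
  calc P1 F * P1 F ^ 3 = P1 F ^ (2 ^ 2) := by ring
    _ = _ := this

end

end Pool.Agent.Lib.MP_24de68_nt
end

section

namespace Pool.Agent.Lib.MP_24de68_nt

open HahnSeries

section

variable (F : Type*) [Field F] [CharP F 2]

theorem scale_single {s : ℕ} (hs : 0 < s) (n : ℤ) (a : F) :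
    scale s hs (single n a) = single (s * n) a := by
  symm
  apply scale_ext
  · intro m
    by_cases h : m = n
    · subst h; simp
    · rw [coeff_single_of_ne h, coeff_single_of_ne]
      intro h'
      exact h (mul_left_cancel₀ (by exact_mod_cast hs.ne') h')
  · intro m hm
    rw [coeff_single_of_ne]
    rintro rfl
    exact hm (dvd_mul_right _ _)

theorem scale_congr {s t : ℕ} (hs : 0 < s) (ht : 0 < t) (h : s = t) (x : HahnSeries ℤ F) :
    scale s hs x = scale t ht x := by subst h; rfl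

theorem Th_eq : Th F = single 1 1 * scale 24 (by norm_num) (P1 F) := by
  rw [P1, scale_theta F pentExp_finLow, single_mul_theta F (pentExp_finLow.mul_pos (by norm_num)), Th]
  congr 1
  ext k
  have := two_mul_pentExp k
  unfold tExp
  push_cast
  linear_combination -12 * this

/-- The series `f₂/f₃` modulo two. -/
noncomputable def cS : HahnSeries ℤ F := P1 F ^ 2 / scale 3 (by norm_num) (P1 F)

/-- The series `f₆/f₁` modulo two. -/
noncomputable def dS : HahnSeries ℤ F := scale 3 (by norm_num) (P1 F) ^ 2 / P1 F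

/-- The series `1/(f₁f₃)` modulo two. -/
noncomputable def uS : HahnSeries ℤ F := 1 / (P1 F * scale 3 (by norm_num) (P1 F))

theorem scale_P1_ne {s : ℕ} (hs : 0 < s) : scale s hs (P1 F) ≠ 0 := by
  intro h
  have := scale_injective hs (h.trans (map_zero _).symm)
  exact P1_ne F this

theorem uS_eq : uS F = scale 4 (by norm_num) (cS F) + single 1 1 * scale 4 (by norm_num) (dS F) := by
  have h1 := P1_ne F
  have h3 := scale_P1_ne F (s := 3) (by norm_num)
  have h4 := scale_P1_ne F (s := 4) (by norm_num)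
  have h12 := scale_P1_ne F (s := 12) (by norm_num)
  have e4 : P1 F ^ 4 = scale 4 (by norm_num) (P1 F) := P1_pow_two_pow F 2
  have e12 : (scale 3 (by norm_num) (P1 F)) ^ 4 = scale 12 (by norm_num) (P1 F) := by
    rw [← map_pow, e4, scale_scale]
  have hpsi := Psi_mul_scale3 F
  rw [← P1_cube, map_pow, map_pow, map_pow] at hpsi
  have hc : scale 4 (by norm_num) (cS F) = scale 4 (by norm_num) (P1 F) ^ 2 / scale 12 (by norm_num) (P1 F) := by
    rw [cS, map_div₀, map_pow, scale_scale]
  have hd : scale 4 (by norm_num) (dS F) = scale 12 (by norm_num) (P1 F) ^ 2 / scale 4 (by norm_num) (P1 F) := by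
    rw [dS, map_div₀, map_pow, scale_scale]
  rw [hc, hd, uS]
  have key : (1 : HahnSeries ℤ F) / (P1 F * scale 3 (by norm_num) (P1 F)) =
      (P1 F ^ 3 * scale 3 (by norm_num) (P1 F) ^ 3) / (P1 F ^ 4 * scale 3 (by norm_num) (P1 F) ^ 4) := by
    field_simp
  rw [key, hpsi, e4, e12]
  field_simp

theorem uS_coeff_zero (m : ℤ) : (uS F).coeff (4 * m) = (cS F).coeff m := by
  have h0 : (scale 4 (by norm_num) (dS F)).coeff (4 * m - 1) = 0 :=
    scale_coeff_of_not_dvd _ _ (by push_cast; omega)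
  have := scale_coeff (s := 4) (by norm_num) (cS F) m
  push_cast at this
  rw [uS_eq, coeff_add, coeff_single_mul, h0, this]; simp

theorem uS_coeff_one (m : ℤ) : (uS F).coeff (4 * m + 1) = (dS F).coeff m := by
  have h0 : (scale 4 (by norm_num) (cS F)).coeff (4 * m + 1) = 0 :=
    scale_coeff_of_not_dvd _ _ (by push_cast; omega)
  have := scale_coeff (s := 4) (by norm_num) (dS F) m
  push_cast at this
  have h : 4 * m + 1 - 1 = 4 * m := by ring
  rw [uS_eq, coeff_add, coeff_single_mul, h0, h, this]; simp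

/-- The series attached to `η(z)^16/η(3z)^8`. -/
noncomputable def XP : HahnSeries ℤ F := single (-1) 1 * scale 24 (by norm_num) (cS F)

/-- The series attached to `η(3z)^16/η(z)^8`. -/
noncomputable def XQ : HahnSeries ℤ F := single 5 1 * scale 24 (by norm_num) (dS F)

theorem XP_eq : Th F ^ 2 = XP F * scale 3 (by norm_num) (Th F) := by
  have h72 := scale_P1_ne F (s := 72) (by norm_num)
  rw [Th_eq, map_mul, scale_single, scale_scale, XP, cS, map_div₀, map_pow, scale_scale, mul_pow,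
    single_pow]
  have : single (2 • (1 : ℤ)) ((1 : F) ^ 2) = single (-1) 1 * single (((3 : ℕ) : ℤ) * 1) (1 : F) := by
    rw [single_mul_single]; norm_num
  rw [this]
  field_simp

theorem XQ_eq : scale 3 (by norm_num) (Th F) ^ 2 = XQ F * Th F := by
  have h24 := scale_P1_ne F (s := 24) (by norm_num)
  rw [Th_eq, map_mul, scale_single, scale_scale, XQ, dS, map_div₀, map_pow, scale_scale, mul_pow,
    single_pow]
  have : single (2 • (((3 : ℕ) : ℤ) * 1)) ((1 : F) ^ 2) = single 5 1 * single 1 (1 : F) := by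
    rw [single_mul_single]; norm_num
  rw [this]
  field_simp

theorem XP_coeff (m : ℤ) : (XP F).coeff (24 * m - 1) = (cS F).coeff m := by
  rw [XP, coeff_single_mul]
  have := scale_coeff (s := 24) (by norm_num) (cS F) m
  push_cast at this
  have h : 24 * m - 1 - -1 = 24 * m := by ring
  rw [h, this, one_mul]

theorem XQ_coeff (m : ℤ) : (XQ F).coeff (24 * m + 5) = (dS F).coeff m := by
  rw [XQ, coeff_single_mul]
  have := scale_coeff (s := 24) (by norm_num) (dS F) m
  push_cast at this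
  have h : 24 * m + 5 - 5 = 24 * m := by ring
  rw [h, this, one_mul]

theorem XP_supp (n : ℤ) (h : (XP F).coeff n ≠ 0) : (24 : ℤ) ∣ n + 1 := by
  by_contra hc
  apply h
  rw [XP, coeff_single_mul, scale_coeff_of_not_dvd (s := 24), mul_zero]
  push_cast
  intro h'; apply hc; simpa using h'

theorem XQ_supp (n : ℤ) (h : (XQ F).coeff n ≠ 0) : (24 : ℤ) ∣ n - 5 := by
  by_contra hc
  apply h
  rw [XQ, coeff_single_mul, scale_coeff_of_not_dvd (s := 24), mul_zero]
  push_cast
  exact hc

theorem Hs_zero_eq {M : ℕ} (hM : 0 < M) : Hs F M 0 = scale M hM (Psi F) := by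
  rw [Psi, scale_theta F triExp_finLow, Hs]
  congr 1

theorem Ds_eq_cube {t : ℕ} (ht : 0 < t) :
    Ds F ((3 * t : ℕ) : ℤ) = (scale t ht (Th F)) ^ 3 := by
  have h3t : 0 < 3 * t := by positivity
  have hpos : (0 : ℤ) < ((3 * t : ℕ) : ℤ) := by exact_mod_cast h3t
  rw [Ds_eq F hpos, Hs_zero_eq F h3t, ← P1_cube, Th_eq, map_mul, scale_single, scale_scale, mul_pow,
    single_pow]
  have h1 : single (((3 * t : ℕ) : ℤ)) (1 : F) = single (3 • ((t : ℤ) * 1)) ((1 : F) ^ 3) := by
    congr 1
    · push_cast; simp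
    · simp
  have h2 : scale (3 * t) h3t (P1 F ^ 3) ^ 8 = scale (t * 24) (by positivity) (P1 F) ^ 3 := by
    have h8 : P1 F ^ 8 = scale 8 (by norm_num) (P1 F) := P1_pow_two_pow F 3
    rw [← map_pow, ← pow_mul, mul_comm 3 8, pow_mul, h8, map_pow, scale_scale]
    congr 1
    exact scale_congr F _ _ (by ring) _
  rw [h1, h2]

end

end Pool.Agent.Lib.MP_24de68_nt
end
end
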