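import Mathlib
import Pool.Agent.Lib.MP_24de68_nt.Ident

namespace Pool.Agent.Lib.MP_24de68_nt

open HahnSeries PowerSeries Filter Topology

section ofps

variable {F : Type*} [Field F]

theorem ofPS_coeff_natCast (φ : PowerSeries F) (n : ℕ) :
    (HahnSeries.ofPowerSeries ℤ F φ).coeff (n : ℤ) = PowerSeries.coeff n φ :=
  ofPowerSeries_apply_coeff φ n

theorem ofPS_coeff_neg (φ : PowerSeries F) {n : ℤ} (hn : n < 0) :
    (HahnSeries.ofPowerSeries ℤ F φ).coeff n = 0 := by
  rw [ofPowerSeries_apply]
  apply embDomain_of_notMem_range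
  rintro ⟨m, hm⟩
  have : (m : ℤ) = n := hm
  omega

theorem ofPS_expand {s : ℕ} (hs : 0 < s) (φ : PowerSeries F) :
    HahnSeries.ofPowerSeries ℤ F (PowerSeries.expand s hs.ne' φ) =
      scale s hs (HahnSeries.ofPowerSeries ℤ F φ) := by
  apply scale_ext
  · intro n
    rcases lt_or_ge n 0 with h | h
    · rw [ofPS_coeff_neg _ h, ofPS_coeff_neg]
      have : (0 : ℤ) < s := by exact_mod_cast hs
      nlinarith
    · obtain ⟨k, rfl⟩ := Int.eq_ofNat_of_zero_le h
      have : (s : ℤ) * ((k : ℕ) : ℤ) = ((s * k : ℕ) : ℤ) := by push_cast; ring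
      rw [this, ofPS_coeff_natCast, ofPS_coeff_natCast, PowerSeries.coeff_expand_mul]
  · intro n hn
    rcases lt_or_ge n 0 with h | h
    · exact ofPS_coeff_neg _ h
    · obtain ⟨k, rfl⟩ := Int.eq_ofNat_of_zero_le h
      rw [ofPS_coeff_natCast, PowerSeries.coeff_expand_of_not_dvd]
      intro h'
      apply hn
      exact_mod_cast h'

theorem ofPS_rescale (u : Fˣ) (φ : PowerSeries F) :
    HahnSeries.ofPowerSeries ℤ F (PowerSeries.rescale (u : F) φ) =
      tw u (HahnSeries.ofPowerSeries ℤ F φ) := by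
  ext n
  rw [tw_coeff]
  rcases lt_or_ge n 0 with h | h
  · rw [ofPS_coeff_neg _ h, ofPS_coeff_neg _ h, mul_zero]
  · obtain ⟨k, rfl⟩ := Int.eq_ofNat_of_zero_le h
    rw [ofPS_coeff_natCast, ofPS_coeff_natCast, PowerSeries.coeff_rescale, zpow_natCast]

theorem ofPS_pentagonal [CharP F 2] :
    HahnSeries.ofPowerSeries ℤ F (pentagonalSeries F) = P1 F := by
  ext n
  rw [P1, theta_coeff F pentExp_finLow]
  by_cases h : ∃ k : ℤ, pentExp k = n
  · obtain ⟨k, rfl⟩ := h
    have h1 : pentExp k = ((pentagonal k : ℕ) : ℤ) := (natCast_pentagonal k).symm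
    have h2 : {i | pentExp i = pentExp k} = {k} := by
      ext i
      simp only [Set.mem_ofPred_eq, Set.mem_singleton_iff]
      constructor
      · intro h
        have h3 : pentExp i = ((pentagonal i : ℕ) : ℤ) := (natCast_pentagonal i).symm
        rw [h1, h3] at h
        exact pentagonal_injective (by exact_mod_cast h)
      · rintro rfl; rfl
    rw [h2, Set.ncard_singleton, h1, ofPS_coeff_natCast, coeff_pentagonalSeries_pentagonal]
    rcases Int.even_or_odd k with hk | hk
    · rw [Int.negOnePow_even _ hk]; simp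
    · rw [Int.negOnePow_odd _ hk]
      simp only [Units.val_neg, Units.val_one, Int.cast_neg, Int.cast_one, Nat.cast_one]
      exact CharTwo.neg_eq 1
  · have h2 : {i | pentExp i = n} = ∅ := by
      ext i
      simp only [Set.mem_ofPred_eq, Set.mem_empty_iff_false, iff_false]
      exact fun h' => h ⟨i, h'⟩
    rw [h2]
    simp only [Set.ncard_empty, Nat.cast_zero]
    rcases lt_or_ge n 0 with hn | hn
    · exact ofPS_coeff_neg _ hn
    · obtain ⟨m, rfl⟩ := Int.eq_ofNat_of_zero_le hn
      rw [ofPS_coeff_natCast]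
      apply coeff_pentagonalSeries_eq_zero
      rintro ⟨k, hk⟩
      apply h
      refine ⟨k, ?_⟩
      rw [← hk]
      exact (natCast_pentagonal k).symm

end ofps

/-- The number of partitions with no part congruent to `3` modulo `6`. -/
def aCount (n : ℕ) : ℕ := (Nat.Partition.restricted n (fun i => i % 6 ≠ 3)).card

section gf

variable (F : Type*) [Field F]

open WithPiTopology in
theorem hasProd_expand [TopologicalSpace F] {k : ℕ} (hk : k ≠ 0) {f : ℕ → PowerSeries F}
    {a : PowerSeries F} (h : HasProd f a) :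
    HasProd (fun i => PowerSeries.expand k hk (f i)) (PowerSeries.expand k hk a) := by
  rw [HasProd, tendsto_iff_coeff_tendsto] at h ⊢
  intro d
  have h1 : ∀ s : Finset ℕ, ∏ i ∈ s, PowerSeries.expand k hk (f i) =
      PowerSeries.expand k hk (∏ i ∈ s, f i) := fun s => (map_prod _ _ _).symm
  simp only [h1, PowerSeries.coeff_expand]
  split_ifs
  · exact h _
  · exact tendsto_const_nhds

open WithPiTopology in
theorem gf_identity :
    (PowerSeries.mk fun n => (aCount n : F)) * pentagonalSeries F *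
      PowerSeries.expand 6 (by norm_num) (pentagonalSeries F) =
      PowerSeries.expand 3 (by norm_num) (pentagonalSeries F) := by
  let _ : TopologicalSpace F := ⊥
  have _ : DiscreteTopology F := ⟨rfl⟩
  have hU := Nat.Partition.hasProd_powerSeriesMk_card_restricted F (fun i => i % 6 ≠ 3)
  have hE := hasProd_one_sub_X_pow F
  have hUE := hU.mul hE
  have h6 := hasProd_expand F (k := 6) (by norm_num) hE
  have h3 := hasProd_expand F (k := 3) (by norm_num) hE
  have h6' : HasProd (fun n => if 6 ∣ n + 1 then (1 - X ^ (n + 1) : PowerSeries F) else 1)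
      (PowerSeries.expand 6 (by norm_num) (pentagonalSeries F)) := by
    have hinj : Function.Injective (fun i : ℕ => 6 * (i + 1) - 1) := by
      intro a b h
      dsimp only at h
      omega
    rw [← hinj.hasProd_iff]
    · convert h6 using 1
      ext1 i
      have e : 6 * (i + 1) - 1 + 1 = 6 * (i + 1) := by omega
      simp only [Function.comp_apply, e, dvd_mul_right, if_true, map_sub, map_one, map_pow,
        PowerSeries.expand_X, ← pow_mul]
    · intro x hx
      rw [if_neg]
      rintro ⟨k, hk⟩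
      apply hx
      refine ⟨k - 1, ?_⟩
      dsimp only
      omega
  have h3' : HasProd (fun n => if 3 ∣ n + 1 then (1 - X ^ (n + 1) : PowerSeries F) else 1)
      (PowerSeries.expand 3 (by norm_num) (pentagonalSeries F)) := by
    have hinj : Function.Injective (fun i : ℕ => 3 * (i + 1) - 1) := by
      intro a b h
      dsimp only at h
      omega
    rw [← hinj.hasProd_iff]
    · convert h3 using 1
      ext1 i
      have e : 3 * (i + 1) - 1 + 1 = 3 * (i + 1) := by omega
      simp only [Function.comp_apply, e, dvd_mul_right, if_true, map_sub, map_one, map_pow,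
        PowerSeries.expand_X, ← pow_mul]
    · intro x hx
      rw [if_neg]
      rintro ⟨k, hk⟩
      apply hx
      refine ⟨k - 1, ?_⟩
      dsimp only
      omega
  have hall := hUE.mul h6'
  have heq : (fun b : ℕ => (if (b + 1) % 6 ≠ 3 then ∑' j : ℕ, (X : PowerSeries F) ^ ((b + 1) * j) else 1) *
      (1 - X ^ (b + 1)) * if 6 ∣ b + 1 then (1 - X ^ (b + 1) : PowerSeries F) else 1) =
      (fun n => if 3 ∣ n + 1 then (1 - X ^ (n + 1) : PowerSeries F) else 1) := by
    ext1 n
    have hgeom : (∑' j : ℕ, (X : PowerSeries F) ^ ((n + 1) * j)) * (1 - X ^ (n + 1)) = 1 := by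
      simp_rw [pow_mul]
      exact tsum_pow_mul_one_sub_of_constantCoeff_eq_zero (by simp)
    by_cases h3n : 3 ∣ n + 1
    · by_cases h6n : 6 ∣ n + 1
      · have e : (n + 1) % 6 ≠ 3 := by omega
        rw [if_pos h3n, if_pos h6n, if_pos e, hgeom, one_mul]
      · have e : ¬ (n + 1) % 6 ≠ 3 := by omega
        rw [if_pos h3n, if_neg h6n, if_neg e, one_mul, mul_one]
    · have h6n : ¬ 6 ∣ n + 1 := by omega
      have e : (n + 1) % 6 ≠ 3 := by omega
      rw [if_neg h3n, if_neg h6n, if_pos e, hgeom, mul_one]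
  rw [heq] at hall
  exact hall.unique h3'

variable [CharP F 2]

theorem ofPS_gf : HahnSeries.ofPowerSeries ℤ F (PowerSeries.mk fun n => (aCount n : F)) = uS F := by
  have h := congrArg (HahnSeries.ofPowerSeries ℤ F) (gf_identity F)
  rw [map_mul, map_mul, ofPS_expand (by norm_num : 0 < 6), ofPS_expand (by norm_num : 0 < 3),
    ofPS_pentagonal] at h
  have h2 : P1 F ^ 2 = scale 2 (by norm_num) (P1 F) := P1_pow_two_pow F 1
  have h6 : scale 6 (by norm_num) (P1 F) = scale 3 (by norm_num) (P1 F) ^ 2 := by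
    rw [← map_pow, h2, scale_scale]
  rw [h6] at h
  have hne1 := P1_ne F
  have hne3 := scale_P1_ne F (s := 3) (by norm_num)
  rw [uS, eq_div_iff (mul_ne_zero hne1 hne3)]
  apply mul_right_cancel₀ hne3
  rw [one_mul]
  conv_rhs => rw [← h]
  ring

theorem aCount_four_mul (m : ℕ) : (aCount (4 * m) : F) = (cS F).coeff m := by
  rw [← uS_coeff_zero, ← ofPS_gf]
  have : (4 : ℤ) * (m : ℤ) = ((4 * m : ℕ) : ℤ) := by push_cast; ring
  rw [this, ofPS_coeff_natCast, coeff_mk]

theorem aCount_four_mul_add_one (m : ℕ) : (aCount (4 * m + 1) : F) = (dS F).coeff m := by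
  rw [← uS_coeff_one, ← ofPS_gf]
  have : (4 : ℤ) * (m : ℤ) + 1 = ((4 * m + 1 : ℕ) : ℤ) := by push_cast; ring
  rw [this, ofPS_coeff_natCast, coeff_mk]

/-- Coefficients of `cS` at negative exponents vanish. -/
theorem cS_neg {n : ℤ} (hn : n < 0) : (cS F).coeff n = 0 := by
  rw [← uS_coeff_zero, ← ofPS_gf]
  exact ofPS_coeff_neg _ (by omega)

theorem dS_neg {n : ℤ} (hn : n < 0) : (dS F).coeff n = 0 := by
  rw [← uS_coeff_one, ← ofPS_gf]
  exact ofPS_coeff_neg _ (by omega)

end gf

end Pool.Agent.Lib.MP_24de68_nt
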