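import Mathlib
import Pool.Agent.Lib.MP_24de68_nt.PartGF
import Pool.Agent.Lib.MP_24de68_nt.Ident

section

namespace Pool.Agent.Lib.MP_24de68_nt

open UpperHalfPlane

variable {A : Type*} [CommRing A] (ι : A →+* ℂ)

/-- Evaluation of a power series with coefficients mapped to complex numbers. -/
def HasEv (φ : PowerSeries A) (w v : ℂ) : Prop :=
  HasSum (fun n => ι (PowerSeries.coeff n φ) * w ^ n) v

variable {ι}

theorem HasEv.congr {φ : PowerSeries A} {w v : ℂ} {f : ℕ → ℂ}
    (hf : ∀ n, ι (PowerSeries.coeff n φ) * w ^ n = f n) (h : HasSum f v) : HasEv ι φ w v := by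
  have : (fun n => ι (PowerSeries.coeff n φ) * w ^ n) = f := funext hf
  unfold HasEv
  rw [this]; exact h

theorem HasEv.add {φ ψ : PowerSeries A} {w v v' : ℂ} (h : HasEv ι φ w v) (h' : HasEv ι ψ w v') :
    HasEv ι (φ + ψ) w (v + v') := by
  refine HasEv.congr (fun n => ?_) (HasSum.add h h')
  rw [map_add, map_add, add_mul]

theorem HasEv.neg {φ : PowerSeries A} {w v : ℂ} (h : HasEv ι φ w v) : HasEv ι (-φ) w (-v) := by
  refine HasEv.congr (fun n => ?_) (HasSum.neg h)
  rw [map_neg, map_neg, neg_mul]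

theorem HasEv.sub {φ ψ : PowerSeries A} {w v v' : ℂ} (h : HasEv ι φ w v) (h' : HasEv ι ψ w v') :
    HasEv ι (φ - ψ) w (v - v') := by
  rw [sub_eq_add_neg, sub_eq_add_neg]; exact h.add h'.neg

theorem HasEv.C (a : A) (w : ℂ) : HasEv ι (PowerSeries.C a) w (ι a) := by
  unfold HasEv
  have h := hasSum_single (f := fun n => ι (PowerSeries.coeff n (PowerSeries.C a)) * w ^ n) 0
    (fun n hn => by simp [PowerSeries.coeff_C, hn])
  simpa using h

theorem HasEv.X (w : ℂ) : HasEv ι PowerSeries.X w w := by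
  unfold HasEv
  have h := hasSum_single (f := fun n => ι (PowerSeries.coeff n (PowerSeries.X : PowerSeries A)) * w ^ n) 1
    (fun n hn => by simp [PowerSeries.coeff_X, hn])
  simpa using h

theorem HasEv.one (w : ℂ) : HasEv ι 1 w 1 := by
  have := HasEv.C (ι := ι) 1 w
  simpa using this

theorem HasEv.zero (w : ℂ) : HasEv ι 0 w 0 := by
  have := HasEv.C (ι := ι) 0 w
  simpa using this

theorem HasEv.mul {φ ψ : PowerSeries A} {w v v' : ℂ} (h : HasEv ι φ w v) (h' : HasEv ι ψ w v') :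
    HasEv ι (φ * ψ) w (v * v') := by
  have hs := (show Summable (fun n => ι (PowerSeries.coeff n φ) * w ^ n) from h.summable).norm
  have hs' := (show Summable (fun n => ι (PowerSeries.coeff n ψ) * w ^ n) from h'.summable).norm
  have h1 := tsum_mul_tsum_eq_tsum_sum_antidiagonal_of_summable_norm hs hs'
  have h2 := (summable_norm_sum_mul_antidiagonal_of_summable_norm hs hs').of_norm.hasSum
  rw [← h1] at h2
  have e1 : ∑' n, ι (PowerSeries.coeff n φ) * w ^ n = v := HasSum.tsum_eq h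
  have e2 : ∑' n, ι (PowerSeries.coeff n ψ) * w ^ n = v' := HasSum.tsum_eq h'
  rw [e1, e2] at h2
  refine HasEv.congr (fun n => ?_) h2
  rw [PowerSeries.coeff_mul, map_sum, Finset.sum_mul]
  apply Finset.sum_congr rfl
  intro ij hij
  have hij' := Finset.HasAntidiagonal.mem_antidiagonal.mp hij
  rw [← hij', pow_add, map_mul]
  ring

theorem HasEv.pow {φ : PowerSeries A} {w v : ℂ} (h : HasEv ι φ w v) (k : ℕ) :
    HasEv ι (φ ^ k) w (v ^ k) := by
  induction k with
  | zero => simpa using HasEv.one w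
  | succ k ih => rw [pow_succ, pow_succ]; exact ih.mul h

theorem HasEv.sum {κ : Type*} (s : Finset κ) {φ : κ → PowerSeries A} {w : ℂ} {v : κ → ℂ}
    (h : ∀ i ∈ s, HasEv ι (φ i) w (v i)) : HasEv ι (∑ i ∈ s, φ i) w (∑ i ∈ s, v i) := by
  classical
  induction s using Finset.induction_on with
  | empty => simpa using HasEv.zero w
  | insert a s ha ih =>
    rw [Finset.sum_insert ha, Finset.sum_insert ha]
    exact (h a (Finset.mem_insert_self _ _)).add (ih (fun i hi => h i (Finset.mem_insert_of_mem hi)))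

theorem HasEv.prod {κ : Type*} (s : Finset κ) {φ : κ → PowerSeries A} {w : ℂ} {v : κ → ℂ}
    (h : ∀ i ∈ s, HasEv ι (φ i) w (v i)) : HasEv ι (∏ i ∈ s, φ i) w (∏ i ∈ s, v i) := by
  classical
  induction s using Finset.induction_on with
  | empty => simpa using HasEv.one w
  | insert a s ha ih =>
    rw [Finset.prod_insert ha, Finset.prod_insert ha]
    exact (h a (Finset.mem_insert_self _ _)).mul (ih (fun i hi => h i (Finset.mem_insert_of_mem hi)))

theorem HasEv.rescale {φ : PowerSeries A} (ζ : A) {w v : ℂ} (h : HasEv ι φ (ι ζ * w) v) :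
    HasEv ι (PowerSeries.rescale ζ φ) w v := by
  refine HasEv.congr (fun n => ?_) h
  rw [PowerSeries.coeff_rescale, map_mul, map_pow, mul_pow]; ring

theorem HasEv.expand {φ : PowerSeries A} {s : ℕ} (hs : s ≠ 0) {w v : ℂ}
    (h : HasEv ι φ (w ^ s) v) : HasEv ι (PowerSeries.expand s hs φ) w v := by
  have hinj : Function.Injective (fun n : ℕ => s * n) := fun a b hab =>
    Nat.eq_of_mul_eq_mul_left (Nat.pos_of_ne_zero hs) hab
  unfold HasEv
  rw [← hinj.hasSum_iff]
  · have he : ((fun n => ι (PowerSeries.coeff n (PowerSeries.expand s hs φ)) * w ^ n) ∘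
        fun n : ℕ => s * n) = fun n => ι (PowerSeries.coeff n φ) * (w ^ s) ^ n := by
      funext n
      simp only [Function.comp_apply]
      rw [PowerSeries.coeff_expand_mul, pow_mul]
    rw [he]; exact h
  · intro x hx
    rw [PowerSeries.coeff_expand_of_not_dvd]
    · simp
    · rintro ⟨k, rfl⟩
      exact hx ⟨k, rfl⟩

/-- The local parameter at infinity of width `M`. -/
noncomputable def qp (M : ℕ) (z : ℍ) : ℂ := Function.Periodic.qParam (M : ℝ) (z : ℂ)

theorem qp_eq (M : ℕ) (z : ℍ) : qp M z = Complex.exp (2 * Real.pi * Complex.I * z / M) := by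
  unfold qp Function.Periodic.qParam
  push_cast; rfl

theorem qp_pow {M : ℕ} (s : ℕ) (hs : 0 < s) (z : ℍ) : qp (s * M) z ^ s = qp M z := by
  rw [qp_eq, qp_eq, ← Complex.exp_nat_mul]
  congr 1
  push_cast
  by_cases hM : (M : ℂ) = 0
  · rw [hM]; simp
  · have : (s : ℂ) ≠ 0 := by exact_mod_cast hs.ne'
    field_simp

variable (ι)

/-- Functions on the upper half plane with an expansion at infinity. -/
def HasExp (M : ℕ) (f : ℍ → ℂ) (φ : PowerSeries A) : Prop := ∀ z, HasEv ι φ (qp M z) (f z)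

variable {ι}

theorem cuspFunction_zero' (h : ℝ) : UpperHalfPlane.cuspFunction h (0 : ℍ → ℂ) = 0 := by
  have h1 : (0 : ℍ → ℂ) ∘ UpperHalfPlane.ofComplex = 0 := rfl
  unfold UpperHalfPlane.cuspFunction
  rw [h1]
  ext q
  by_cases hq : q = 0
  · subst hq
    unfold Function.Periodic.cuspFunction
    simp only [Function.update_self]
    apply Filter.Tendsto.limUnder_eq
    exact tendsto_const_nhds
  · rw [Function.Periodic.cuspFunction_eq_of_nonzero _ _ hq]
    rfl

theorem coeff_zero_of_hasSum {M : ℕ} (hM : 0 < M) {c : ℕ → ℂ}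
    (h : ∀ z : ℍ, HasSum (fun n => c n * qp M z ^ n) 0) (n : ℕ) : c n = 0 := by
  have hM' : (0 : ℝ) < M := by exact_mod_cast hM
  have han : AnalyticAt ℂ (UpperHalfPlane.cuspFunction (M : ℝ) (0 : ℍ → ℂ)) 0 := by
    rw [cuspFunction_zero']; exact analyticAt_const
  have h2 := UpperHalfPlane.hasFPowerSeriesOnBall_cuspFunction (f := (0 : ℍ → ℂ)) (c := c) hM' han
    (fun τ => h τ)
  rw [cuspFunction_zero'] at h2
  have h3 := h2.hasFPowerSeriesAt.eq_zero
  have h4 := congr_arg (FormalMultilinearSeries.coeff · n) h3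
  have h5 : FormalMultilinearSeries.coeff (0 : FormalMultilinearSeries ℂ ℂ ℂ) n = 0 := rfl
  simpa [h5] using h4

theorem HasExp.eq_zero (hι : Function.Injective ι) {M : ℕ} (hM : 0 < M) {φ : PowerSeries A}
    (h : HasExp ι M 0 φ) : φ = 0 := by
  ext n
  have h5 : ι (PowerSeries.coeff n φ) = 0 := coeff_zero_of_hasSum hM (fun z => h z) n
  rw [map_zero]
  exact (map_eq_zero_iff ι hι).mp h5

theorem HasExp.unique (hι : Function.Injective ι) {M : ℕ} (hM : 0 < M) {f : ℍ → ℂ}
    {φ ψ : PowerSeries A} (h : HasExp ι M f φ) (h' : HasExp ι M f ψ) : φ = ψ := by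
  have : HasExp ι M 0 (φ - ψ) := by
    intro z
    have := (h z).sub (h' z)
    simpa using this
  exact sub_eq_zero.mp (this.eq_zero hι hM)

theorem HasExp.add {M : ℕ} {f g : ℍ → ℂ} {φ ψ : PowerSeries A} (h : HasExp ι M f φ)
    (h' : HasExp ι M g ψ) : HasExp ι M (f + g) (φ + ψ) := fun z => (h z).add (h' z)

theorem HasExp.mul {M : ℕ} {f g : ℍ → ℂ} {φ ψ : PowerSeries A} (h : HasExp ι M f φ)
    (h' : HasExp ι M g ψ) : HasExp ι M (f * g) (φ * ψ) := fun z => (h z).mul (h' z)

theorem HasExp.pow {M : ℕ} {f : ℍ → ℂ} {φ : PowerSeries A} (h : HasExp ι M f φ)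
    (k : ℕ) : HasExp ι M (f ^ k) (φ ^ k) := fun z => (h z).pow k

/-- Expansions in `q` give expansions in `q^{1/M}`. -/
theorem HasExp.expand {M : ℕ} (s : ℕ) (hs : s ≠ 0) {f : ℍ → ℂ} {φ : PowerSeries A}
    (h : HasExp ι M f φ) : HasExp ι (s * M) f (PowerSeries.expand s hs φ) := by
  intro z
  apply HasEv.expand
  rw [qp_pow s (Nat.pos_of_ne_zero hs)]
  exact h z

theorem HasExp.isBounded {M : ℕ} (hM : 0 < M) {f : ℍ → ℂ} {φ : PowerSeries A}
    (h : HasExp ι M f φ) : UpperHalfPlane.IsBoundedAtImInfty f := by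
  have hM' : (0 : ℝ) < M := by exact_mod_cast hM
  exact UpperHalfPlane.isBoundedAtImInfty_of_hasSum_qExpansion (c := fun n => ι (PowerSeries.coeff n φ))
    hM' (fun τ => h τ)

end Pool.Agent.Lib.MP_24de68_nt
end

section

namespace Pool.Agent.Lib.MP_24de68_nt

open PowerSeries Filter Topology

section pent

variable {q : ℂ}

theorem prod_bound (hq : ‖q‖ < 1) (k n : ℕ) :
    ‖∏ i ∈ Finset.range n, (1 - q ^ (k + i + 1))‖ ≤ Real.exp (∑' i : ℕ, ‖q‖ ^ i) := by
  have hs : Summable (fun i : ℕ => ‖q‖ ^ i) := summable_geometric_of_lt_one (norm_nonneg _) hq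
  calc ‖∏ i ∈ Finset.range n, (1 - q ^ (k + i + 1))‖
      = ∏ i ∈ Finset.range n, ‖(1 - q ^ (k + i + 1))‖ := norm_prod _ _
    _ ≤ ∏ i ∈ Finset.range n, Real.exp (‖q‖ ^ i) := by
        apply Finset.prod_le_prod
        · intro i _; exact norm_nonneg _
        · intro i _
          have h1 : ‖1 - q ^ (k + i + 1)‖ ≤ 1 + ‖q‖ ^ i := by
            calc ‖1 - q ^ (k + i + 1)‖ ≤ ‖(1 : ℂ)‖ + ‖q ^ (k + i + 1)‖ := norm_sub_le _ _
              _ = 1 + ‖q‖ ^ (k + i + 1) := by rw [norm_one, norm_pow]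
              _ ≤ 1 + ‖q‖ ^ i := by
                  have := pow_le_pow_of_le_one (norm_nonneg q) hq.le (show i ≤ k + i + 1 by omega)
                  linarith
          have h2 : 1 + ‖q‖ ^ i ≤ Real.exp (‖q‖ ^ i) := by
            rw [add_comm]; exact Real.add_one_le_exp _
          exact h1.trans h2
    _ = Real.exp (∑ i ∈ Finset.range n, ‖q‖ ^ i) := (Real.exp_sum _ _).symm
    _ ≤ Real.exp (∑' i : ℕ, ‖q‖ ^ i) := by
        apply Real.exp_le_exp.mpr
        exact hs.sum_le_tsum _ (fun i _ => pow_nonneg (norm_nonneg _) _)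

theorem aux_bound (hq : ‖q‖ < 1) (k n : ℕ) :
    ‖q ^ ((k + 1) * n) * ∏ i ∈ Finset.range (n + 1), (1 - q ^ (k + i + 1))‖ ≤
      ‖q‖ ^ n * Real.exp (∑' i : ℕ, ‖q‖ ^ i) := by
  rw [norm_mul, norm_pow]
  apply mul_le_mul _ (prod_bound hq k (n + 1)) (norm_nonneg _) (pow_nonneg (norm_nonneg _) _)
  apply pow_le_pow_of_le_one (norm_nonneg q) hq.le
  nlinarith

theorem aux_summable (hq : ‖q‖ < 1) (k : ℕ) : Summable
    (fun n ↦ q ^ ((k + 1) * n) * ∏ i ∈ Finset.range (n + 1), (1 - q ^ (k + i + 1))) := by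
  apply Summable.of_norm_bounded (g := fun n => ‖q‖ ^ n * Real.exp (∑' i : ℕ, ‖q‖ ^ i))
  · exact (summable_geometric_of_lt_one (norm_nonneg _) hq).mul_right _
  · intro n; exact aux_bound hq k n

theorem le_pent_neg (k : ℕ) : k ≤ pentagonal (-(k : ℤ)) := by
  have h := natCast_pentagonal (-(k : ℤ))
  have h2 : (k : ℤ) ≤ ((pentagonal (-(k : ℤ)) : ℕ) : ℤ) := by
    rw [h]
    rw [Int.le_ediv_iff_mul_le (by norm_num)]
    nlinarith [sq_nonneg (k : ℤ)]
  exact_mod_cast h2

theorem le_pent_succ (k : ℕ) : k ≤ pentagonal ((k : ℤ) + 1) :=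
  (le_pent_neg k).trans (pentagonal_neg_lt_pentagonal_add_one (by positivity)).le

theorem rhs_bound (hq : ‖q‖ < 1) (k : ℕ) :
    ‖(-1) ^ k * (q ^ pentagonal (-(k : ℤ)) - q ^ pentagonal ((k : ℤ) + 1))‖ ≤ 2 * ‖q‖ ^ k := by
  rw [norm_mul, norm_pow, norm_neg, norm_one, one_pow, one_mul]
  refine (norm_sub_le _ _).trans ?_
  rw [norm_pow, norm_pow]
  have h1 := pow_le_pow_of_le_one (norm_nonneg q) hq.le (le_pent_neg k)
  have h2 := pow_le_pow_of_le_one (norm_nonneg q) hq.le (le_pent_succ k)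
  linarith

theorem rhs_summable (hq : ‖q‖ < 1) : Summable fun k : ℕ ↦
    (-1) ^ k * (q ^ pentagonal (-(k : ℤ)) - q ^ pentagonal ((k : ℤ) + 1)) := by
  apply Summable.of_norm_bounded (g := fun n => 2 * ‖q‖ ^ n)
  · exact (summable_geometric_of_lt_one (norm_nonneg _) hq).mul_left _
  · intro n; exact rhs_bound hq n

theorem tail_tendsto (hq : ‖q‖ < 1) : Tendsto (fun k ↦ (-1) ^ (k + 1) *
    q ^ ((k + 1) * (3 * k + 4) / 2) *
      ∑' (n : ℕ), q ^ ((k + 1) * n) * ∏ i ∈ Finset.range (n + 1), (1 - q ^ (k + i + 1)))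
      atTop (𝓝 0) := by
  have hs : Summable (fun i : ℕ => ‖q‖ ^ i) := summable_geometric_of_lt_one (norm_nonneg _) hq
  set C : ℝ := ∑' n : ℕ, ‖q‖ ^ n * Real.exp (∑' i : ℕ, ‖q‖ ^ i) with hC
  have hb : ∀ k : ℕ, ‖(-1) ^ (k + 1) * q ^ ((k + 1) * (3 * k + 4) / 2) *
      ∑' (n : ℕ), q ^ ((k + 1) * n) * ∏ i ∈ Finset.range (n + 1), (1 - q ^ (k + i + 1))‖ ≤
      ‖q‖ ^ k * C := by
    intro k
    rw [norm_mul, norm_mul, norm_pow, norm_neg, norm_one, one_pow, one_mul, norm_pow]
    apply mul_le_mul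
    · apply pow_le_pow_of_le_one (norm_nonneg q) hq.le
      rw [Nat.le_div_iff_mul_le (by norm_num)]
      nlinarith
    · rw [hC]
      apply tsum_of_norm_bounded ((hs.mul_right _).hasSum)
      intro n; exact aux_bound hq k n
    · exact norm_nonneg _
    · exact pow_nonneg (norm_nonneg _) _
  apply squeeze_zero_norm hb
  have := (tendsto_pow_atTop_nhds_zero_of_lt_one (norm_nonneg q) hq).mul_const C
  simpa using this

theorem mult_one_sub (hq : ‖q‖ < 1) (k : ℕ) : Multipliable (fun n ↦ 1 - q ^ (n + k + 1)) := by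
  have : (fun n => 1 - q ^ (n + k + 1)) = fun n => 1 + (-(q ^ (n + k + 1))) := by
    ext n; ring
  rw [this]
  apply multipliable_one_add_of_summable
  simp only [norm_neg, norm_pow]
  have h1 := (summable_nat_add_iff (k + 1)).mpr (summable_geometric_of_lt_one (norm_nonneg _) hq)
  exact h1

theorem tprod_pent (hq : ‖q‖ < 1) : ∏' n : ℕ, (1 - q ^ (n + 1)) =
    ∑' (k : ℕ), (-1) ^ k * (q ^ pentagonal (-(k : ℤ)) - q ^ pentagonal ((k : ℤ) + 1)) :=
  Pentagonal.tprod_one_sub_pow (tendsto_pow_atTop_nhds_zero_of_norm_lt_one hq) (aux_summable hq)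
      (mult_one_sub hq) (rhs_summable hq) (tail_tendsto hq)

theorem hasSum_pent_int (hq : ‖q‖ < 1) :
    HasSum (fun k : ℤ => ((Int.negOnePow k : ℤ) : ℂ) * q ^ pentagonal k)
      (∏' n : ℕ, (1 - q ^ (n + 1))) := by
  have hs1 : Summable (fun k : ℕ => (-1 : ℂ) ^ k * q ^ pentagonal (-(k : ℤ))) := by
    apply Summable.of_norm_bounded (g := fun n => ‖q‖ ^ n)
    · exact summable_geometric_of_lt_one (norm_nonneg _) hq
    · intro k
      rw [norm_mul, norm_pow, norm_neg, norm_one, one_pow, one_mul, norm_pow]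
      exact pow_le_pow_of_le_one (norm_nonneg q) hq.le (le_pent_neg k)
  have hs2 : Summable (fun k : ℕ => -((-1 : ℂ) ^ k * q ^ pentagonal ((k : ℤ) + 1))) := by
    apply Summable.of_norm_bounded (g := fun n => ‖q‖ ^ n)
    · exact summable_geometric_of_lt_one (norm_nonneg _) hq
    · intro k
      rw [norm_neg, norm_mul, norm_pow, norm_neg, norm_one, one_pow, one_mul, norm_pow]
      exact pow_le_pow_of_le_one (norm_nonneg q) hq.le (le_pent_succ k)
  have h1 : HasSum (fun k : ℤ => ((Int.negOnePow (-k) : ℤ) : ℂ) * q ^ pentagonal (-k))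
      ((∑' k : ℕ, (-1 : ℂ) ^ k * q ^ pentagonal (-(k : ℤ))) +
        ∑' k : ℕ, -((-1 : ℂ) ^ k * q ^ pentagonal ((k : ℤ) + 1))) := by
    apply HasSum.of_nat_of_neg_add_one
    · have : (fun n : ℕ => ((Int.negOnePow (-(n : ℤ)) : ℤ) : ℂ) * q ^ pentagonal (-(n : ℤ))) =
          (fun k : ℕ => (-1 : ℂ) ^ k * q ^ pentagonal (-(k : ℤ))) := by
        ext n
        congr 1
        rw [Int.negOnePow_neg]
        rcases Int.even_or_odd (n : ℤ) with hk | hk
        · rw [Int.negOnePow_even _ hk, Even.neg_one_pow (by exact_mod_cast hk)]; simp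
        · rw [Int.negOnePow_odd _ hk, Odd.neg_one_pow (by exact_mod_cast hk)]; simp
      rw [this]
      exact hs1.hasSum
    · have : (fun n : ℕ => ((Int.negOnePow (-(-((n : ℤ) + 1))) : ℤ) : ℂ) *
          q ^ pentagonal (-(-((n : ℤ) + 1)))) =
          (fun k : ℕ => -((-1 : ℂ) ^ k * q ^ pentagonal ((k : ℤ) + 1))) := by
        ext n
        rw [neg_neg, Int.negOnePow_succ]
        rcases Int.even_or_odd (n : ℤ) with hk | hk
        · rw [Int.negOnePow_even _ hk, Even.neg_one_pow (by exact_mod_cast hk)]; simp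
        · rw [Int.negOnePow_odd _ hk, Odd.neg_one_pow (by exact_mod_cast hk)]; simp
      rw [this]
      exact hs2.hasSum
  have h2 : (∑' k : ℕ, (-1 : ℂ) ^ k * q ^ pentagonal (-(k : ℤ))) +
        ∑' k : ℕ, -((-1 : ℂ) ^ k * q ^ pentagonal ((k : ℤ) + 1)) =
        ∏' n : ℕ, (1 - q ^ (n + 1)) := by
    rw [tprod_pent hq, ← hs1.tsum_add hs2]
    congr 1
    ext k
    ring
  rw [h2] at h1
  have h3 := (Equiv.neg ℤ).hasSum_iff (f := fun k : ℤ => ((Int.negOnePow (-k) : ℤ) : ℂ) * q ^ pentagonal (-k))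
    (a := ∏' n : ℕ, (1 - q ^ (n + 1)))
  rw [← h3] at h1
  have h4 : ((fun k : ℤ => ((Int.negOnePow (-k) : ℤ) : ℂ) * q ^ pentagonal (-k)) ∘ (Equiv.neg ℤ)) =
      fun k : ℤ => ((Int.negOnePow k : ℤ) : ℂ) * q ^ pentagonal k := by
    ext k
    simp
  rw [h4] at h1
  exact h1

theorem hasEv_pentagonal {A : Type*} [CommRing A] {ι : A →+* ℂ} (hq : ‖q‖ < 1) :
    HasEv ι (pentagonalSeries A) q (∏' n : ℕ, (1 - q ^ (n + 1))) := by
  unfold HasEv
  rw [← pentagonal_injective.hasSum_iff]
  · have : ((fun n => ι (PowerSeries.coeff n (pentagonalSeries A)) * q ^ n) ∘ pentagonal) =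
        fun k : ℤ => ((Int.negOnePow k : ℤ) : ℂ) * q ^ pentagonal k := by
      ext k
      rw [Function.comp_apply, coeff_pentagonalSeries_pentagonal, map_intCast]
    rw [this]
    exact hasSum_pent_int hq
  · intro n hn
    rw [coeff_pentagonalSeries_eq_zero _ hn, map_zero, zero_mul]

end pent

end Pool.Agent.Lib.MP_24de68_nt
end

section

namespace Pool.Agent.Lib.MP_24de68_nt

open PowerSeries UpperHalfPlane

open scoped ModularForm MatrixGroups

/-- The eighth power of the eta function. -/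
noncomputable def eta8 (z : ℍ) : ℂ := (ModularForm.eta (z : ℂ)) ^ 8

/-- Its expansion in the third root of `q`. -/
noncomputable def A1 (A : Type*) [CommRing A] : PowerSeries A :=
  PowerSeries.X * (PowerSeries.expand 3 (by norm_num) (pentagonalSeries A)) ^ 8

/-- The expansion of the discriminant. -/
noncomputable def D0 (A : Type*) [CommRing A] : PowerSeries A :=
  PowerSeries.X * (pentagonalSeries A) ^ 24

theorem qp_norm {M : ℕ} (hM : 0 < M) (z : ℍ) : ‖qp M z‖ < 1 := by
  have hM' : (0 : ℝ) < M := by exact_mod_cast hM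
  exact Function.Periodic.norm_qParam_lt_one hM' z.im_pos

theorem hasEv_pent (z : ℍ) {A : Type*} [CommRing A] {ι : A →+* ℂ} :
    HasEv ι (pentagonalSeries A) (qp 1 z) (∏' n : ℕ, (1 - ModularForm.eta_q n (z : ℂ))) := by
  have h := hasEv_pentagonal (ι := ι) (qp_norm one_pos z)
  have h2 : ∀ n : ℕ, ModularForm.eta_q n (z : ℂ) = qp 1 z ^ (n + 1) := by
    intro n
    unfold ModularForm.eta_q qp
    rw [Nat.cast_one]
  simp only [h2]
  exact h

theorem eta8_hasExp {A : Type*} [CommRing A] {ι : A →+* ℂ} : HasExp ι 3 eta8 (A1 A) := by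
  intro z
  unfold eta8 ModularForm.eta A1
  rw [mul_pow]
  have h1 : Function.Periodic.qParam 24 (z : ℂ) ^ 8 = qp 3 z := by
    rw [qp_eq]
    unfold Function.Periodic.qParam
    rw [← Complex.exp_nat_mul]
    congr 1
    push_cast
    ring
  rw [h1]
  apply HasEv.mul (HasEv.X _)
  apply HasEv.pow
  apply HasEv.expand
  have h2 := qp_pow (M := 1) 3 (by norm_num) z
  rw [Nat.mul_one] at h2
  rw [h2]
  exact hasEv_pent z

theorem disc_eq (z : ℍ) : ModularForm.discriminant z = eta8 z ^ 3 := by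
  unfold ModularForm.discriminant eta8
  rw [← pow_mul]

theorem disc_hasExp {A : Type*} [CommRing A] {ι : A →+* ℂ} :
    HasExp ι 1 ModularForm.discriminant (D0 A) := by
  intro z
  unfold ModularForm.discriminant ModularForm.eta D0
  rw [mul_pow]
  have h1 : Function.Periodic.qParam 24 (z : ℂ) ^ 24 = qp 1 z := by
    rw [qp_eq]
    unfold Function.Periodic.qParam
    rw [← Complex.exp_nat_mul]
    congr 1
    push_cast
    ring
  rw [h1]
  apply HasEv.mul (HasEv.X _)
  apply HasEv.pow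
  exact hasEv_pent z

theorem expand_D0 (A : Type*) [CommRing A] :
    PowerSeries.expand 3 (by norm_num) (D0 A) = A1 A ^ 3 := by
  unfold D0 A1
  rw [map_mul, PowerSeries.expand_X, map_pow, mul_pow]
  ring

/-- The cubic character values. -/
noncomputable def e3 (n : ℤ) : ℂ := Complex.exp (2 * Real.pi * Complex.I * n / 3)

theorem e3_add (m n : ℤ) : e3 (m + n) = e3 m * e3 n := by
  unfold e3
  rw [← Complex.exp_add]
  congr 1
  push_cast
  ring

theorem e3_three (n : ℤ) : e3 (3 * n) = 1 := by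
  unfold e3
  rw [Complex.exp_eq_one_iff]
  refine ⟨n, ?_⟩
  push_cast
  ring

theorem e3_congr {m n : ℤ} (h : (3 : ℤ) ∣ m - n) : e3 m = e3 n := by
  obtain ⟨k, hk⟩ := h
  have : m = n + 3 * k := by linarith
  rw [this, e3_add, e3_three, mul_one]

theorem e3_zero : e3 0 = 1 := by
  have := e3_three 0
  simpa using this

theorem e3_ne_zero (n : ℤ) : e3 n ≠ 0 := Complex.exp_ne_zero _

theorem e3_neg (n : ℤ) : e3 (-n) = (e3 n)⁻¹ := by
  apply eq_inv_of_mul_eq_one_left
  rw [← e3_add, neg_add_cancel, e3_zero]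

theorem eta8_T : eta8 ∣[(4 : ℤ)] ModularGroup.T = e3 1 • eta8 := by
  ext z
  rw [ModularForm.SL_slash_apply, denom, modular_T_smul, ModularGroup.T]
  have h1 : eta8 ((1 : ℝ) +ᵥ z) = e3 1 * eta8 z := by
    unfold eta8 ModularForm.eta
    have h2 : (((1 : ℝ) +ᵥ z : ℍ) : ℂ) = (z : ℂ) + 1 := by
      rw [UpperHalfPlane.coe_vadd]; push_cast; ring
    rw [h2]
    have h3 : ∀ n : ℕ, ModularForm.eta_q n ((z : ℂ) + 1) = ModularForm.eta_q n (z : ℂ) := by
      intro n
      unfold ModularForm.eta_q Function.Periodic.qParam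
      congr 1
      rw [Complex.exp_eq_exp_iff_exists_int]
      refine ⟨1, ?_⟩
      push_cast
      ring
    simp only [h3]
    rw [mul_pow, mul_pow, ← mul_assoc]
    congr 1
    unfold Function.Periodic.qParam e3
    rw [← Complex.exp_nat_mul, ← Complex.exp_nat_mul, ← Complex.exp_add]
    congr 1
    push_cast
    ring
  rw [h1]
  simp

theorem eta8_S : eta8 ∣[(4 : ℤ)] ModularGroup.S = eta8 := by
  ext z
  suffices ModularForm.eta (-(↑z)⁻¹) ^ 8 * ((z : ℂ) ^ 4)⁻¹ = ModularForm.eta z ^ 8 by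
    rw [ModularForm.SL_slash_apply, UpperHalfPlane.modular_S_smul]
    unfold eta8
    simpa [denom, ModularGroup.S] using this
  have hsq : ∀ {z : ℂ}, z ≠ 0 → Complex.sqrt z ^ 8 = z ^ 4 := by
    intro z hz
    rw [sqrt_eq_exp hz, ← Complex.exp_nat_mul]
    have : ((8 : ℕ) : ℂ) * (Complex.log z / 2) = (4 : ℕ) * Complex.log z := by
      push_cast; ring
    rw [this, Complex.exp_nat_mul, Complex.exp_log hz]
  have he : ModularForm.eta (-(↑z)⁻¹) = (Complex.sqrt Complex.I)⁻¹ * (Complex.sqrt z * ModularForm.eta z) := by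
    simpa [neg_div] using ModularForm.eta_comp_eq_csqrt_I_inv z.2
  have hI : Complex.sqrt Complex.I ^ 8 = 1 := by
    rw [hsq Complex.I_ne_zero, Complex.I_pow_four]
  rw [he, mul_pow, mul_pow, inv_pow, hI, hsq (ne_zero z)]
  have := ne_zero z
  field_simp

/-- The polynomial behind `psi` over a commutative ring. -/
def psiR {R : Type*} [CommRing R] (a b c d : R) : R := (a + d) * c - b * d * (c ^ 2 - 1)

theorem psiR_mul : ∀ a b c d a' b' c' d' : ZMod 3, a * d - b * c = 1 → a' * d' - b' * c' = 1 →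
    psiR (a * a' + b * c') (a * b' + b * d') (c * a' + d * c') (c * b' + d * d') =
      psiR a b c d + psiR a' b' c' d' := by
  unfold psiR
  decide +kernel

theorem psi_cast (γ : SLZ) : ((psi γ : ℤ) : ZMod 3) =
    psiR ((γ 0 0 : ℤ) : ZMod 3) ((γ 0 1 : ℤ) : ZMod 3) ((γ 1 0 : ℤ) : ZMod 3) ((γ 1 1 : ℤ) : ZMod 3) := by
  unfold psi psiR
  push_cast
  ring

theorem psi_mul (γ δ : SLZ) : (3 : ℤ) ∣ psi (γ * δ) - (psi γ + psi δ) := by
  have h := psiR_mul ((γ 0 0 : ℤ) : ZMod 3) ((γ 0 1 : ℤ) : ZMod 3) ((γ 1 0 : ℤ) : ZMod 3)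
    ((γ 1 1 : ℤ) : ZMod 3) ((δ 0 0 : ℤ) : ZMod 3) ((δ 0 1 : ℤ) : ZMod 3) ((δ 1 0 : ℤ) : ZMod 3)
    ((δ 1 1 : ℤ) : ZMod 3) (by
      have := γ.det_coe
      rw [Matrix.det_fin_two] at this
      have h2 := congrArg (fun x : ℤ => (x : ZMod 3)) this
      push_cast at h2
      exact h2) (by
      have := δ.det_coe
      rw [Matrix.det_fin_two] at this
      have h2 := congrArg (fun x : ℤ => (x : ZMod 3)) this
      push_cast at h2
      exact h2)
  have h3 : ((psi (γ * δ) - (psi γ + psi δ) : ℤ) : ZMod 3) = 0 := by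
    push_cast
    rw [psi_cast, psi_cast, psi_cast, ← h]
    have hm : ∀ i j, (γ * δ) i j = γ i 0 * δ 0 j + γ i 1 * δ 1 j := by
      intro i j
      rw [Matrix.SpecialLinearGroup.coe_mul, Matrix.mul_apply, Fin.sum_univ_two]
    rw [hm, hm, hm, hm]
    push_cast
    ring
  exact_mod_cast (ZMod.intCast_zmod_eq_zero_iff_dvd _ 3).mp h3

theorem eta8_slash (γ : SLZ) : eta8 ∣[(4 : ℤ)] γ = e3 (psi γ) • eta8 := by
  have hγ : γ ∈ Subgroup.closure ({ModularGroup.S, ModularGroup.T} : Set SLZ) := by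
    rw [SpecialLinearGroup.SL2Z_generators]; trivial
  induction hγ using Subgroup.closure_induction with
  | mem x hx =>
    rcases hx with rfl | hx
    · have : psi ModularGroup.S = 0 := by
        unfold psi ModularGroup.S; simp
      rw [eta8_S, this, e3_zero, one_smul]
    · rw [Set.mem_singleton_iff] at hx
      subst hx
      have : psi ModularGroup.T = 1 := by
        unfold psi ModularGroup.T; simp
      rw [eta8_T, this]
  | one =>
    have : psi 1 = 0 := by unfold psi; simp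
    rw [SlashAction.slash_one, this, e3_zero, one_smul]
  | mul x y _ _ hx hy =>
    rw [SlashAction.slash_mul, hx, ModularForm.SL_smul_slash, hy, smul_smul]
    congr 1
    rw [← e3_add]
    exact (e3_congr (psi_mul x y)).symm
  | inv x _ hx =>
    have h1 : (eta8 ∣[(4 : ℤ)] x) ∣[(4 : ℤ)] x⁻¹ = eta8 := by
      rw [← SlashAction.slash_mul, mul_inv_cancel, SlashAction.slash_one]
    rw [hx, ModularForm.SL_smul_slash] at h1
    have h2 : psi 1 = 0 := by unfold psi; simp
    have h3 := psi_mul x x⁻¹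
    rw [mul_inv_cancel, h2] at h3
    have h4 : e3 (psi x⁻¹) = (e3 (psi x))⁻¹ := by
      rw [← e3_neg]
      apply e3_congr
      have : psi x⁻¹ - -psi x = -(0 - (psi x + psi x⁻¹)) := by ring
      rw [this]
      exact (dvd_neg).mpr h3
    rw [h4]
    conv_rhs => rw [← h1]
    rw [smul_smul, inv_mul_cancel₀ (e3_ne_zero _), one_smul]

end Pool.Agent.Lib.MP_24de68_nt
end

section

namespace Pool.Agent.Lib.MP_24de68_nt

open UpperHalfPlane ModularFormClass MatrixGroups EisensteinSeries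

open scoped ModularForm

variable {A : Type*} [CommRing A] {ι : A →+* ℂ}

theorem hasExp_of_qExpansion {k : ℤ} (f : ModularForm 𝒮ℒ k) {φ : PowerSeries A}
    (h : qExpansion 1 f = PowerSeries.map ι φ) : HasExp ι 1 f φ := by
  intro z
  haveI : Fact (IsCusp OnePoint.infty 𝒮ℒ) :=
    ⟨Subgroup.isCusp_of_mem_strictPeriods (h := 1) one_pos one_mem_strictPeriods_SL⟩
  have h1 := ModularForm.hasSum_qExpansion f one_pos one_mem_strictPeriods_SL z
  rw [h] at h1
  refine HasEv.congr (fun n => ?_) h1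
  rw [PowerSeries.coeff_map]
  unfold qp
  rw [Nat.cast_one]

theorem qExpansion_of_hasExp {G : Type*} [FunLike G ℍ ℂ] {k : ℤ} (f : G)
    [ModularFormClass G 𝒮ℒ k] {φ : PowerSeries A}
    (h : HasExp ι 1 f φ) : qExpansion 1 f = PowerSeries.map ι φ := by
  ext n
  have h1 := ModularFormClass.qExpansion_coeff_unique (c := fun n => ι (PowerSeries.coeff n φ))
    (f := f) one_pos one_mem_strictPeriods_SL (fun τ => by
      have h2 := h τ
      unfold HasEv qp at h2
      rw [Nat.cast_one] at h2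
      exact h2) n
  rw [← h1, PowerSeries.coeff_map]

/-- The `q`-expansion of `E₄` over any commutative ring. -/
noncomputable def E4A (A : Type*) [CommRing A] : PowerSeries A :=
  PowerSeries.mk fun m => if m = 0 then 1 else ((240 * ArithmeticFunction.sigma 3 m : ℕ) : A)

theorem E4_qExpansion : qExpansion 1 ModularForm.E₄ = PowerSeries.map ι (E4A A) := by
  ext n
  rw [EisensteinSeries.E_qExpansion_coeff _ ⟨2, rfl⟩, PowerSeries.coeff_map, E4A,
    PowerSeries.coeff_mk]
  split_ifs with h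
  · rw [map_one]
  · rw [map_natCast, show bernoulli 4 = -1 / 30 by decide +kernel]
    push_cast
    norm_num

theorem E4_hasExp : HasExp ι 1 ModularForm.E₄ (E4A A) :=
  hasExp_of_qExpansion _ E4_qExpansion

theorem E4A_map {F : Type*} [CommRing F] (h2 : (2 : F) = 0) (ρ : A →+* F) :
    PowerSeries.map ρ (E4A A) = 1 := by
  ext n
  rw [PowerSeries.coeff_map, E4A, PowerSeries.coeff_mk, PowerSeries.coeff_one]
  split_ifs with h
  · rw [map_one]
  · rw [map_natCast]
    push_cast
    have : (240 : F) = 2 * 120 := by norm_num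
    rw [this, h2]; ring

theorem disc_qExpansion : qExpansion 1 ModularForm.discriminant = PowerSeries.map ι (D0 A) :=
  qExpansion_of_hasExp (k := 12) (ι := ι) CuspForm.discriminant disc_hasExp

theorem pent_unit (A : Type*) [CommRing A] :
    ∃ W : PowerSeries A, (PowerSeries.pentagonalSeries A) ^ 24 * W = 1 := by
  have h : IsUnit ((PowerSeries.pentagonalSeries A) ^ 24) := by
    rw [PowerSeries.isUnit_iff_constantCoeff, map_pow]
    apply IsUnit.pow
    have h1 := PowerSeries.coeff_pentagonalSeries_pentagonal A 0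
    have h2 : pentagonal 0 = 0 := by decide
    rw [h2, PowerSeries.coeff_zero_eq_constantCoeff] at h1
    rw [h1]
    simp
  obtain ⟨u, hu⟩ := h
  exact ⟨((u⁻¹ : (PowerSeries A)ˣ) : PowerSeries A), by rw [← hu]; exact u.mul_inv⟩

theorem levelOne_poly (hι : Function.Injective ι) {F : Type*} [Field F] (h2 : (2 : F) = 0)
    (ρ : A →+* F) (m : ℕ) : ∀ (k : ℤ) (_ : k = 12 * m) (f : ModularForm 𝒮ℒ k)
    (φ : PowerSeries A) (_ : qExpansion 1 f = PowerSeries.map ι φ),
    ∃ p : Polynomial F, p.natDegree ≤ m ∧ PowerSeries.map ρ φ =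
      Polynomial.eval₂ PowerSeries.C (PowerSeries.map ρ (D0 A)) p := by
  induction m with
  | zero =>
    intro k hk f φ hf
    have hk0 : k = 0 := by simpa using hk
    subst hk0
    obtain ⟨c, hc⟩ := ModularFormClass.levelOne_weight_zero_const f
    have h1 : (f : ℍ → ℂ) = c • (1 : ModularForm 𝒮ℒ 0) := by
      rw [hc]; ext z; simp
    rw [h1, ModularForm.qExpansion_smul one_pos one_mem_strictPeriods_SL,
      ModularForm.qExpansion_one] at hf
    have h3 : φ = PowerSeries.C (PowerSeries.coeff 0 φ) := by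
      ext n
      rw [PowerSeries.coeff_C]
      split_ifs with hn
      · rw [hn]
      · have h4 := congrArg (PowerSeries.coeff n) hf
        rw [PowerSeries.coeff_map, PowerSeries.coeff_smul, PowerSeries.coeff_one, if_neg hn,
          smul_zero] at h4
        exact (map_eq_zero_iff ι hι).mp h4.symm
    refine ⟨Polynomial.C (ρ (PowerSeries.coeff 0 φ)), by simp, ?_⟩
    rw [h3]
    simp
  | succ m ih =>
    intro k hk f φ hf
    set c : A := PowerSeries.coeff 0 φ with hc
    have hwt : ((3 * (m + 1) : ℕ) : ℤ) * 4 = k := by rw [hk]; push_cast; ring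
    set E : ModularForm 𝒮ℒ k := ModularForm.mcast hwt (ModularForm.E₄.pow (3 * (m + 1))) with hE
    have hEq : qExpansion 1 E = PowerSeries.map ι (E4A A ^ (3 * (m + 1))) := by
      rw [hE, ModularForm.qExpansion_mcast,
        ModularForm.qExpansion_pow one_pos one_mem_strictPeriods_SL, E4_qExpansion (ι := ι), map_pow]
    set g : ModularForm 𝒮ℒ k := f - ι c • E with hg
    set ψ : PowerSeries A := φ - PowerSeries.C c * E4A A ^ (3 * (m + 1)) with hψ
    have hgq : qExpansion 1 g = PowerSeries.map ι ψ := by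
      rw [hg, FunLike.coe_sub, ModularForm.qExpansion_sub one_pos one_mem_strictPeriods_SL,
        FunLike.coe_smul, ModularForm.qExpansion_smul one_pos one_mem_strictPeriods_SL, hf, hEq, hψ,
        map_sub, map_mul, PowerSeries.map_C, PowerSeries.smul_eq_C_mul]
    have hψ0 : PowerSeries.coeff 0 ψ = 0 := by
      rw [hψ, map_sub, PowerSeries.coeff_C_mul, ← hc]
      have : PowerSeries.coeff 0 (E4A A ^ (3 * (m + 1))) = 1 := by
        rw [PowerSeries.coeff_zero_eq_constantCoeff, map_pow]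
        have h5 : PowerSeries.constantCoeff (E4A A) = 1 := by
          rw [← PowerSeries.coeff_zero_eq_constantCoeff, E4A, PowerSeries.coeff_mk]; simp
        rw [h5, one_pow]
      rw [this]; ring
    have hcusp : (qExpansion 1 g).coeff 0 = 0 := by
      rw [hgq, PowerSeries.coeff_map, hψ0, map_zero]
    have hfac := ModularForm.qExpansion_eq_qExpansion_discriminant_mul g hcusp
    rw [hgq, disc_qExpansion (ι := ι)] at hfac
    obtain ⟨ψ₁, hψ₁⟩ : PowerSeries.X ∣ ψ := by
      rw [PowerSeries.X_dvd_iff, ← PowerSeries.coeff_zero_eq_constantCoeff]; exact hψ0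
    obtain ⟨W, hW⟩ := pent_unit A
    set g' := CuspForm.discriminantEquiv (ModularForm.toCuspForm g hcusp) with hg'
    have h6 : PowerSeries.map ι ψ₁ = PowerSeries.map ι ((PowerSeries.pentagonalSeries A) ^ 24) *
        qExpansion 1 g' := by
      have h7 : (PowerSeries.X : PowerSeries ℂ) * PowerSeries.map ι ψ₁ =
          PowerSeries.X * (PowerSeries.map ι ((PowerSeries.pentagonalSeries A) ^ 24) *
            qExpansion 1 g') := by
        rw [hψ₁, D0, map_mul, map_mul, PowerSeries.map_X] at hfac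
        rw [hfac]; ring
      exact mul_left_cancel₀ PowerSeries.X_ne_zero h7
    have h8 : qExpansion 1 g' = PowerSeries.map ι (W * ψ₁) := by
      rw [map_mul, h6, ← mul_assoc, ← map_mul, mul_comm W, hW, map_one, one_mul]
    obtain ⟨p, hp, hp2⟩ := ih (k - 12) (by rw [hk]; push_cast; ring) g' (W * ψ₁) h8
    refine ⟨Polynomial.C (ρ c) + Polynomial.X * p, ?_, ?_⟩
    · refine (Polynomial.natDegree_add_le _ _).trans ?_
      apply max_le
      · simp
      · refine (Polynomial.natDegree_mul_le).trans ?_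
        have := Polynomial.natDegree_X_le (R := F)
        omega
    · have h9 : φ = PowerSeries.C c * E4A A ^ (3 * (m + 1)) + D0 A * (W * ψ₁) := by
        have h10 : D0 A * (W * ψ₁) = ψ := by
          rw [D0, hψ₁]
          linear_combination (PowerSeries.X * ψ₁) * hW
        rw [h10, hψ]; ring
      rw [h9, map_add, map_mul, map_mul, map_pow, E4A_map h2, one_pow, mul_one, hp2,
        PowerSeries.map_C, Polynomial.eval₂_add, Polynomial.eval₂_mul, Polynomial.eval₂_C,
        Polynomial.eval₂_X]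

end Pool.Agent.Lib.MP_24de68_nt
end
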