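import Mathlib
import Pool.Agent.Lib.MP_24de68_nt.Ident

section

section

namespace Pool.Agent.Lib.MP_24de68_nt

open HahnSeries Matrix

section

variable {F : Type*} [Field F]

theorem LowTerm.of_ge {x : HahnSeries ℤ F} {n : ℤ} (h : ∀ m < n, x.coeff m = 0) :
    LowTerm x n (x.coeff n) := ⟨rfl, h⟩

theorem LowTerm.prod {ι : Type*} (s : Finset ι) (f : ι → HahnSeries ℤ F) (n : ℤ)
    (h : ∀ i ∈ s, ∃ c, LowTerm (f i) n c) : ∃ c, LowTerm (∏ i ∈ s, f i) (s.card * n) c := by
  classical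
  induction s using Finset.induction_on with
  | empty => exact ⟨1, by simpa using LowTerm.one⟩
  | insert a s ha ih =>
    obtain ⟨c, hc⟩ := ih (fun i hi => h i (Finset.mem_insert_of_mem hi))
    obtain ⟨d, hd⟩ := h a (Finset.mem_insert_self _ _)
    refine ⟨d * c, ?_⟩
    rw [Finset.prod_insert ha, Finset.card_insert_of_notMem ha]
    have := hd.mul hc
    convert this using 1
    push_cast; ring

theorem coeff_eval₂ (D : HahnSeries ℤ F) (p : Polynomial F) (m : ℤ) :
    (Polynomial.eval₂ HahnSeries.C D p).coeff m =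
      ∑ i ∈ Finset.range (p.natDegree + 1), p.coeff i * (D ^ i).coeff m := by
  rw [Polynomial.eval₂_eq_sum_range]
  have : ∀ (s : Finset ℕ), (∑ i ∈ s, HahnSeries.C (p.coeff i) * D ^ i).coeff m =
      ∑ i ∈ s, p.coeff i * (D ^ i).coeff m := by
    intro s
    classical
    induction s using Finset.induction_on with
    | empty => simp
    | insert a s ha ih =>
      rw [Finset.sum_insert ha, Finset.sum_insert ha, coeff_add, ih, C_mul_eq_smul, coeff_smul,
        smul_eq_mul]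
  exact this _

theorem lowTerm_eval₂ {D : HahnSeries ℤ F} {M : ℤ} (hM : 0 < M) (hD : LowTerm D M 1)
    {p : Polynomial F} (hp : p ≠ 0) :
    ∃ j : ℕ, j ≤ p.natDegree ∧ p.coeff j ≠ 0 ∧ LowTerm (Polynomial.eval₂ HahnSeries.C D p) (j * M) (p.coeff j) := by
  have hDi : ∀ i : ℕ, LowTerm (D ^ i) (i * M) 1 := fun i => by simpa using hD.pow i
  refine ⟨p.natTrailingDegree, Polynomial.natTrailingDegree_le_natDegree p, ?_, ?_, ?_⟩
  · exact Polynomial.trailingCoeff_nonzero_iff_nonzero.mpr hp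
  · rw [coeff_eval₂, Finset.sum_eq_single p.natTrailingDegree]
    · rw [(hDi _).1, mul_one]
    · intro i _ hi
      rcases lt_or_gt_of_ne hi with h | h
      · rw [Polynomial.coeff_eq_zero_of_lt_natTrailingDegree h, zero_mul]
      · rw [(hDi i).2 _ (by
          have : (p.natTrailingDegree : ℤ) < i := by exact_mod_cast h
          nlinarith), mul_zero]
    · intro h
      exfalso; apply h
      rw [Finset.mem_range]
      have := Polynomial.natTrailingDegree_le_natDegree p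
      omega
  · intro m hm
    rw [coeff_eval₂]
    apply Finset.sum_eq_zero
    intro i _
    rcases lt_or_ge i p.natTrailingDegree with h | h
    · rw [Polynomial.coeff_eq_zero_of_lt_natTrailingDegree h, zero_mul]
    · rw [(hDi i).2 _ (by
          have : (p.natTrailingDegree : ℤ) ≤ i := by exact_mod_cast h
          nlinarith), mul_zero]

end

namespace RedData

variable {F : Type*} [Field F] [CharP F 2] {M : ℕ} [NeZero M] (R : RedData F M)

include R in
theorem omega_pow : (R.ω : Fˣ) ^ M = 1 := by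
  have := R.hω.pow_eq_one
  exact_mod_cast this

theorem V_chi_cube (h3 : 3 ∣ M) (γ : SLZ) {m : Matrix (Fin 2) (Fin 2) ℤ} (hm : 0 < m.det)
    (hmM : 3 * m.det ∣ M) : R.V ((γ : Matrix (Fin 2) (Fin 2) ℤ) * m) ^ 3 = R.V m ^ 3 := by
  rw [R.V_chi γ m hm hmM, mul_pow, ← map_pow]
  have : (((R.ω ^ (((M / 3 : ℕ) : ℤ) * psi γ) : Fˣ) : F)) ^ 3 = 1 := by
    rw [← Units.val_pow_eq_pow_val, ← zpow_natCast, ← _root_.zpow_mul]
    have h : (((M / 3 : ℕ) : ℤ) * psi γ) * ((3 : ℕ) : ℤ) = M * psi γ := by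
      obtain ⟨k, hk⟩ := h3
      rw [hk, Nat.mul_div_cancel_left k (by norm_num)]
      push_cast; ring
    rw [h, _root_.zpow_mul, zpow_natCast, R.omega_pow, _root_.one_zpow]
    rfl
  rw [this, map_one, one_mul]

/-- The key step of the `q`-expansion principle. -/
theorem exists_not_dvd (h3 : 3 ∣ M) {l : ℕ} (hl : l.Prime) (hlM : 3 * l ∣ M) :
    ∃ γ ∈ R.dec, ¬ (l : ℤ) ∣ γ 1 0 := by
  classical
  by_contra hcon
  push Not at hcon
  have hMpos : 0 < M := NeZero.pos M
  obtain ⟨c, ⟨w, hw⟩, hc1, hcd⟩ := R.exists_sep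
  set m : Matrix (Fin 2) (Fin 2) ℤ := !![(l : ℤ), 0; 0, ((1 : ℕ) : ℤ)] with hm
  have hdet : m.det = l := by rw [hm, det_fin_two_of]; push_cast; ring
  have hdpos : 0 < m.det := by rw [hdet]; exact_mod_cast hl.pos
  have hdM : 3 * m.det ∣ M := by rw [hdet]; exact_mod_cast hlM
  obtain ⟨s, hs⟩ : ∃ s : ℕ, s * (3 * 1) = l * M := by
    obtain ⟨k, hk⟩ := h3
    exact ⟨l * k, by rw [hk]; ring⟩
  obtain ⟨t, ht⟩ : ∃ t : ℕ, t * (3 * 1) = M := by
    obtain ⟨k, hk⟩ := h3
    exact ⟨k, by rw [hk]; ring⟩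
  have hs0 : 0 < s := by
    rcases Nat.eq_zero_or_pos s with h | h
    · rw [h, zero_mul] at hs
      have := Nat.mul_pos hl.pos hMpos
      omega
    · exact h
  have hVm : R.V m = scale s hs0 (tw (R.ω ^ ((t : ℤ) * 0)) (Th F)) :=
    R.V_upper l 0 1 s t hs0 hl.pos one_pos hs ht (by simpa using hlM)
  have hVlow : LowTerm (R.V m) s 1 := by
    rw [hVm]
    have := (Th_low (F := F)).tw (R.ω ^ ((t : ℤ) * 0))
    have h2 := this.scale hs0
    simpa using h2
  set v : SLZ → HahnSeries ℤ F := fun γ => R.V (m * (γ : Matrix (Fin 2) (Fin 2) ℤ)) with hv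
  have hvB : v ∈ R.B 1 := R.V_mem m hdpos hdM
  have hv3 : ∀ δ ∈ R.dec, v δ ^ 3 = R.V m ^ 3 := by
    intro δ hδ
    obtain ⟨e, he⟩ := hcon δ hδ
    have hdetδ := δ.det_coe
    rw [det_fin_two] at hdetδ
    have hmul : m * (δ : Matrix (Fin 2) (Fin 2) ℤ) =
        !![δ 0 0, l * δ 0 1; e, δ 1 1] * m := by
      ext i j
      fin_cases i <;> fin_cases j <;>
        simp [hm, Matrix.mul_apply, Fin.sum_univ_two]
      · ring
      · rw [he]; ring
    have hdet' : (!![δ 0 0, l * δ 0 1; e, δ 1 1] : Matrix (Fin 2) (Fin 2) ℤ).det = 1 := by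
      rw [det_fin_two_of]
      rw [he] at hdetδ
      linear_combination hdetδ
    have := R.V_chi_cube h3 ⟨_, hdet'⟩ hdpos hdM
    rw [hv]
    show R.V (m * (δ : Matrix (Fin 2) (Fin 2) ℤ)) ^ 3 = _
    rw [hmul]
    exact this
  set K := w + 1 with hK
  set x : SLZ → HahnSeries ℤ F := c * (v ^ 3) ^ K with hx
  have hxB : x ∈ R.B (w + K * (3 * 1)) := R.mul_mem hw (R.pow_mem (R.pow_mem hvB 3) K)
  set A₀ : Finset (GQ M) := Finset.univ.filter (fun g => g.out ∈ R.dec) with hA₀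
  set n := A₀.card with hn
  have hn1 : 1 ≤ n := by
    rw [hn, Nat.one_le_iff_ne_zero, Finset.card_ne_zero]
    refine ⟨((1 : SLZ) : GQ M), ?_⟩
    rw [hA₀, Finset.mem_filter]
    refine ⟨Finset.mem_univ _, R.gamma_le_dec ?_⟩
    have : (((1 : SLZ) : GQ M).out : GQ M) = ((1 : SLZ) : GQ M) := QuotientGroup.out_eq' _
    have h4 := QuotientGroup.eq.mp this
    rw [mul_one] at h4
    exact (Subgroup.inv_mem_iff _).mp h4
  obtain ⟨p, hp1, hp2⟩ := R.esymm hxB n
  have hxzero : ∀ g ∉ A₀, x (g.out) = 0 := by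
    intro g hg
    have : g.out ∉ R.dec := by
      intro h; apply hg; rw [hA₀, Finset.mem_filter]; exact ⟨Finset.mem_univ _, h⟩
    rw [hx, Pi.mul_apply, hcd _ this, zero_mul]
  have hsum : ∑ A ∈ Finset.powersetCard n (Finset.univ : Finset (GQ M)), ∏ g ∈ A, x g.out =
      ∏ g ∈ A₀, x g.out := by
    rw [Finset.sum_eq_single A₀]
    · intro A hA hne
      rw [Finset.mem_powersetCard] at hA
      have : ¬ A ⊆ A₀ := by
        intro hsub
        apply hne
        exact Finset.eq_of_subset_of_card_le hsub (by rw [hA.2])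
      rw [Finset.not_subset] at this
      obtain ⟨g, hgA, hg⟩ := this
      exact Finset.prod_eq_zero hgA (hxzero g hg)
    · intro h
      exfalso; apply h
      rw [Finset.mem_powersetCard]
      exact ⟨Finset.subset_univ _, rfl⟩
  rw [hsum] at hp2
  have hfac : ∀ g ∈ A₀, x g.out ≠ 0 ∧ ∃ e, LowTerm (x g.out) (K * (3 * s)) e := by
    intro g hg
    rw [hA₀, Finset.mem_filter] at hg
    have h5 : x g.out = c g.out * (R.V m ^ 3) ^ K := by
      rw [hx, Pi.mul_apply, Pi.pow_apply, Pi.pow_apply, hv3 _ hg.2]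
    have h6 := R.ne_zero_of_mem_dec hg.2 ⟨w, hw⟩ hc1
    have h7 : LowTerm (c g.out) 0 ((c g.out).coeff 0) := LowTerm.of_ge (fun m hm => R.coeff_neg hw g.out m hm)
    have h8 := h7.mul ((hVlow.pow 3).pow K)
    rw [h5]
    refine ⟨mul_ne_zero h6 (pow_ne_zero _ (pow_ne_zero _ (hVlow.ne_zero one_ne_zero))),
      (c g.out).coeff 0 * (1 ^ 3) ^ K, ?_⟩
    convert h8 using 1
    push_cast; ring
  have hprod0 : ∏ g ∈ A₀, x g.out ≠ 0 := Finset.prod_ne_zero_iff.mpr (fun g hg => (hfac g hg).1)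
  obtain ⟨e, he⟩ := LowTerm.prod A₀ (fun g => x g.out) _ (fun g hg => (hfac g hg).2)
  have hp0 : p ≠ 0 := by
    rintro rfl
    rw [Polynomial.eval₂_zero] at hp2
    exact hprod0 hp2
  obtain ⟨j, hj1, hj2, hj3⟩ := lowTerm_eval₂ (by exact_mod_cast hMpos : (0 : ℤ) < M)
    (Ds_low (by exact_mod_cast hMpos)) hp0
  rw [← hp2] at hj3
  have hle : (A₀.card : ℤ) * (K * (3 * s)) ≤ j * M := by
    by_contra hlt
    push Not at hlt
    apply hj2
    rw [← hj3.1, he.2 _ hlt]
  have hle' : n * (K * (l * M)) ≤ j * M := by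
    have h9 : (3 * s : ℕ) = l * M := by rw [← hs]; ring
    have : n * (K * (3 * s)) ≤ j * M := by exact_mod_cast hle
    rwa [h9] at this
  have hle2 : n * (K * l) ≤ j := by
    have : (n * (K * l)) * M ≤ j * M := by
      calc _ = n * (K * (l * M)) := by ring
        _ ≤ _ := hle'
    exact Nat.le_of_mul_le_mul_right this hMpos
  have h10 : 3 * (n * (K * l)) ≤ n * (w + K * (3 * 1)) + 2 := by omega
  have h11 : 2 ≤ l := hl.two_le
  have h12 : n * (K * 2) ≤ n * (K * l) := by gcongr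
  rw [hK] at h10 h12
  nlinarith [Nat.zero_le (n * w)]

end RedData

end Pool.Agent.Lib.MP_24de68_nt
end

section

namespace Pool.Agent.Lib.MP_24de68_nt

open HahnSeries Matrix

/-- Lower unipotent matrices. -/
def Lz (n : ℤ) : SLZ := ⟨!![1, 0; n, 1], by simp [det_fin_two_of]⟩

theorem Lz_add (n m : ℤ) : Lz (n + m) = Lz n * Lz m := by
  ext i j
  fin_cases i <;> fin_cases j <;> simp [Lz, Matrix.mul_apply, Fin.sum_univ_two]

theorem Lz_zero : Lz 0 = 1 := by
  ext i j
  fin_cases i <;> fin_cases j <;> simp [Lz]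

theorem Lz_neg (n : ℤ) : Lz (-n) = (Lz n)⁻¹ := by
  rw [eq_comm, inv_eq_iff_mul_eq_one, ← Lz_add, add_neg_cancel, Lz_zero]

theorem S_eq : ModularGroup.S = ModularGroup.T⁻¹ * Lz 1 * ModularGroup.T⁻¹ := by
  ext i j
  fin_cases i <;> fin_cases j <;>
    simp [Lz, ModularGroup.S, ModularGroup.T, Matrix.mul_apply, Fin.sum_univ_two,
      Matrix.adjugate_fin_two]

/-- Constructor for elements of the modular group. -/
def mkSL (a b c d : ℤ) (h : a * d - b * c = 1) : SLZ :=
  ⟨!![a, b; c, d], by rw [det_fin_two_of]; exact h⟩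

theorem mkSL_coe (a b c d : ℤ) (h : a * d - b * c = 1) :
    (mkSL a b c d h : Matrix (Fin 2) (Fin 2) ℤ) = !![a, b; c, d] := rfl

theorem conj_T_entries (γ : SLZ) (u n : ℤ) :
    ((γ * ModularGroup.T ^ u * γ⁻¹ * Lz n : SLZ) : Matrix (Fin 2) (Fin 2) ℤ) =
    !![1 - u * γ 0 0 * γ 1 0 + u * γ 0 0 ^ 2 * n, u * γ 0 0 ^ 2;
      - u * γ 1 0 ^ 2 + (1 + u * γ 0 0 * γ 1 0) * n, 1 + u * γ 0 0 * γ 1 0] := by
  have h := γ.det_coe
  rw [det_fin_two] at h
  rw [Matrix.SpecialLinearGroup.coe_mul, Matrix.SpecialLinearGroup.coe_mul, Matrix.SpecialLinearGroup.coe_mul,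
    Matrix.SpecialLinearGroup.coe_inv, ModularGroup.coe_T_zpow]
  ext i j
  fin_cases i <;> fin_cases j <;>
    simp [Lz, Matrix.mul_apply, Fin.sum_univ_two, Matrix.adjugate_fin_two]
  · linear_combination h
  · ring
  · linear_combination n * h
  · linear_combination h

namespace RedData

variable {F : Type*} [Field F] [CharP F 2] {M : ℕ} [NeZero M] (R : RedData F M)

theorem Lz_mem_dec (h3 : 3 ∣ M) (hM : ∀ l : ℕ, l.Prime → l ∣ M → 3 * l ∣ M) :
    Lz 1 ∈ R.dec := by
  have hMpos : 0 < M := NeZero.pos M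
  let H : AddSubgroup ℤ :=
    { carrier := {n | Lz n ∈ R.dec}
      add_mem' := by
        intro a b ha hb
        show Lz (a + b) ∈ R.dec
        rw [Lz_add]
        exact R.dec.mul_mem ha hb
      zero_mem' := by
        show Lz 0 ∈ R.dec
        rw [Lz_zero]; exact R.dec.one_mem
      neg_mem' := by
        intro a ha
        show Lz (-a) ∈ R.dec
        rw [Lz_neg]
        exact R.dec.inv_mem ha }
  obtain ⟨d, hd⟩ := Int.subgroup_cyclic H
  have hmem : ∀ n, n ∈ H ↔ d ∣ n := by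
    intro n
    rw [hd, AddSubgroup.mem_closure_singleton]
    constructor
    · rintro ⟨k, rfl⟩; exact ⟨k, by simp [mul_comm]⟩
    · rintro ⟨k, rfl⟩; exact ⟨k, by simp [mul_comm]⟩
  have hMH : (M : ℤ) ∈ H := by
    show Lz M ∈ R.dec
    apply R.gamma_le_dec
    rw [CongruenceSubgroup.Gamma_mem]
    simp [Lz]
  rw [hmem] at hMH
  have hunit : IsUnit d := by
    by_contra hnu
    rw [Int.isUnit_iff_natAbs_eq] at hnu
    obtain ⟨l, hl, hld⟩ := Nat.exists_prime_and_dvd hnu
    have hldz : (l : ℤ) ∣ d := Int.natCast_dvd.mpr hld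
    have hlM : l ∣ M := by
      have := hldz.trans hMH
      exact_mod_cast this
    obtain ⟨γ, hγ, hγl⟩ := R.exists_not_dvd h3 hl (hM l hl hlM)
    set q := ordProj[l] M with hq
    set u := ordCompl[l] M with hu
    have hqu : q * u = M := Nat.ordProj_mul_ordCompl_eq_self M l
    have hlu : ¬ l ∣ u := Nat.not_dvd_ordCompl hl hMpos.ne'
    set a := γ 0 0 with ha
    set b := γ 0 1 with hb
    set c := γ 1 0 with hc
    set d' := γ 1 1 with hd'
    have hdet : a * d' - b * c = 1 := by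
      have := γ.det_coe
      rwa [det_fin_two] at this
    have hcop : IsCoprime c (q : ℤ) := by
      rw [hq]
      push_cast
      apply IsCoprime.pow_right
      rw [isCoprime_comm, Int.isCoprime_iff_gcd_eq_one]
      rw [Int.gcd_eq_natAbs, Int.natAbs_natCast]
      refine (Nat.Prime.coprime_iff_not_dvd hl).mpr ?_
      intro h
      exact hγl (Int.natCast_dvd.mpr h)
    obtain ⟨x, y, hxy⟩ := hcop
    set t := a * x with ht
    have hat : a - t * c = (q : ℤ) * (a * y) := by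
      rw [ht]; linear_combination (-a) * hxy
    have hT : ∀ n : ℤ, ModularGroup.T ^ n ∈ R.dec := fun n => R.dec.zpow_mem R.T_mem_dec n
    have hγ' : ModularGroup.T ^ (-t) * γ ∈ R.dec := R.dec.mul_mem (hT _) hγ
    have e00 : (ModularGroup.T ^ (-t) * γ) 0 0 = a - t * c := by
      rw [Matrix.SpecialLinearGroup.coe_mul, ModularGroup.coe_T_zpow]
      simp [Matrix.mul_apply, Fin.sum_univ_two, ha, hc]
      ring
    have e10 : (ModularGroup.T ^ (-t) * γ) 1 0 = c := by
      rw [Matrix.SpecialLinearGroup.coe_mul, ModularGroup.coe_T_zpow]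
      simp [Matrix.mul_apply, Fin.sum_univ_two, hc]
    set γ' := ModularGroup.T ^ (-t) * γ with hγ'def
    have hδ : γ' * ModularGroup.T ^ (u : ℤ) * γ'⁻¹ ∈ R.dec :=
      R.dec.mul_mem (R.dec.mul_mem hγ' (hT _)) (R.dec.inv_mem hγ')
    have hε : γ' * ModularGroup.T ^ (u : ℤ) * γ'⁻¹ * Lz (c ^ 2 * u) ∈ R.dec := by
      apply R.gamma_le_dec
      have hent := conj_T_entries γ' (u : ℤ) (c ^ 2 * u)
      rw [e00, e10] at hent
      have hua : (((u : ℤ) * (a - t * c) : ℤ) : ZMod M) = 0 := by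
        have : ((u : ℤ) * (a - t * c)) = (M : ℤ) * (a * y) := by
          rw [hat, ← hqu]; push_cast; ring
        rw [this]
        simp
      rw [CongruenceSubgroup.Gamma_mem, hent]
      simp only [of_apply, cons_val', cons_val_zero, cons_val_one, cons_val_fin_one]
      refine ⟨?_, ?_, ?_, ?_⟩
      · have : (1 - (u : ℤ) * (a - t * c) * c + u * (a - t * c) ^ 2 * (c ^ 2 * u)) =
          1 + ((u : ℤ) * (a - t * c)) * (- c + (a - t * c) * (c ^ 2 * u)) := by ring
        rw [this, Int.cast_add, Int.cast_mul, hua, zero_mul, add_zero, Int.cast_one]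
      · have : (u : ℤ) * (a - t * c) ^ 2 = ((u : ℤ) * (a - t * c)) * (a - t * c) := by ring
        rw [this, Int.cast_mul, hua, zero_mul]
      · have : -(u : ℤ) * c ^ 2 + (1 + u * (a - t * c) * c) * (c ^ 2 * u) =
          ((u : ℤ) * (a - t * c)) * (c * (c ^ 2 * u)) := by ring
        rw [this, Int.cast_mul, hua, zero_mul]
      · have : (1 + (u : ℤ) * (a - t * c) * c) = 1 + ((u : ℤ) * (a - t * c)) * c := by ring
        rw [this, Int.cast_add, Int.cast_mul, hua, zero_mul, add_zero, Int.cast_one]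
    have hL : Lz (c ^ 2 * u) ∈ R.dec := by
      have := R.dec.mul_mem (R.dec.inv_mem hδ) hε
      rwa [inv_mul_cancel_left] at this
    have h5 : d ∣ c ^ 2 * u := (hmem _).mp hL
    have h6 : (l : ℤ) ∣ c ^ 2 * u := hldz.trans h5
    have hlp : Prime (l : ℤ) := Nat.prime_iff_prime_int.mp hl
    rcases hlp.dvd_or_dvd h6 with h7 | h7
    · exact hγl (hlp.dvd_of_dvd_pow h7)
    · exact hlu (by exact_mod_cast h7)
  have : (1 : ℤ) ∈ H := (hmem 1).mpr hunit.dvd
  exact this

theorem dec_eq_top (h3 : 3 ∣ M) (hM : ∀ l : ℕ, l.Prime → l ∣ M → 3 * l ∣ M) : R.dec = ⊤ := by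
  rw [eq_top_iff, ← SpecialLinearGroup.SL2Z_generators, Subgroup.closure_le]
  have hT := R.T_mem_dec
  rintro _ (rfl | rfl)
  · rw [S_eq]
    exact R.dec.mul_mem (R.dec.mul_mem (R.dec.inv_mem hT) (R.Lz_mem_dec h3 hM)) (R.dec.inv_mem hT)
  · exact hT

/-- The `q`-expansion principle. -/
theorem qep (h3 : 3 ∣ M) (hM : ∀ l : ℕ, l.Prime → l ∣ M → 3 * l ∣ M)
    {x : SLZ → HahnSeries ℤ F} (hx : x ∈ R.ball) (h : x 1 = 0) : x = 0 := by
  ext1 γ
  have : γ ∈ R.dec := by rw [R.dec_eq_top h3 hM]; exact Subgroup.mem_top _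
  exact this x hx h

end RedData

end Pool.Agent.Lib.MP_24de68_nt
end
end

section

section

namespace Pool.Agent.Lib.MP_24de68_nt

open HahnSeries Matrix

section deg

variable {F : Type*} [Field F] [CharP F 2]

open Polynomial in
theorem no_poly_sol {u v : F[X]} (hv : v ≠ 0) (h : u ^ 2 + u * v = X * v ^ 2) : False := by
  have hu : u ≠ 0 := by
    rintro rfl
    have : (X : F[X]) * v ^ 2 ≠ 0 := mul_ne_zero X_ne_zero (pow_ne_zero _ hv)
    apply this
    rw [← h]; ring
  have hR : (X * v ^ 2 : F[X]).natDegree = 1 + 2 * v.natDegree := by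
    rw [natDegree_mul X_ne_zero (pow_ne_zero _ hv), natDegree_X, natDegree_pow]
  have hL : u ^ 2 + u * v = u * (u + v) := by ring
  have huv : u + v ≠ 0 := by
    intro h0
    rw [hL, h0, mul_zero] at h
    exact mul_ne_zero X_ne_zero (pow_ne_zero _ hv) h.symm
  have hL' : (u * (u + v)).natDegree = u.natDegree + (u + v).natDegree := natDegree_mul hu huv
  rw [← hL, h, hR] at hL'
  rcases lt_or_ge v.natDegree u.natDegree with h1 | h1
  · have : (u + v).natDegree = u.natDegree := natDegree_add_eq_left_of_natDegree_lt h1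
    omega
  · have : (u + v).natDegree ≤ v.natDegree := by
      refine (natDegree_add_le _ _).trans ?_
      simp [h1]
    omega

/-- Coefficients of powers of a root of `t² + t = D`. -/
noncomputable def abPoly (F : Type*) [Field F] : ℕ → Polynomial F × Polynomial F
  | 0 => (1, 0)
  | n + 1 => (Polynomial.X * (abPoly F n).2, (abPoly F n).1 + (abPoly F n).2)

theorem pow_eq_abPoly {D t : HahnSeries ℤ F} (ht : t ^ 2 + t = D) (n : ℕ) :
    t ^ n = Polynomial.eval₂ HahnSeries.C D (abPoly F n).1 +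
      Polynomial.eval₂ HahnSeries.C D (abPoly F n).2 * t := by
  have h2 : (2 : HahnSeries ℤ F) = 0 := CharTwo.two_eq_zero
  induction n with
  | zero => simp [abPoly]
  | succ n ih =>
    rw [pow_succ, ih]
    simp only [abPoly, Polynomial.eval₂_mul, Polynomial.eval₂_X, Polynomial.eval₂_add]
    linear_combination (Polynomial.eval₂ HahnSeries.C D (abPoly F n).2) * ht -
      (Polynomial.eval₂ HahnSeries.C D (abPoly F n).2 * t) * h2

end deg

namespace RedData

variable {F : Type*} [Field F] [CharP F 2] {M : ℕ} [NeZero M] (R : RedData F M)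

/-- Hypotheses on the level. -/
structure GoodLevel (M : ℕ) : Prop where
  odd : Odd M
  three : 3 ∣ M
  prime : ∀ l : ℕ, l.Prime → l ∣ M → 3 * l ∣ M

/-- The field of reductions. -/
noncomputable def KK : Subfield (HahnSeries ℤ F) :=
  Subfield.closure ((R.ball.map (Pi.evalRingHom (fun _ : SLZ => HahnSeries ℤ F) 1) :
    Subring (HahnSeries ℤ F)) : Set (HahnSeries ℤ F))

theorem mem_KK {z : HahnSeries ℤ F} : z ∈ R.KK ↔ ∃ x ∈ R.ball, ∃ y ∈ R.ball, x 1 / y 1 = z := by
  rw [KK, Subfield.mem_closure_iff, Subring.closure_eq]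
  constructor
  · rintro ⟨_, ⟨x, hx, rfl⟩, _, ⟨y, hy, rfl⟩, h⟩
    exact ⟨x, hx, y, hy, h⟩
  · rintro ⟨x, hx, y, hy, h⟩
    exact ⟨x 1, ⟨x, hx, rfl⟩, y 1, ⟨y, hy, rfl⟩, h⟩

theorem ev_mem_KK {x : SLZ → HahnSeries ℤ F} (hx : x ∈ R.ball) : x 1 ∈ R.KK :=
  Subfield.subset_closure ⟨x, hx, rfl⟩

theorem C_mem_KK (c : F) : (HahnSeries.C c : HahnSeries ℤ F) ∈ R.KK :=
  R.ev_mem_KK (R.ball_const c)

theorem D_mem_KK : Ds F M ∈ R.KK := R.ev_mem_KK (x := fun _ => Ds F M) ⟨3, R.D_mem⟩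

theorem Mpos : (0 : ℤ) < (M : ℤ) := by exact_mod_cast NeZero.pos M

theorem od_Ds (hM : GoodLevel M) : od (Ds F (M : ℤ)) = Ds F M := by
  have hodd : Odd (M : ℤ) := by exact_mod_cast hM.odd
  exact TowerData.od_D (T := towerData F hodd Mpos)

theorem ind_Ds (hM : GoodLevel M) (a b : HahnSeries ℤ F) (h : a ^ 2 + Ds F M * b ^ 2 = 0) :
    a = 0 ∧ b = 0 := by
  have h1 : od (a ^ 2 + Ds F M * b ^ 2) = Ds F M * b ^ 2 := by
    rw [od_add, od_sq, od_mul, od_sq, od_Ds hM]; ring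
  rw [h, od_zero] at h1
  have hD0 : Ds F (M : ℤ) ≠ 0 := (Ds_low Mpos).ne_zero one_ne_zero
  have hb : b = 0 := by
    have := mul_eq_zero.mp h1.symm
    exact pow_eq_zero_iff two_ne_zero |>.mp (this.resolve_left hD0)
  rw [hb] at h
  refine ⟨?_, hb⟩
  simpa using h

theorem eval₂_mem_adjoin (p : Polynomial F) :
    letI : Algebra F (HahnSeries ℤ F) := (HahnSeries.C : F →+* HahnSeries ℤ F).toAlgebra
    Polynomial.eval₂ HahnSeries.C (Ds F M) p ∈ IntermediateField.adjoin F {Ds F (M : ℤ)} := by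
  letI : Algebra F (HahnSeries ℤ F) := (HahnSeries.C : F →+* HahnSeries ℤ F).toAlgebra
  have h : Polynomial.eval₂ HahnSeries.C (Ds F (M : ℤ)) p = Polynomial.aeval (Ds F (M : ℤ)) p := rfl
  rw [h]
  have h1 := Polynomial.aeval_mem_adjoin_singleton F (Ds F (M : ℤ)) (p := p)
  exact IntermediateField.algebra_adjoin_le_adjoin F _ h1

theorem isIntegral_ev {x : SLZ → HahnSeries ℤ F} (hx : x ∈ R.ball) :
    letI : Algebra F (HahnSeries ℤ F) := (HahnSeries.C : F →+* HahnSeries ℤ F).toAlgebra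
    IsIntegral (IntermediateField.adjoin F {Ds F (M : ℤ)}) (x 1) := by
  letI : Algebra F (HahnSeries ℤ F) := (HahnSeries.C : F →+* HahnSeries ℤ F).toAlgebra
  obtain ⟨k, hk⟩ := hx
  set K₀ := IntermediateField.adjoin F {Ds F (M : ℤ)} with hK₀
  set Q : Polynomial (HahnSeries ℤ F) :=
    ∏ g : GQ M, (Polynomial.X + Polynomial.C (x g.out)) with hQ
  have hmonic : Q.Monic := Polynomial.monic_prod_of_monic _ _ (fun g _ => Polynomial.monic_X_add_C _)
  have hcard : Q.natDegree = Fintype.card (GQ M) := by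
    rw [hQ, Polynomial.natDegree_prod_of_monic _ _ (fun g _ => Polynomial.monic_X_add_C _)]
    simp
  have hlift : Q ∈ Polynomial.lifts (algebraMap K₀ (HahnSeries ℤ F)) := by
    rw [Polynomial.lifts_iff_coeff_lifts]
    intro n
    by_cases hn : n ≤ (Finset.univ : Finset (GQ M)).card
    · rw [hQ, Finset.prod_X_add_C_coeff _ _ hn]
      obtain ⟨p, _, hp⟩ := R.esymm hk ((Finset.univ : Finset (GQ M)).card - n)
      refine ⟨⟨_, eval₂_mem_adjoin p⟩, ?_⟩
      rw [hp]
      rfl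
    · rw [Polynomial.coeff_eq_zero_of_natDegree_lt]
      · exact ⟨0, map_zero _⟩
      · rw [hcard, ← Finset.card_univ]; omega
  obtain ⟨P, hP1, _, hP2⟩ := Polynomial.lifts_and_natDegree_eq_and_monic hlift hmonic
  refine ⟨P, hP2, ?_⟩
  rw [← Polynomial.eval_map, hP1, hQ, Polynomial.eval_prod]
  apply Finset.prod_eq_zero (Finset.mem_univ ((1 : SLZ) : GQ M))
  rw [Polynomial.eval_add, Polynomial.eval_X, Polynomial.eval_C, R.out_eq hk]
  exact hs_add_self _

theorem propQ_KK [PerfectRing F 2] (hM : GoodLevel M) : PropQ R.KK (Ds F (M : ℤ)) := by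
  letI : Algebra F (HahnSeries ℤ F) := (HahnSeries.C : F →+* HahnSeries ℤ F).toAlgebra
  refine propQ_of_algebraic (F := F) (ind_Ds hM) R.KK R.D_mem_KK R.C_mem_KK ?_
  intro z hz
  obtain ⟨x, hx, y, hy, rfl⟩ := R.mem_KK.mp hz
  have h1 := (R.isIntegral_ev hx).isAlgebraic
  have h2 := (R.isIntegral_ev hy).isAlgebraic
  rw [div_eq_mul_inv]
  exact h1.mul h2.inv

end RedData

end Pool.Agent.Lib.MP_24de68_nt
end

section

namespace Pool.Agent.Lib.MP_24de68_nt

open HahnSeries Matrix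

section

variable (F : Type*) [Field F] [CharP F 2]

/-- The first Artin-Schreier generator. -/
noncomputable def e0 (M : ℤ) : HahnSeries ℤ F := od (Hs F M 0) / Hs F M 0

variable {F}

theorem theta_supp {ι : Type*} {f : ι → ℤ} (hf : FinLow f) {M : ℤ} (h : ∀ i, M ∣ f i) {n : ℤ}
    (hn : (theta F f).coeff n ≠ 0) : M ∣ n := by
  rw [theta_coeff F hf] at hn
  by_contra hc
  apply hn
  have : {i | f i = n} = ∅ := by
    ext i
    simp only [Set.mem_ofPred_eq, Set.mem_empty_iff_false, iff_false]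
    rintro rfl
    exact hc (h i)
  rw [this]; simp

theorem tw_of_supp {u : Fˣ} {M : ℕ} (hu : u ^ M = 1) {x : HahnSeries ℤ F}
    (hx : ∀ n, x.coeff n ≠ 0 → (M : ℤ) ∣ n) : tw u x = x := by
  ext n
  rw [tw_coeff]
  by_cases h : x.coeff n = 0
  · rw [h, mul_zero]
  · obtain ⟨k, rfl⟩ := hx n h
    have : ((u : F)) ^ ((M : ℤ) * k) = 1 := by
      rw [_root_.zpow_mul, zpow_natCast, ← Units.val_pow_eq_pow_val, hu]
      simp
    rw [this, one_mul]

theorem tw_e0 {u : Fˣ} {M : ℕ} (hpos : 0 < (M : ℤ)) (hu : u ^ M = 1) :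
    tw u (e0 F M) = e0 F M := by
  have h1 : ∀ n, (Hs F (M : ℤ) 0).coeff n ≠ 0 → (M : ℤ) ∣ n := fun n hn =>
    theta_supp (hExp_finLow hpos 0) (fun k => ⟨_, rfl⟩) hn
  have h2 : ∀ n, (od (Hs F (M : ℤ) 0)).coeff n ≠ 0 → (M : ℤ) ∣ n := by
    intro n hn
    rw [od_coeff] at hn
    split_ifs at hn with h
    · exact h1 n hn
    · exact absurd rfl hn
  rw [e0, map_div₀, tw_of_supp hu h1, tw_of_supp hu h2]

theorem e0_sq {M : ℤ} (hM : Odd M) (hpos : 0 < M) : e0 F M ^ 2 + e0 F M = Ds F M :=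
  (towerData F hM hpos).h0

/-- `e0` has positive order. -/
theorem e0_low {M : ℤ} (hM : Odd M) (hpos : 0 < M) : ∃ n > 0, LowTerm (e0 F M) n 1 := by
  have hH : LowTerm (Hs F M 0) 0 1 := by
    constructor
    · rw [Hs, theta_coeff F (hExp_finLow hpos 0)]
      have : {k | hExp M (0 + 1) k = 0} = {0} := by
        ext k
        simp only [Set.mem_ofPred_eq, Set.mem_singleton_iff]
        constructor
        · intro h
          have := le_hExp hpos 0 k
          rw [h] at this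
          simpa using this
        · rintro rfl
          simp [hExp]
      rw [this]; simp
    · intro m hm
      rw [Hs, theta_coeff F (hExp_finLow hpos 0)]
      have : {k | hExp M (0 + 1) k = m} = ∅ := by
        ext k
        simp only [Set.mem_ofPred_eq, Set.mem_empty_iff_false, iff_false]
        intro h
        have h1 := le_hExp hpos 0 k
        have h2 := abs_nonneg k
        omega
      rw [this]; simp
  have hO : LowTerm (od (Hs F M 0)) M 1 := by
    constructor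
    · rw [od_coeff, if_pos hM, Hs, theta_coeff F (hExp_finLow hpos 0)]
      have : {k | hExp M (0 + 1) k = M} = {-1} := by
        ext k
        simp only [Set.mem_ofPred_eq, Set.mem_singleton_iff, hExp]
        constructor
        · intro h
          have h1 : (2 : ℤ) ^ (0 + 1) * k ^ 2 + k = 1 := by
            have : M * (2 ^ (0 + 1) * k ^ 2 + k) = M * 1 := by rw [h, mul_one]
            exact mul_left_cancel₀ hpos.ne' this
          have h2 : (2 * k - 1) * (k + 1) = 0 := by linear_combination h1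
          rcases mul_eq_zero.mp h2 with h | h <;> omega
        · rintro rfl
          ring
      rw [this]; simp
    · intro m hm
      rw [od_coeff]
      split_ifs with hodd
      · rw [Hs, theta_coeff F (hExp_finLow hpos 0)]
        have : {k | hExp M (0 + 1) k = m} = ∅ := by
          ext k
          simp only [Set.mem_ofPred_eq, Set.mem_empty_iff_false, iff_false, hExp]
          intro h
          have h0 : 0 ≤ (2 : ℤ) ^ (0 + 1) * k ^ 2 + k := by
            have := le_hExp (one_pos) 0 k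
            simp only [hExp, one_mul] at this
            exact (abs_nonneg k).trans this
          have h1 : (2 : ℤ) ^ (0 + 1) * k ^ 2 + k < 1 := by
            by_contra hc
            push Not at hc
            nlinarith
          have h2 : (2 : ℤ) ^ (0 + 1) * k ^ 2 + k = 0 := by omega
          rw [h2, mul_zero] at h
          rw [← h] at hodd
          exact absurd hodd (by decide)
        rw [this]; simp
      · rfl
  refine ⟨M, hpos, ?_⟩
  have := hO.div one_ne_zero hH one_ne_zero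
  simpa [e0] using this

end

namespace RedData

variable {F : Type*} [Field F] [CharP F 2] {M : ℕ} [NeZero M] (R : RedData F M)

theorem ball_ne_zero (hM : GoodLevel M) {x : SLZ → HahnSeries ℤ F} (hx : x ∈ R.ball)
    (h : x 1 ≠ 0) (γ : SLZ) : x γ ≠ 0 := by
  have : γ ∈ R.dec := by rw [R.dec_eq_top hM.three hM.prime]; exact Subgroup.mem_top _
  exact R.ne_zero_of_mem_dec this hx h

theorem norm_eq {x : SLZ → HahnSeries ℤ F} (hx : x ∈ R.ball) :
    ∃ p : Polynomial F, ∏ g : GQ M, x g.out = Polynomial.eval₂ HahnSeries.C (Ds F M) p := by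
  obtain ⟨k, hk⟩ := hx
  obtain ⟨p, _, hp⟩ := R.esymm hk (Finset.univ : Finset (GQ M)).card
  refine ⟨p, ?_⟩
  rw [← hp, Finset.powersetCard_self, Finset.sum_singleton]

theorem hom_trivial (φ : SLZ →* Multiplicative (ZMod 2)) (hT : φ ModularGroup.T = 1) (γ : SLZ) :
    φ γ = 1 := by
  have hS : φ ModularGroup.S = 1 := by
    have h1 : (ModularGroup.S * ModularGroup.T) ^ 3 = ModularGroup.S ^ 2 := by
      ext i j
      fin_cases i <;> fin_cases j <;> decide
    have h2 := congrArg φ h1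
    rw [map_pow, map_mul, hT, mul_one, map_pow, pow_succ] at h2
    simpa using h2
  have : γ ∈ Subgroup.closure {ModularGroup.S, ModularGroup.T} := by
    rw [SpecialLinearGroup.SL2Z_generators]; exact Subgroup.mem_top _
  have hle : Subgroup.closure {ModularGroup.S, ModularGroup.T} ≤ φ.ker := by
    rw [Subgroup.closure_le]
    rintro _ (rfl | rfl)
    · exact hS
    · exact hT
  exact hle this

theorem e0_notMem (hM : GoodLevel M) : e0 F (M : ℤ) ∉ R.KK := by
  have hodd : Odd (M : ℤ) := by exact_mod_cast hM.odd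
  have h2 : (2 : HahnSeries ℤ F) = 0 := CharTwo.two_eq_zero
  intro he
  set e := e0 F (M : ℤ) with hedef
  have hesq : e ^ 2 + e = Ds F M := e0_sq hodd Mpos
  obtain ⟨n₀, hn₀, hlow⟩ := e0_low (F := F) hodd Mpos
  have hD0 : Ds F (M : ℤ) ≠ 0 := (Ds_low Mpos).ne_zero one_ne_zero
  have he0 : e ≠ 0 := by
    intro h; apply hD0; rw [← hesq, h]; ring
  obtain ⟨x, hx, y, hy, hxy⟩ := R.mem_KK.mp he
  have hy1 : y 1 ≠ 0 := by
    intro h; apply he0; rw [← hxy, h, div_zero]
  have hx1 : x 1 = e * y 1 := by rw [← hxy]; field_simp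
  have hyγ : ∀ γ, y γ ≠ 0 := R.ball_ne_zero hM hy hy1
  have htwo : ∀ γ, x γ = e * y γ ∨ x γ = (e + 1) * y γ := by
    intro γ
    have hz : x * x + x * y + (fun _ => Ds F (M : ℤ)) * (y * y) ∈ R.ball :=
      R.ball.add_mem (R.ball.add_mem (R.ball.mul_mem hx hx) (R.ball.mul_mem hx hy))
        (R.ball.mul_mem ⟨3, R.D_mem⟩ (R.ball.mul_mem hy hy))
    have hz0 := R.qep hM.three hM.prime hz (by
      simp only [Pi.add_apply, Pi.mul_apply]
      rw [hx1]
      linear_combination (y 1 * y 1) * hesq + (y 1 * y 1 * Ds F (M : ℤ)) * h2)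
    have h3 := congrFun hz0 γ
    simp only [Pi.add_apply, Pi.mul_apply, Pi.zero_apply] at h3
    have h4 : (x γ - e * y γ) * (x γ - (e + 1) * y γ) = 0 := by
      linear_combination h3 - (x γ * y γ * (e + 1)) * h2 + (y γ * y γ) * hesq
    rcases mul_eq_zero.mp h4 with h | h
    · left; linear_combination h
    · right; linear_combination h
  have hex : ∀ γ, ¬ (x γ = e * y γ ∧ x γ = (e + 1) * y γ) := by
    rintro γ ⟨h3, h4⟩
    apply hyγ γ
    linear_combination h3 - h4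
  classical
  let s : SLZ → ZMod 2 := fun γ => if x γ = e * y γ then 0 else 1
  have hs0 : ∀ γ, x γ = e * y γ → s γ = 0 := fun γ h => if_pos h
  have hs1 : ∀ γ, x γ = (e + 1) * y γ → s γ = 1 := fun γ h =>
    if_neg (fun h' => hex γ ⟨h', h⟩)
  have hkey0 : ∀ γ, x γ = e * y γ → ∀ δ, x (γ * δ) * y δ = x δ * y (γ * δ) := by
    intro γ h δ
    have hz : (fun δ => x (γ * δ)) * y + x * (fun δ => y (γ * δ)) ∈ R.ball :=
      R.ball.add_mem (R.ball.mul_mem (R.ball_translate hx γ) hy)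
        (R.ball.mul_mem hx (R.ball_translate hy γ))
    have hz0 := R.qep hM.three hM.prime hz (by
      simp only [Pi.add_apply, Pi.mul_apply, mul_one]
      rw [hx1, h]
      linear_combination (e * y γ * y 1) * h2)
    have h3 := congrFun hz0 δ
    simp only [Pi.add_apply, Pi.mul_apply, Pi.zero_apply] at h3
    linear_combination h3 - (x δ * y (γ * δ)) * h2
  have hkey1 : ∀ γ, x γ = (e + 1) * y γ → ∀ δ, x (γ * δ) * y δ = x δ * y (γ * δ) +
      y δ * y (γ * δ) := by
    intro γ h δ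
    have hz : (fun δ => x (γ * δ)) * y + x * (fun δ => y (γ * δ)) + y * (fun δ => y (γ * δ)) ∈
        R.ball :=
      R.ball.add_mem (R.ball.add_mem (R.ball.mul_mem (R.ball_translate hx γ) hy)
        (R.ball.mul_mem hx (R.ball_translate hy γ))) (R.ball.mul_mem hy (R.ball_translate hy γ))
    have hz0 := R.qep hM.three hM.prime hz (by
      simp only [Pi.add_apply, Pi.mul_apply, mul_one]
      rw [hx1, h]
      linear_combination ((e + 1) * y γ * y 1) * h2)
    have h3 := congrFun hz0 δ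
    simp only [Pi.add_apply, Pi.mul_apply, Pi.zero_apply] at h3
    linear_combination h3 - (x δ * y (γ * δ) + y δ * y (γ * δ)) * h2
  have hone : (1 : ZMod 2) + 1 = 0 := by decide
  have hsmul : ∀ γ δ, s (γ * δ) = s γ + s δ := by
    intro γ δ
    rcases htwo γ with h3 | h3
    · have h4 := hkey0 γ h3 δ
      rw [hs0 γ h3, zero_add]
      rcases htwo δ with h5 | h5
      · rw [hs0 δ h5]
        apply hs0
        apply mul_right_cancel₀ (hyγ δ)
        rw [h4, h5]; ring
      · rw [hs1 δ h5]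
        apply hs1
        apply mul_right_cancel₀ (hyγ δ)
        rw [h4, h5]; ring
    · have h4 := hkey1 γ h3 δ
      rw [hs1 γ h3]
      rcases htwo δ with h5 | h5
      · rw [hs0 δ h5, add_zero]
        apply hs1
        apply mul_right_cancel₀ (hyγ δ)
        rw [h4, h5]; ring
      · rw [hs1 δ h5, hone]
        apply hs0
        apply mul_right_cancel₀ (hyγ δ)
        rw [h4, h5]
        linear_combination (y δ * y (γ * δ)) * h2
  have hs1' : s 1 = 0 := hs0 1 hx1
  let φ : SLZ →* Multiplicative (ZMod 2) :=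
    { toFun := fun γ => Multiplicative.ofAdd (s γ)
      map_one' := by rw [hs1']; rfl
      map_mul' := fun γ δ => by rw [hsmul]; rfl }
  have hφT : φ ModularGroup.T = 1 := by
    show Multiplicative.ofAdd (s ModularGroup.T) = 1
    obtain ⟨k, hk⟩ := hx
    obtain ⟨l, hl⟩ := hy
    have h3 := R.tau_T hk 1
    have h4 := R.tau_T hl 1
    rw [one_mul] at h3 h4
    rw [hs0 _ (by
      rw [h3, h4, hx1, map_mul, hedef, tw_e0 Mpos R.omega_pow])]
    rfl
  have hall : ∀ γ, x γ = e * y γ := by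
    intro γ
    have h3 : Multiplicative.ofAdd (s γ) = 1 := hom_trivial φ hφT γ
    rcases htwo γ with h4 | h4
    · exact h4
    · rw [hs1 γ h4] at h3
      exact absurd h3 (by decide)
  obtain ⟨p, hp⟩ := R.norm_eq hx
  obtain ⟨r, hr⟩ := R.norm_eq hy
  set n := Fintype.card (GQ M) with hn
  have hn1 : 0 < n := Fintype.card_pos_iff.mpr ⟨((1 : SLZ) : GQ M)⟩
  have hnorm : Polynomial.eval₂ HahnSeries.C (Ds F (M : ℤ)) p =
      e ^ n * Polynomial.eval₂ HahnSeries.C (Ds F (M : ℤ)) r := by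
    rw [← hp, ← hr]
    have : ∀ g : GQ M, x g.out = e * y g.out := fun g => hall _
    rw [Finset.prod_congr rfl (fun g _ => this g), Finset.prod_mul_distrib, Finset.prod_const,
      Finset.card_univ]
  have hr0 : r ≠ 0 := by
    rintro rfl
    rw [Polynomial.eval₂_zero] at hr
    exact Finset.prod_ne_zero_iff.mpr (fun g _ => hyγ _) hr
  have heval : ∀ q : Polynomial F, q ≠ 0 → Polynomial.eval₂ HahnSeries.C (Ds F (M : ℤ)) q ≠ 0 := by
    intro q hq
    obtain ⟨j, _, hj, hl⟩ := lowTerm_eval₂ (Mpos (M := M)) (Ds_low (F := F) (Mpos (M := M))) hq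
    exact hl.ne_zero hj
  have hen := pow_eq_abPoly hesq n
  set A := (abPoly F n).1 with hA
  set B := (abPoly F n).2 with hB
  by_cases hB0 : B = 0
  · -- `e ^ n = (e + 1) ^ n`
    have h3 : (e + 1) ^ 2 + (e + 1) = Ds F (M : ℤ) := by
      linear_combination hesq + (e + 1) * h2
    have h4 := pow_eq_abPoly h3 n
    rw [← hA, ← hB, hB0, Polynomial.eval₂_zero, zero_mul, add_zero] at h4
    rw [hB0, Polynomial.eval₂_zero, zero_mul, add_zero] at hen
    have h5 : e ^ n = (e + 1) ^ n := by rw [hen, h4]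
    have h6 := hlow.pow n
    have h7 : LowTerm (e + 1) 0 1 := by
      constructor
      · rw [coeff_add, hlow.2 0 hn₀, coeff_one]; simp
      · intro m hm
        rw [coeff_add, hlow.2 m (by omega), coeff_one, if_neg hm.ne, add_zero]
    have h8 := h7.pow n
    rw [← h5] at h8
    have h9 := (h6.unique h8 (by simp) (by simp)).1
    have : (0 : ℤ) < n * n₀ := by positivity
    rw [mul_zero] at h9
    omega
  · -- `e` would be a rational function of `D`
    have h3 : e * Polynomial.eval₂ HahnSeries.C (Ds F (M : ℤ)) (B * r) =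
        Polynomial.eval₂ HahnSeries.C (Ds F (M : ℤ)) (p + A * r) := by
      rw [Polynomial.eval₂_mul, Polynomial.eval₂_add, Polynomial.eval₂_mul, hnorm, hen]
      linear_combination (-(Polynomial.eval₂ HahnSeries.C (Ds F (M : ℤ)) A *
        Polynomial.eval₂ HahnSeries.C (Ds F (M : ℤ)) r)) * h2
    set v := B * r with hv
    set u := p + A * r with hu
    have hv0 : v ≠ 0 := mul_ne_zero hB0 hr0
    clear_value u v
    apply no_poly_sol (F := F) hv0 (u := u)
    by_contra hne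
    apply heval _ (sub_ne_zero.mpr hne)
    simp only [Polynomial.eval₂_sub, Polynomial.eval₂_add, Polynomial.eval₂_mul,
      Polynomial.eval₂_pow, Polynomial.eval₂_X]
    rw [← h3, ← hesq]
    ring

end RedData

end Pool.Agent.Lib.MP_24de68_nt
end

section

namespace Pool.Agent.Lib.MP_24de68_nt

open HahnSeries Matrix

namespace RedData

section general

variable {F : Type*} [Field F] [CharP F 2] {M : ℕ} [NeZero M] (R : RedData F M)

theorem V_chi' (γ : SLZ) (m m' : Matrix (Fin 2) (Fin 2) ℤ) (hm : 0 < m.det) (hmM : 3 * m.det ∣ M)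
    (h : (γ : Matrix (Fin 2) (Fin 2) ℤ) * m = m') :
    R.V m' = HahnSeries.C ((R.ω ^ (((M / 3 : ℕ) : ℤ) * psi γ) : Fˣ) : F) * R.V m := by
  rw [← h]; exact R.V_chi γ m hm hmM

theorem V_upper_low (a : ℕ) (b : ℤ) (d s t : ℕ) (hs : 0 < s) (ha : 0 < a) (hd : 0 < d)
    (h1 : s * (3 * d) = a * M) (h2 : t * (3 * d) = M) (h3 : 3 * (a * d) ∣ M) :
    LowTerm (R.V !![(a : ℤ), b; 0, (d : ℤ)]) s ((R.ω ^ ((t : ℤ) * b) : Fˣ) : F) := by
  rw [R.V_upper a b d s t hs ha hd h1 h2 h3]
  have := ((Th_low (F := F)).tw (R.ω ^ ((t : ℤ) * b))).scale hs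
  simpa using this

theorem V_low (m : Matrix (Fin 2) (Fin 2) ℤ) (hdet : 0 < m.det) (k : ℕ)
    (hk : 3 * m.det * k = M) :
    ∃ c, c ≠ 0 ∧ LowTerm (R.V m) ((Int.gcd (m 0 0) (m 1 0) : ℤ) ^ 2 * k) c := by
  have hdiv : 3 * m.det ∣ (M : ℤ) := ⟨k, hk.symm⟩
  set g := Int.gcd (m 0 0) (m 1 0) with hg
  have hdet' := hdet
  rw [det_fin_two] at hdet'
  have hg0 : 0 < g := by
    rw [hg]
    rcases Nat.eq_zero_or_pos (Int.gcd (m 0 0) (m 1 0)) with h | h
    · rw [Int.gcd_eq_zero_iff] at h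
      rw [h.1, h.2] at hdet'
      simp at hdet'
    · exact h
  have hbez := Int.gcd_eq_gcd_ab (m 0 0) (m 1 0)
  rw [← hg] at hbez
  set x := Int.gcdA (m 0 0) (m 1 0)
  set y := Int.gcdB (m 0 0) (m 1 0)
  obtain ⟨p, hp⟩ : (g : ℤ) ∣ m 0 0 := Int.gcd_dvd_left _ _
  obtain ⟨r, hr⟩ : (g : ℤ) ∣ m 1 0 := Int.gcd_dvd_right _ _
  have hgz : (0 : ℤ) < g := by exact_mod_cast hg0
  have hxy : x * p + y * r = 1 := by
    have : (g : ℤ) * (x * p + y * r) = g * 1 := by
      rw [hp, hr] at hbez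
      linear_combination -hbez
    exact mul_left_cancel₀ hgz.ne' this
  have hSL : x * p - y * (-r) = 1 := by linear_combination hxy
  set γ := mkSL x y (-r) p hSL with hγ
  set b := x * m 0 1 + y * m 1 1 with hb
  set d := p * m 1 1 - r * m 0 1 with hd
  have hgd : (g : ℤ) * d = m.det := by
    rw [det_fin_two, hd, hp, hr]; ring
  have hdpos : 0 < d := by
    by_contra hc
    push Not at hc
    have := mul_nonpos_of_nonneg_of_nonpos hgz.le hc
    rw [hgd] at this
    omega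
  obtain ⟨dn, hdn⟩ := Int.eq_ofNat_of_zero_le hdpos.le
  have hdn0 : 0 < dn := by
    have : (0 : ℤ) < dn := by rw [← hdn]; exact hdpos
    exact_mod_cast this
  have hmul : (γ : Matrix (Fin 2) (Fin 2) ℤ) * m = !![(g : ℤ), b; 0, (dn : ℤ)] := by
    rw [hγ, mkSL_coe]
    ext i j
    fin_cases i <;> fin_cases j <;> simp [Matrix.mul_apply, Fin.sum_univ_two]
    · linear_combination -hbez
    · rfl
    · linear_combination (-r) * hp + p * hr
    · linear_combination hdn
  have hMeq : 3 * ((g : ℤ) * dn) * k = M := by rw [← hk, ← hgd, hdn]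
  have hMn : 3 * (g * dn) * k = M := by exact_mod_cast hMeq
  have hk0 : 0 < k := by
    rcases Nat.eq_zero_or_pos k with h | h
    · exfalso
      rw [h, mul_zero] at hMn
      exact (NeZero.ne M) hMn.symm
    · exact h
  have hs0 : 0 < g ^ 2 * k := by positivity
  have hlow := R.V_upper_low g b dn (g ^ 2 * k) (g * k) hs0 hg0 hdn0 (by rw [← hMn]; ring)
    (by rw [← hMn]; ring) ⟨k, hMn.symm⟩
  have hV := R.V_chi' γ m _ hdet hdiv hmul
  set u := (R.ω ^ (((M / 3 : ℕ) : ℤ) * psi γ) : Fˣ) with hu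
  have hVm : R.V m = HahnSeries.C ((u⁻¹ : Fˣ) : F) * R.V !![(g : ℤ), b; 0, (dn : ℤ)] := by
    rw [hV, ← mul_assoc, ← map_mul, ← Units.val_mul, inv_mul_cancel]
    simp
  refine ⟨((u⁻¹ : Fˣ) : F) * ((R.ω ^ (((g * k : ℕ) : ℤ) * b) : Fˣ) : F),
    mul_ne_zero (Units.ne_zero _) (Units.ne_zero _), ?_⟩
  rw [hVm]
  have := hlow.C_mul ((u⁻¹ : Fˣ) : F)
  convert this using 1
  push_cast; ring

/-- Transfer of a vanishing relation by an element of the modular group. -/
theorem transfer (hM : GoodLevel M) (N : ℕ) (v v' : ℕ → SLZ → HahnSeries ℤ F)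
    (hv : ∀ j, v j ∈ R.ball) (hv' : ∀ j, v' j ∈ R.ball) (hne : ∀ j γ, v' j γ ≠ 0) (c : ℕ → F)
    (h : ∑ j ∈ Finset.range N, HahnSeries.C (c j) * (v j 1 ^ 2 / v' j 1) = 0) (γ : SLZ) :
    ∑ j ∈ Finset.range N, HahnSeries.C (c j) * (v j γ ^ 2 / v' j γ) = 0 := by
  classical
  set Z : SLZ → HahnSeries ℤ F := ∑ j ∈ Finset.range N,
    (fun _ => HahnSeries.C (c j)) * (v j ^ 2 * ∏ i ∈ (Finset.range N).erase j, v' i) with hZ
  have hZb : Z ∈ R.ball := by
    refine R.ball.sum_mem (fun j _ => ?_)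
    exact R.ball.mul_mem (R.ball_const _) (R.ball.mul_mem (R.ball.pow_mem (hv j) 2)
      (R.ball.prod_mem (fun i _ => hv' i)))
  have hZγ : ∀ γ, Z γ = (∑ j ∈ Finset.range N, HahnSeries.C (c j) * (v j γ ^ 2 / v' j γ)) *
      ∏ i ∈ Finset.range N, v' i γ := by
    intro γ
    rw [hZ, Finset.sum_apply, Finset.sum_mul]
    apply Finset.sum_congr rfl
    intro j hj
    rw [Pi.mul_apply, Pi.mul_apply, Pi.pow_apply, Finset.prod_apply,
      ← Finset.mul_prod_erase _ _ hj]
    have := hne j γ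
    field_simp
  have hZ0 : Z = 0 := R.qep hM.three hM.prime hZb (by rw [hZγ, h, zero_mul])
  have h1 := hZγ γ
  rw [hZ0, Pi.zero_apply] at h1
  exact (mul_eq_zero.mp h1.symm).resolve_right (Finset.prod_ne_zero_iff.mpr (fun i _ => hne i γ))

end general

end RedData

end Pool.Agent.Lib.MP_24de68_nt
end

section

namespace Pool.Agent.Lib.MP_24de68_nt

open HahnSeries Matrix

section

variable {F : Type*} [Field F]

theorem coeff_sum_hs {ι : Type*} (s : Finset ι) (f : ι → HahnSeries ℤ F) (n : ℤ) :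
    (∑ i ∈ s, f i).coeff n = ∑ i ∈ s, (f i).coeff n := by
  classical
  induction s using Finset.induction_on with
  | empty => simp
  | insert a s ha ih => rw [Finset.sum_insert ha, Finset.sum_insert ha, coeff_add, ih]

variable [CharP F 2]

theorem comp_coeff {N : ℕ} (hN : Odd N) {ξ : Fˣ} (hξ : IsPrimitiveRoot ξ (3 * N))
    {X : HahnSeries ℤ F} {n₀ : ℤ} (hX : ∀ n, X.coeff n ≠ 0 → (3 : ℤ) ∣ n - n₀) {s : ℕ}
    (hs : 0 < s) (n : ℤ) :
    (∑ j ∈ Finset.range N, HahnSeries.C ((ξ ^ (-(j : ℤ) * n₀) : Fˣ) : F) *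
      scale s hs (tw (ξ ^ j) X)).coeff (s * n) =
      if ((3 * N : ℕ) : ℤ) ∣ n - n₀ then X.coeff n else 0 := by
  rw [coeff_sum_hs]
  have h1 : ∀ j ∈ Finset.range N, (HahnSeries.C ((ξ ^ (-(j : ℤ) * n₀) : Fˣ) : F) *
      scale s hs (tw (ξ ^ j) X)).coeff (s * n) =
      ((ξ ^ (n - n₀) : Fˣ) : F) ^ j * X.coeff n := by
    intro j _
    rw [C_mul_eq_smul, coeff_smul, smul_eq_mul, scale_coeff, tw_coeff, ← mul_assoc]
    congr 1
    rw [← Units.val_zpow_eq_zpow_val, ← Units.val_mul, ← Units.val_pow_eq_pow_val]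
    congr 1
    rw [← zpow_natCast, ← zpow_natCast, ← _root_.zpow_mul, ← _root_.zpow_mul, ← _root_.zpow_add]
    congr 1
    ring
  rw [Finset.sum_congr rfl h1, ← Finset.sum_mul]
  by_cases hX0 : X.coeff n = 0
  · rw [hX0, mul_zero]; simp
  · have h3 := hX n hX0
    split_ifs with hdiv
    · have : ξ ^ (n - n₀) = 1 := (hξ.zpow_eq_one_iff_dvd _).mpr hdiv
      rw [this]
      simp only [Units.val_one, one_pow, Finset.sum_const, Finset.card_range, nsmul_eq_mul, mul_one]
      obtain ⟨k, rfl⟩ := hN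
      push_cast
      rw [CharTwo.two_eq_zero, zero_mul, zero_add, one_mul]
    · have hne : ((ξ ^ (n - n₀) : Fˣ) : F) ≠ 1 := by
        intro h
        apply hdiv
        rw [← hξ.zpow_eq_one_iff_dvd]
        exact Units.ext h
      have hpow : ((ξ ^ (n - n₀) : Fˣ) : F) ^ N = 1 := by
        rw [← Units.val_pow_eq_pow_val, ← zpow_natCast, ← _root_.zpow_mul]
        obtain ⟨k, hk⟩ := h3
        have : ξ ^ ((n - n₀) * (N : ℤ)) = 1 := by
          rw [hξ.zpow_eq_one_iff_dvd]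
          exact ⟨k, by rw [hk]; push_cast; ring⟩
        rw [this]; rfl
      have hgeom := mul_geom_sum ((ξ ^ (n - n₀) : Fˣ) : F) N
      rw [hpow, sub_self] at hgeom
      rw [(mul_eq_zero.mp hgeom).resolve_left (sub_ne_zero.mpr hne), zero_mul]

end

/-- The upper triangular matrices `(N j; 0 N)`. -/
def mj (N : ℕ) (j : ℕ) : Matrix (Fin 2) (Fin 2) ℤ := !![(N : ℤ), (j : ℤ); 0, (N : ℤ)]

/-- The upper triangular matrices `(3N 3j; 0 N)`. -/
def mj' (N : ℕ) (j : ℕ) : Matrix (Fin 2) (Fin 2) ℤ := !![((3 * N : ℕ) : ℤ), 3 * (j : ℤ); 0, (N : ℤ)]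

theorem goodLevel {N : ℕ} (hN : Odd N) (h3 : 3 ∣ N) : RedData.GoodLevel (9 * N ^ 2) where
  odd := by
    apply Odd.mul
    · decide
    · exact hN.pow
  three := ⟨3 * N ^ 2, by ring⟩
  prime := by
    intro l hl hlM
    have hlN : l ∣ N := by
      rcases (Nat.Prime.dvd_mul hl).mp hlM with h | h
      · have h9 : (9 : ℕ) = 3 ^ 2 := by norm_num
        rw [h9] at h
        have := hl.dvd_of_dvd_pow h
        exact this.trans h3
      · exact hl.dvd_of_dvd_pow h
    obtain ⟨k, rfl⟩ := hlN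
    exact ⟨3 * l * k ^ 2, by ring⟩

namespace RedData

variable {F : Type*} [Field F] [CharP F 2] {N : ℕ} [NeZero (9 * N ^ 2)]
  (R : RedData F (9 * N ^ 2))

theorem Npos (N : ℕ) [h : NeZero (9 * N ^ 2)] : 0 < N := by
  rcases Nat.eq_zero_or_pos N with h0 | h0
  · exfalso
    apply h.out
    rw [h0]; norm_num
  · exact h0

theorem det_mj (j : ℕ) (γ : SLZ) : (mj N j * (γ : Matrix (Fin 2) (Fin 2) ℤ)).det = (N : ℤ) ^ 2 := by
  rw [det_mul, γ.det_coe, mj, det_fin_two_of]; ring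

theorem det_mj' (j : ℕ) (γ : SLZ) :
    (mj' N j * (γ : Matrix (Fin 2) (Fin 2) ℤ)).det = 3 * (N : ℤ) ^ 2 := by
  rw [det_mul, γ.det_coe, mj', det_fin_two_of]; push_cast; ring

/-- The function attached to `mj`. -/
noncomputable def vj (j : ℕ) : SLZ → HahnSeries ℤ F := fun γ => R.V (mj N j * (γ : Matrix (Fin 2) (Fin 2) ℤ))

/-- The function attached to `mj'`. -/
noncomputable def vj' (j : ℕ) : SLZ → HahnSeries ℤ F :=
  fun γ => R.V (mj' N j * (γ : Matrix (Fin 2) (Fin 2) ℤ))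

theorem vj_mem (j : ℕ) : R.vj j ∈ R.ball := by
  have hN := Npos N
  refine ⟨1, R.V_mem _ ?_ ?_⟩
  · have := det_mj (N := N) j 1
    simp only [Matrix.SpecialLinearGroup.coe_one, mul_one] at this
    rw [this]; positivity
  · have := det_mj (N := N) j 1
    simp only [Matrix.SpecialLinearGroup.coe_one, mul_one] at this
    rw [this]
    exact ⟨3, by push_cast; ring⟩

theorem vj'_mem (j : ℕ) : R.vj' j ∈ R.ball := by
  have hN := Npos N
  refine ⟨1, R.V_mem _ ?_ ?_⟩
  · have := det_mj' (N := N) j 1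
    simp only [Matrix.SpecialLinearGroup.coe_one, mul_one] at this
    rw [this]; positivity
  · have := det_mj' (N := N) j 1
    simp only [Matrix.SpecialLinearGroup.coe_one, mul_one] at this
    rw [this]
    exact ⟨1, by push_cast; ring⟩

theorem vj_low (j : ℕ) (γ : SLZ) : ∃ c, c ≠ 0 ∧ LowTerm (R.vj j γ)
    ((Int.gcd ((mj N j * (γ : Matrix (Fin 2) (Fin 2) ℤ)) 0 0)
      ((mj N j * (γ : Matrix (Fin 2) (Fin 2) ℤ)) 1 0) : ℤ) ^ 2 * 3) c := by
  have hN := Npos N
  refine R.V_low _ ?_ 3 ?_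
  · rw [det_mj]; positivity
  · rw [det_mj]; push_cast; ring

theorem vj'_low (j : ℕ) (γ : SLZ) : ∃ c, c ≠ 0 ∧ LowTerm (R.vj' j γ)
    ((Int.gcd ((mj' N j * (γ : Matrix (Fin 2) (Fin 2) ℤ)) 0 0)
      ((mj' N j * (γ : Matrix (Fin 2) (Fin 2) ℤ)) 1 0) : ℤ) ^ 2) c := by
  have hN := Npos N
  have := R.V_low (mj' N j * (γ : Matrix (Fin 2) (Fin 2) ℤ)) (by rw [det_mj']; positivity) 1
    (by rw [det_mj']; push_cast; ring)
  rw [Nat.cast_one, mul_one] at this
  exact this

theorem vj_ne (j : ℕ) (γ : SLZ) : R.vj j γ ≠ 0 := by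
  obtain ⟨c, hc, h⟩ := R.vj_low j γ
  exact h.ne_zero hc

theorem vj'_ne (j : ℕ) (γ : SLZ) : R.vj' j γ ≠ 0 := by
  obtain ⟨c, hc, h⟩ := R.vj'_low j γ
  exact h.ne_zero hc

/-- The root of unity of order `3 N`. -/
noncomputable def xi : Fˣ := R.ω ^ (3 * N)

theorem hξ : IsPrimitiveRoot R.xi (3 * N) := by
  have h : 9 * N ^ 2 = (3 * N) * (3 * N) := by ring
  have hpos : 0 < 9 * N ^ 2 := Nat.pos_of_ne_zero (NeZero.ne _)
  exact R.hω.pow hpos h

theorem sN_pos (N : ℕ) [NeZero (9 * N ^ 2)] : 0 < 3 * N ^ 2 := by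
  have := Npos N
  positivity

theorem vj_one (j : ℕ) : R.vj j 1 = scale (3 * N ^ 2) (sN_pos N) (tw (R.xi ^ j) (Th F)) := by
  have hN := Npos N
  have h := R.V_upper N j N (3 * N ^ 2) (3 * N) (sN_pos N) hN hN (by ring) (by ring) ⟨3, by ring⟩
  rw [vj, Matrix.SpecialLinearGroup.coe_one, mul_one, mj, h]
  congr 2
  rw [xi, ← pow_mul, ← zpow_natCast]
  push_cast; rfl

theorem vj'_one (j : ℕ) :
    R.vj' j 1 = scale (3 * N ^ 2) (sN_pos N) (tw (R.xi ^ j) (scale 3 (by norm_num) (Th F))) := by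
  have hN := Npos N
  have hs : 0 < 9 * N ^ 2 := by positivity
  have h := R.V_upper (3 * N) (3 * j) N (9 * N ^ 2) (3 * N) hs (by positivity) hN (by ring)
    (by ring) ⟨1, by ring⟩
  rw [vj', Matrix.SpecialLinearGroup.coe_one, mul_one, mj', h, tw_scale, scale_scale]
  have h2 : 9 * N ^ 2 = 3 * N ^ 2 * 3 := by ring
  have h3 : R.ω ^ (((3 * N : ℕ) : ℤ) * (3 * (j : ℤ))) = (R.xi ^ j) ^ 3 := by
    rw [xi, ← pow_mul, ← pow_mul, ← zpow_natCast]
    congr 1
    push_cast; ring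
  rw [h3]
  congr 2

end RedData

end Pool.Agent.Lib.MP_24de68_nt
end

section

namespace Pool.Agent.Lib.MP_24de68_nt

open HahnSeries Matrix

theorem mj_L (N j : ℕ) : (mj N j * ((Lz 1 : SLZ) : Matrix (Fin 2) (Fin 2) ℤ)) =
    !![(N : ℤ) + j, j; N, N] := by
  ext a b
  fin_cases a <;> fin_cases b <;> simp [mj, Lz, Matrix.mul_apply, Fin.sum_univ_two]

theorem mj'_L (N j : ℕ) : (mj' N j * ((Lz 1 : SLZ) : Matrix (Fin 2) (Fin 2) ℤ)) =
    !![3 * (N : ℤ) + 3 * j, 3 * j; N, N] := by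
  ext a b
  fin_cases a <;> fin_cases b <;> simp [mj', Lz, Matrix.mul_apply, Fin.sum_univ_two]

namespace RedData

variable {F : Type*} [Field F] [CharP F 2] {N : ℕ} [NeZero (9 * N ^ 2)]
  (R : RedData F (9 * N ^ 2))

theorem vj_L_low (j : ℕ) : ∃ c, c ≠ 0 ∧ LowTerm (R.vj j (Lz 1))
    (((Nat.gcd (N + j) N : ℕ) : ℤ) ^ 2 * 3) c := by
  have := R.vj_low j (Lz 1)
  rw [mj_L] at this
  simp only [of_apply, cons_val', cons_val_zero, cons_val_one, cons_val_fin_one] at this
  have h : Int.gcd ((N : ℤ) + j) N = Nat.gcd (N + j) N := by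
    rw [← Nat.cast_add, Int.gcd_natCast_natCast]
  rwa [h] at this

theorem vj'_L_low (j : ℕ) : ∃ c, c ≠ 0 ∧ LowTerm (R.vj' j (Lz 1))
    (((Nat.gcd (3 * (N + j)) N : ℕ) : ℤ) ^ 2) c := by
  have := R.vj'_low j (Lz 1)
  rw [mj'_L] at this
  simp only [of_apply, cons_val', cons_val_zero, cons_val_one, cons_val_fin_one] at this
  have h : Int.gcd (3 * (N : ℤ) + 3 * j) N = Nat.gcd (3 * (N + j)) N := by
    rw [← Int.gcd_natCast_natCast]
    push_cast
    congr 1
    ring
  rwa [h] at this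

/-- The case of the quotient `η(3z)^16 / η(z)^8`. -/
theorem nonvanish_Q (hM : GoodLevel (9 * N ^ 2)) (c : ℕ → F) (hc : c 0 ≠ 0)
    (h : ∑ j ∈ Finset.range N, HahnSeries.C (c j) * (R.vj' j 1 ^ 2 / R.vj j 1) = 0) : False := by
  have hN := Npos N
  have h1 := R.transfer hM N R.vj' R.vj R.vj'_mem R.vj_mem R.vj_ne c h (Lz 1)
  have h2 := congrArg (fun x => HahnSeries.coeff x (-(N : ℤ) ^ 2)) h1
  simp only [coeff_sum_hs, coeff_zero] at h2
  rw [Finset.sum_eq_single 0] at h2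
  · obtain ⟨a, ha, hla⟩ := R.vj'_L_low 0
    obtain ⟨b, hb, hlb⟩ := R.vj_L_low 0
    have e1 : Nat.gcd (3 * (N + 0)) N = N := by
      rw [add_zero]; exact Nat.gcd_eq_right (dvd_mul_left N 3)
    have e2 : Nat.gcd (N + 0) N = N := by rw [add_zero]; exact Nat.gcd_self N
    rw [e1] at hla
    rw [e2] at hlb
    have h3 := ((hla.pow 2).div (pow_ne_zero 2 ha) hlb hb).C_mul (c 0)
    have e3 : ((2 : ℕ) : ℤ) * (N : ℤ) ^ 2 - (N : ℤ) ^ 2 * 3 = -(N : ℤ) ^ 2 := by push_cast; ring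
    rw [e3] at h3
    rw [h3.1] at h2
    exact mul_ne_zero hc (div_ne_zero (pow_ne_zero 2 ha) hb) h2
  · intro j hj hj0
    rw [Finset.mem_range] at hj
    obtain ⟨a, ha, hla⟩ := R.vj'_L_low j
    obtain ⟨b, hb, hlb⟩ := R.vj_L_low j
    set g := Nat.gcd (N + j) N with hg
    set g' := Nat.gcd (3 * (N + j)) N with hg'
    have h3 := ((hla.pow 2).div (pow_ne_zero 2 ha) hlb hb).C_mul (c j)
    apply h3.2
    have hgg : g ≤ g' := by
      apply Nat.le_of_dvd (Nat.gcd_pos_of_pos_right _ hN)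
      exact Nat.dvd_gcd ((Nat.gcd_dvd_left _ _).mul_left 3) (Nat.gcd_dvd_right _ _)
    have hgN : g < N := by
      have hle : g ≤ N := Nat.le_of_dvd hN (Nat.gcd_dvd_right _ _)
      rcases hle.eq_or_lt with h | h
      · exfalso
        have h4 : N ∣ N + j := by
          have := Nat.gcd_dvd_left (N + j) N
          rw [← hg, h] at this
          exact this
        have h5 : N ∣ j := (Nat.dvd_add_right (dvd_refl N)).mp h4
        have := Nat.le_of_dvd (Nat.pos_of_ne_zero hj0) h5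
        omega
      · exact h
    have i1 : (g : ℤ) ≤ g' := by exact_mod_cast hgg
    have i2 : (g : ℤ) < N := by exact_mod_cast hgN
    have i3 : (0 : ℤ) ≤ g := Int.natCast_nonneg _
    push_cast
    nlinarith
  · intro h3
    exfalso; apply h3
    rw [Finset.mem_range]; exact hN

end RedData

section P

variable {F : Type*} [Field F] [CharP F 2] {N' : ℕ} [NeZero (9 * (3 * N') ^ 2)]
  (R : RedData F (9 * (3 * N') ^ 2))

theorem N'pos (N' : ℕ) [h : NeZero (9 * (3 * N') ^ 2)] : 0 < N' := by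
  have := RedData.Npos (3 * N')
  omega

/-- The root of unity of order `27`. -/
noncomputable def th : Fˣ := R.ω ^ (3 * N' ^ 2)

theorem hth : IsPrimitiveRoot (th R) 27 := by
  have h : 9 * (3 * N') ^ 2 = (3 * N' ^ 2) * 27 := by ring
  have hpos : 0 < 9 * (3 * N') ^ 2 := Nat.pos_of_ne_zero (NeZero.ne _)
  exact R.hω.pow hpos h

theorem low_explicit (γ : SLZ) (a b d : ℤ) (an dn s t : ℕ) (m' : Matrix (Fin 2) (Fin 2) ℤ)
    (ha : a = an) (hd : d = dn) (hs : 0 < s) (han : 0 < an) (hdn : 0 < dn)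
    (h1 : s * (3 * dn) = an * (9 * (3 * N') ^ 2)) (h2 : t * (3 * dn) = 9 * (3 * N') ^ 2)
    (h3 : 3 * (an * dn) ∣ 9 * (3 * N') ^ 2)
    (hm : (γ : Matrix (Fin 2) (Fin 2) ℤ) * !![a, b; 0, d] = m') (e : ℤ)
    (he : ((9 * N' ^ 2 * 3 : ℕ) : ℤ) * psi γ + (t : ℤ) * b = (3 * N' ^ 2 : ℕ) * e) :
    LowTerm (R.V m') s ((th R ^ e : Fˣ) : F) := by
  subst ha hd
  have hlow := R.V_upper_low an b dn s t hs han hdn h1 h2 h3
  have hdet : (!![(an : ℤ), b; 0, (dn : ℤ)] : Matrix (Fin 2) (Fin 2) ℤ).det = (an * dn : ℕ) := by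
    rw [det_fin_two_of]; push_cast; ring
  have hV := R.V_chi' γ !![(an : ℤ), b; 0, (dn : ℤ)] m' (by rw [hdet]; positivity)
    (by rw [hdet]; exact_mod_cast h3) hm
  rw [hV]
  have := hlow.C_mul ((R.ω ^ (((9 * (3 * N') ^ 2 / 3 : ℕ) : ℤ) * psi γ) : Fˣ) : F)
  convert this using 1
  rw [← Units.val_mul, ← _root_.zpow_add, th, ← zpow_natCast, ← _root_.zpow_mul, ← he]
  congr 3
  congr 1
  have : 9 * (3 * N') ^ 2 / 3 = 9 * N' ^ 2 * 3 := by
    have : 9 * (3 * N') ^ 2 = (9 * N' ^ 2 * 3) * 3 := by ring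
    rw [this, Nat.mul_div_cancel _ (by norm_num)]
  rw [this]

theorem low_A1 : LowTerm (R.vj N' (Lz 1)) ((3 * N' ^ 2 : ℕ) : ℤ) ((th R ^ (61 : ℤ) : Fˣ) : F) := by
  have hN := N'pos N'
  refine low_explicit R (mkSL 4 1 3 1 (by norm_num)) N' (-2 * N') (9 * N') N' (9 * N')
    (3 * N' ^ 2) (3 * N') _ rfl (by push_cast; ring) (by positivity) hN (by positivity)
    (by ring) (by ring) ⟨3, by ring⟩ ?_ 61 ?_
  · rw [mj_L, mkSL_coe]
    ext a b
    fin_cases a <;> fin_cases b <;> simp [Matrix.mul_apply, Fin.sum_univ_two] <;> ring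
  · simp only [psi, mkSL_coe, of_apply, cons_val', cons_val_zero, cons_val_one, cons_val_fin_one]
    push_cast
    ring

theorem low_B1 : LowTerm (R.vj' N' (Lz 1)) ((9 * N' ^ 2 : ℕ) : ℤ) ((th R ^ (39 : ℤ) : Fˣ) : F) := by
  have hN := N'pos N'
  refine low_explicit R (mkSL 4 (-1) 1 0 (by norm_num)) (3 * N') (3 * N') (9 * N') (3 * N') (9 * N')
    (9 * N' ^ 2) (3 * N') _ (by push_cast; ring) (by push_cast; ring) (by positivity)
    (by positivity) (by positivity) (by ring) (by ring) ⟨1, by ring⟩ ?_ 39 ?_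
  · rw [mj'_L, mkSL_coe]
    ext a b
    fin_cases a <;> fin_cases b <;> simp [Matrix.mul_apply, Fin.sum_univ_two] <;> ring
  · simp only [psi, mkSL_coe, of_apply, cons_val', cons_val_zero, cons_val_one, cons_val_fin_one]
    push_cast
    ring

theorem low_A2 : LowTerm (R.vj (2 * N') (Lz 1)) ((3 * N' ^ 2 : ℕ) : ℤ)
    ((th R ^ (-32 : ℤ) : Fˣ) : F) := by
  have hN := N'pos N'
  refine low_explicit R (mkSL 5 (-2) 3 (-1) (by norm_num)) N' (4 * N') (9 * N') N' (9 * N')
    (3 * N' ^ 2) (3 * N') _ rfl (by push_cast; ring) (by positivity) hN (by positivity)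
    (by ring) (by ring) ⟨3, by ring⟩ ?_ (-32) ?_
  · rw [mj_L, mkSL_coe]
    ext a b
    fin_cases a <;> fin_cases b <;> simp [Matrix.mul_apply, Fin.sum_univ_two] <;> ring
  · simp only [psi, mkSL_coe, of_apply, cons_val', cons_val_zero, cons_val_one, cons_val_fin_one]
    push_cast
    ring

theorem low_B2 : LowTerm (R.vj' (2 * N') (Lz 1)) ((9 * N' ^ 2 : ℕ) : ℤ)
    ((th R ^ (48 : ℤ) : Fˣ) : F) := by
  have hN := N'pos N'
  refine low_explicit R (mkSL 5 (-1) 1 0 (by norm_num)) (3 * N') (3 * N') (9 * N') (3 * N') (9 * N')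
    (9 * N' ^ 2) (3 * N') _ (by push_cast; ring) (by push_cast; ring) (by positivity)
    (by positivity) (by positivity) (by ring) (by ring) ⟨1, by ring⟩ ?_ 48 ?_
  · rw [mj'_L, mkSL_coe]
    ext a b
    fin_cases a <;> fin_cases b <;> simp [Matrix.mul_apply, Fin.sum_univ_two] <;> ring
  · simp only [psi, mkSL_coe, of_apply, cons_val', cons_val_zero, cons_val_one, cons_val_fin_one]
    push_cast
    ring

/-- The case of the quotient `η(z)^16 / η(3z)^8`. -/
theorem nonvanish_P (hM : RedData.GoodLevel (9 * (3 * N') ^ 2)) (n₀ : ℤ) (hn₀ : (3 : ℤ) ∣ n₀ - 2)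
    (h : ∑ j ∈ Finset.range (3 * N'), HahnSeries.C ((R.xi ^ (-(j : ℤ) * n₀) : Fˣ) : F) *
      (R.vj j 1 ^ 2 / R.vj' j 1) = 0) : False := by
  have hN := N'pos N'
  have hN3 := RedData.Npos (3 * N')
  have h1 := R.transfer hM (3 * N') R.vj R.vj' R.vj_mem R.vj'_mem R.vj'_ne
    (fun j => ((R.xi ^ (-(j : ℤ) * n₀) : Fˣ) : F)) h (Lz 1)
  have h2 := congrArg (fun x => HahnSeries.coeff x (-3 * (N' : ℤ) ^ 2)) h1
  simp only [coeff_sum_hs, coeff_zero] at h2
  have hmem1 : N' ∈ Finset.range (3 * N') := by rw [Finset.mem_range]; omega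
  have hmem2 : 2 * N' ∈ (Finset.range (3 * N')).erase N' := by
    rw [Finset.mem_erase, Finset.mem_range]; omega
  rw [← Finset.add_sum_erase _ _ hmem1, ← Finset.add_sum_erase _ _ hmem2] at h2
  have hrest : ∑ j ∈ ((Finset.range (3 * N')).erase N').erase (2 * N'),
      (HahnSeries.C ((R.xi ^ (-(j : ℤ) * n₀) : Fˣ) : F) *
        (R.vj j (Lz 1) ^ 2 / R.vj' j (Lz 1))).coeff (-3 * (N' : ℤ) ^ 2) = 0 := by
    apply Finset.sum_eq_zero
    intro j hj
    rw [Finset.mem_erase, Finset.mem_erase, Finset.mem_range] at hj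
    obtain ⟨hj2, hj1, hj3⟩ := hj
    obtain ⟨a, ha, hla⟩ := R.vj'_L_low j
    obtain ⟨b, hb, hlb⟩ := R.vj_L_low j
    set g := Nat.gcd (3 * N' + j) (3 * N') with hg
    set g' := Nat.gcd (3 * (3 * N' + j)) (3 * N') with hg'
    have h3 := ((hlb.pow 2).div (pow_ne_zero 2 hb) hla ha).C_mul
      ((R.xi ^ (-(j : ℤ) * n₀) : Fˣ) : F)
    apply h3.2
    have hgpos : 0 < g := Nat.gcd_pos_of_pos_right _ hN3
    have hgg : g ∣ g' := Nat.dvd_gcd ((Nat.gcd_dvd_left _ _).mul_left 3) (Nat.gcd_dvd_right _ _)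
    have hg3 : g' ∣ 3 * g := by
      rw [hg', hg, ← Nat.gcd_mul_left]
      exact Nat.dvd_gcd (Nat.gcd_dvd_left _ _) ((Nat.gcd_dvd_right _ _).mul_left 3)
    have hcases : g' = g ∨ g' = 3 * g := by
      obtain ⟨k, hk⟩ := hgg
      rw [hk, mul_comm 3 g] at hg3
      have hk3 : k ∣ 3 := Nat.dvd_of_mul_dvd_mul_left hgpos hg3
      have hk3' := (Nat.dvd_prime Nat.prime_three).mp hk3
      rcases hk3' with h | h
      · left; rw [hk, h, mul_one]
      · right; rw [hk, h, mul_comm]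
    have i3 : (0 : ℤ) < g := by exact_mod_cast hgpos
    have i4 : (0 : ℤ) < N' := by exact_mod_cast hN
    rcases hcases with h | h
    · rw [h]
      push_cast
      nlinarith [mul_pos i3 i3, mul_pos i4 i4]
    · have hgN : g < N' := by
        have h4 : g' ∣ 3 * N' := Nat.gcd_dvd_right _ _
        rw [h] at h4
        have h5 : g ∣ N' := Nat.dvd_of_mul_dvd_mul_left (by norm_num) h4
        have hle : g ≤ N' := Nat.le_of_dvd hN h5
        rcases hle.eq_or_lt with h6 | h6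
        · exfalso
          have h7 : N' ∣ 3 * N' + j := by
            have := Nat.gcd_dvd_left (3 * N' + j) (3 * N')
            rw [← hg, h6] at this
            exact this
          have h8 : N' ∣ j := (Nat.dvd_add_right (dvd_mul_left N' 3)).mp h7
          obtain ⟨k, hk⟩ := h8
          have hk3 : k < 3 := by
            by_contra hc
            push Not at hc
            have : N' * 3 ≤ N' * k := Nat.mul_le_mul_left _ hc
            rw [← hk] at this
            omega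
          have hk0 : k = 0 := by
            interval_cases k
            · rfl
            · exfalso; apply hj1; rw [hk, mul_one]
            · exfalso; apply hj2; rw [hk, mul_comm]
          rw [hk0, mul_zero] at hk
          rw [hk, add_zero] at hg
          rw [Nat.gcd_self] at hg
          omega
        · exact h6
      have i2 : (g : ℤ) < N' := by exact_mod_cast hgN
      rw [h]
      push_cast
      nlinarith
  rw [hrest, add_zero] at h2
  have hP1 := (((low_A1 R).pow 2).div (pow_ne_zero 2 (Units.ne_zero _)) (low_B1 R)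
    (Units.ne_zero _)).C_mul ((R.xi ^ (-((N' : ℕ) : ℤ) * n₀) : Fˣ) : F)
  have hP2 := (((low_A2 R).pow 2).div (pow_ne_zero 2 (Units.ne_zero _)) (low_B2 R)
    (Units.ne_zero _)).C_mul ((R.xi ^ (-((2 * N' : ℕ) : ℤ) * n₀) : Fˣ) : F)
  have e3 : ((2 : ℕ) : ℤ) * ((3 * N' ^ 2 : ℕ) : ℤ) - ((9 * N' ^ 2 : ℕ) : ℤ) = -3 * (N' : ℤ) ^ 2 := by
    push_cast; ring
  rw [e3] at hP1 hP2
  rw [hP1.1, hP2.1] at h2
  have hxi1 : R.xi ^ (-((N' : ℕ) : ℤ) * n₀) = th R ^ (-3 * n₀) := by
    rw [RedData.xi, th, ← zpow_natCast, ← zpow_natCast, ← _root_.zpow_mul, ← _root_.zpow_mul]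
    congr 1
    push_cast; ring
  have hxi2 : R.xi ^ (-((2 * N' : ℕ) : ℤ) * n₀) = th R ^ (-6 * n₀) := by
    rw [RedData.xi, th, ← zpow_natCast, ← zpow_natCast, ← _root_.zpow_mul, ← _root_.zpow_mul]
    congr 1
    push_cast; ring
  rw [hxi1, hxi2] at h2
  have h4 : ((th R ^ (-3 * n₀) : Fˣ) : F) * (((th R ^ (61 : ℤ) : Fˣ) : F) ^ 2 / ((th R ^ (39 : ℤ) : Fˣ) : F)) =
      ((th R ^ (83 - 3 * n₀) : Fˣ) : F) := by
    rw [← Units.val_pow_eq_pow_val, ← Units.val_div_eq_div_val, ← Units.val_mul]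
    congr 1
    rw [← zpow_natCast, ← _root_.zpow_mul, div_eq_mul_inv, ← _root_.zpow_sub, ← _root_.zpow_add]
    congr 1
    push_cast; ring
  have h5 : ((th R ^ (-6 * n₀) : Fˣ) : F) * (((th R ^ (-32 : ℤ) : Fˣ) : F) ^ 2 / ((th R ^ (48 : ℤ) : Fˣ) : F)) =
      ((th R ^ (-112 - 6 * n₀) : Fˣ) : F) := by
    rw [← Units.val_pow_eq_pow_val, ← Units.val_div_eq_div_val, ← Units.val_mul]
    congr 1
    rw [← zpow_natCast, ← _root_.zpow_mul, div_eq_mul_inv, ← _root_.zpow_sub, ← _root_.zpow_add]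
    congr 1
    push_cast; ring
  rw [h4, h5] at h2
  have h6 : ((th R ^ (83 - 3 * n₀) : Fˣ) : F) = ((th R ^ (-112 - 6 * n₀) : Fˣ) : F) :=
    CharTwo.add_eq_zero.mp h2
  have h7 : th R ^ (83 - 3 * n₀) = th R ^ (-112 - 6 * n₀) := Units.ext h6
  have h8 : th R ^ (195 + 3 * n₀) = 1 := by
    have : 195 + 3 * n₀ = (83 - 3 * n₀) - (-112 - 6 * n₀) := by ring
    rw [this, _root_.zpow_sub, h7, mul_inv_cancel]
  rw [(hth R).zpow_eq_one_iff_dvd] at h8
  push_cast at h8
  omega

end P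

end Pool.Agent.Lib.MP_24de68_nt
end
end
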