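import Mathlib
import Pool.Agent.Lib.MP_24de68_nt.LevelOne
import Pool.Agent.Lib.MP_24de68_nt.NonV
import Pool.Agent.Lib.MP_24de68_nt.PartGF

section

namespace Pool.Agent.Lib.MP_24de68_nt

open UpperHalfPlane ModularFormClass MatrixGroups EisensteinSeries

open scoped ModularForm Manifold

variable {A : Type*} [CommRing A] {ι : A →+* ℂ}

theorem HasExp.summable_of_norm_lt {M : ℕ} (hM : 0 < M) {f : ℍ → ℂ} {φ : PowerSeries A}
    (h : HasExp ι M f φ) {w : ℂ} (hw : ‖w‖ < 1) (hw0 : w ≠ 0) :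
    Summable (fun n => ι (PowerSeries.coeff n φ) * w ^ n) := by
  have hM' : (0 : ℝ) < M := by exact_mod_cast hM
  have h1 := Function.Periodic.im_invQParam_pos_of_norm_lt_one hM' hw hw0
  have h2 := h ⟨Function.Periodic.invQParam (M : ℝ) w, h1⟩
  have h3 : qp M ⟨Function.Periodic.invQParam (M : ℝ) w, h1⟩ = w := by
    unfold qp
    exact Function.Periodic.qParam_right_inv hM'.ne' hw0
  rw [h3] at h2
  exact HasSum.summable h2

theorem HasExp.differentiableOn {M : ℕ} (hM : 0 < M) {f : ℍ → ℂ} {φ : PowerSeries A}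
    (h : HasExp ι M f φ) :
    DifferentiableOn ℂ (fun w : ℂ => ∑' n, ι (PowerSeries.coeff n φ) * w ^ n)
      (Metric.ball 0 1) := by
  set c : ℕ → ℂ := fun n => ι (PowerSeries.coeff n φ) with hc
  set p : FormalMultilinearSeries ℂ ℂ ℂ := FormalMultilinearSeries.ofScalars ℂ c with hp
  have hr : (1 : ENNReal) ≤ p.radius := by
    refine le_of_forall_lt_imp_le_of_dense fun r hr ↦ ?_
    rcases eq_or_ne r 0 with rfl | hr'
    · simp
    · lift r to NNReal using hr.ne_top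
      apply FormalMultilinearSeries.le_radius_of_summable
      have h1 : ‖((r : ℝ) : ℂ)‖ < 1 := by simpa using hr
      have h2 : ((r : ℝ) : ℂ) ≠ 0 := by simpa using hr'
      have h3 := (h.summable_of_norm_lt hM h1 h2).norm
      refine h3.congr (fun n => ?_)
      rw [norm_mul, norm_pow, hp]
      simp [hc]
  have h4 := p.hasFPowerSeriesOnBall (lt_of_lt_of_le (by norm_num) hr)
  have h5 := h4.differentiableOn
  have h6 : (fun w : ℂ => ∑' n, ι (PowerSeries.coeff n φ) * w ^ n) = p.sum := by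
    ext w
    rw [FormalMultilinearSeries.sum, hp]
    congr 1
    ext n
    simp [hc]
    ring
  rw [h6]
  apply h5.mono
  intro w hw
  have : w ∈ Metric.eball (0 : ℂ) 1 := by
    rw [← ENNReal.coe_one, Metric.eball_coe]; exact hw
  exact Metric.eball_subset_eball hr this

theorem HasExp.mdiff {M : ℕ} (hM : 0 < M) {f : ℍ → ℂ} {φ : PowerSeries A}
    (h : HasExp ι M f φ) : MDiff f := by
  have hM' : (0 : ℝ) < M := by exact_mod_cast hM
  rw [UpperHalfPlane.mdifferentiable_iff]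
  have h1 := h.differentiableOn hM
  have h2 : DifferentiableOn ℂ (fun z : ℂ => ∑' n, ι (PowerSeries.coeff n φ) *
      (Function.Periodic.qParam (M : ℝ) z) ^ n) {z | 0 < z.im} := by
    have h3 : DifferentiableOn ℂ (Function.Periodic.qParam (M : ℝ)) {z | 0 < z.im} := by
      apply Differentiable.differentiableOn
      unfold Function.Periodic.qParam
      fun_prop
    refine DifferentiableOn.comp (t := Metric.ball 0 1) h1 h3 ?_
    intro z hz
    rw [mem_ball_zero_iff]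
    exact Function.Periodic.norm_qParam_lt_one hM' hz
  refine h2.congr ?_
  intro z hz
  rw [Function.comp_apply, UpperHalfPlane.ofComplex_apply_of_im_pos hz]
  exact (h ⟨z, hz⟩).tsum_eq.symm

/-- A level one modular form from an invariant function with an expansion. -/
theorem exists_modularForm {M : ℕ} (hM : 0 < M) {f : ℍ → ℂ} {φ : PowerSeries A}
    (h : HasExp ι M f φ) (k : ℤ) (hinv : ∀ γ : SLZ, f ∣[k] γ = f) :
    ∃ g : ModularForm 𝒮ℒ k, (g : ℍ → ℂ) = f := by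
  refine ⟨{ toFun := f
            slash_action_eq' := ?_
            holo' := h.mdiff hM
            bdd_at_cusps' := ?_ }, rfl⟩
  · rintro _ ⟨γ, rfl⟩
    exact hinv γ
  · intro c hc
    rw [Subgroup.IsArithmetic.isCusp_iff_isCusp_SL2Z] at hc
    rw [OnePoint.isBoundedAt_iff_forall_SL2Z hc]
    intro γ _
    rw [hinv γ]
    exact h.isBounded hM

end Pool.Agent.Lib.MP_24de68_nt
end

section

namespace Pool.Agent.Lib.MP_24de68_nt

open HahnSeries Matrix

section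

variable {F : Type*} [Field F] [CharP F 2] [PerfectRing F 2]

theorem main_general {N : ℕ} [NeZero (9 * N ^ 2)] (hN : Odd N) (h3 : 3 ∣ N)
    (R : RedData F (9 * N ^ 2)) (v v' : ℕ → SLZ → HahnSeries ℤ F) (hv : ∀ j, v j ∈ R.ball)
    (hv' : ∀ j, v' j ∈ R.ball) (hne : ∀ j γ, v' j γ ≠ 0) (X : HahnSeries ℤ F)
    (hX : ∀ j, v j 1 ^ 2 = scale (3 * N ^ 2) (RedData.sN_pos N) (tw (R.xi ^ j) X) * v' j 1)
    {n₀ : ℤ} (hn₀ : Odd n₀) (hsupp : ∀ n, X.coeff n ≠ 0 → (24 : ℤ) ∣ n - n₀)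
    (hnz : ∑ j ∈ Finset.range N, HahnSeries.C ((R.xi ^ (-(j : ℤ) * n₀) : Fˣ) : F) *
      (v j 1 ^ 2 / v' j 1) ≠ 0) (r : ℕ) :
    ∃ n : ℤ, (2 ^ r : ℤ) ∣ n - n₀ ∧ ((3 * N : ℕ) : ℤ) ∣ n - n₀ ∧ X.coeff n ≠ 0 := by
  have hgood := goodLevel hN h3
  have hodd : Odd ((9 * N ^ 2 : ℕ) : ℤ) := by exact_mod_cast hgood.odd
  have hs := RedData.sN_pos N
  set s := 3 * N ^ 2 with hsdef
  have hsodd : Odd (s : ℤ) := by
    have : Odd s := by
      rw [hsdef]
      exact Odd.mul (by decide) hN.pow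
    exact_mod_cast this
  have hval : ∀ j, v j 1 ^ 2 / v' j 1 = scale s hs (tw (R.xi ^ j) X) := by
    intro j
    rw [hX j, mul_div_cancel_right₀ _ (hne j 1)]
  set S := ∑ j ∈ Finset.range N, HahnSeries.C ((R.xi ^ (-(j : ℤ) * n₀) : Fˣ) : F) *
      (v j 1 ^ 2 / v' j 1) with hS
  have hSmem : S ∈ R.KK := by
    refine R.KK.sum_mem (fun j _ => R.KK.mul_mem (R.C_mem_KK _) (R.KK.div_mem (R.KK.pow_mem ?_ 2) ?_))
    · exact R.ev_mem_KK (hv j)
    · exact R.ev_mem_KK (hv' j)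
  have hS' : S = ∑ j ∈ Finset.range N, HahnSeries.C ((R.xi ^ (-(j : ℤ) * n₀) : Fˣ) : F) *
      scale s hs (tw (R.xi ^ j) X) := by
    rw [hS]
    exact Finset.sum_congr rfl (fun j _ => by rw [hval])
  have hcoeff : ∀ n : ℤ, S.coeff (s * n) = if ((3 * N : ℕ) : ℤ) ∣ n - n₀ then X.coeff n else 0 := by
    intro n
    rw [hS']
    exact comp_coeff hN R.hξ (fun n hn => (by
      have := hsupp n hn
      omega)) hs n
  have hcoeff' : ∀ m : ℤ, ¬ (s : ℤ) ∣ m → S.coeff m = 0 := by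
    intro m hm
    rw [hS', coeff_sum_hs]
    apply Finset.sum_eq_zero
    intro j _
    rw [C_mul_eq_smul, coeff_smul, scale_coeff_of_not_dvd hs _ hm, smul_zero]
  have hmem : ∀ m : ℤ, S.coeff m ≠ 0 → ∃ n, m = s * n ∧ ((3 * N : ℕ) : ℤ) ∣ n - n₀ ∧ X.coeff n ≠ 0 := by
    intro m hm
    by_cases hd : (s : ℤ) ∣ m
    · obtain ⟨n, rfl⟩ := hd
      rw [hcoeff] at hm
      split_ifs at hm with h
      · exact ⟨n, rfl, h, hm⟩
      · exact absurd rfl hm
    · exact absurd (hcoeff' m hd) hm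
  obtain ⟨m, hm1, hm2⟩ := TowerData.main (T := towerData F hodd RedData.Mpos)
    (R.propQ_KK hgood) R.D_mem_KK (R.e0_notMem hgood) hSmem hnz (n₀ := s * n₀)
    (hsodd.mul hn₀) (by
      intro m hm
      obtain ⟨n, rfl, _, hn⟩ := hmem m hm
      have h8 := hsupp n hn
      rw [← mul_sub]
      apply Dvd.dvd.mul_left
      omega) r (n := s * n₀) (by simp)
  obtain ⟨n, rfl, hn1, hn2⟩ := hmem m hm2
  refine ⟨n, ?_, hn1, hn2⟩
  rw [← mul_sub] at hm1
  have hcop : IsCoprime ((2 : ℤ) ^ r) (s : ℤ) := by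
    apply IsCoprime.pow_left
    exact Int.isCoprime_two_left.mpr hsodd
  exact hcop.dvd_of_dvd_mul_left hm1


/-- The series attached to `f₂/f₃`. -/
theorem main_P {N' : ℕ} [NeZero (9 * (3 * N') ^ 2)] (hN : Odd N')
    (R : RedData F (9 * (3 * N') ^ 2)) (X : HahnSeries ℤ F)
    (hX : Th F ^ 2 = X * scale 3 (by norm_num) (Th F))
    {n₀ : ℤ} (hn₀ : (24 : ℤ) ∣ n₀ + 1) (hsupp : ∀ n, X.coeff n ≠ 0 → (24 : ℤ) ∣ n + 1) (r : ℕ) :
    ∃ n : ℤ, (2 ^ r : ℤ) ∣ n - n₀ ∧ ((3 * (3 * N') : ℕ) : ℤ) ∣ n - n₀ ∧ X.coeff n ≠ 0 := by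
  have hN3 : Odd (3 * N') := Odd.mul (by decide) hN
  refine main_general hN3 (dvd_mul_right 3 N') R R.vj R.vj' R.vj_mem R.vj'_mem R.vj'_ne X ?_
    (by rw [← Int.not_even_iff_odd]; intro h; rw [even_iff_two_dvd] at h; omega)
    (fun n hn => by have := hsupp n hn; omega) ?_ r
  · intro j
    rw [R.vj_one, R.vj'_one, ← map_pow, ← map_pow, hX, map_mul, map_mul]
  · intro h
    exact nonvanish_P R (goodLevel hN3 (dvd_mul_right 3 N')) n₀ (by omega) h

/-- The series attached to `f₆/f₁`. -/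
theorem main_Q {N : ℕ} [NeZero (9 * N ^ 2)] (hN : Odd N) (h3 : 3 ∣ N)
    (R : RedData F (9 * N ^ 2)) (X : HahnSeries ℤ F)
    (hX : scale 3 (by norm_num) (Th F) ^ 2 = X * Th F)
    {n₀ : ℤ} (hn₀ : (24 : ℤ) ∣ n₀ - 5) (hsupp : ∀ n, X.coeff n ≠ 0 → (24 : ℤ) ∣ n - 5) (r : ℕ) :
    ∃ n : ℤ, (2 ^ r : ℤ) ∣ n - n₀ ∧ ((3 * N : ℕ) : ℤ) ∣ n - n₀ ∧ X.coeff n ≠ 0 := by
  refine main_general hN h3 R R.vj' R.vj R.vj'_mem R.vj_mem R.vj_ne X ?_
    (by rw [← Int.not_even_iff_odd]; intro h; rw [even_iff_two_dvd] at h; omega)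
    (fun n hn => by have := hsupp n hn; omega) ?_ r
  · intro j
    rw [R.vj_one, R.vj'_one, ← map_pow, ← map_pow, hX, map_mul, map_mul]
  · intro h
    exact R.nonvanish_Q (goodLevel hN h3) _ (Units.ne_zero _) h

end

end Pool.Agent.Lib.MP_24de68_nt
end

section

namespace Pool.Agent.Lib.MP_24de68_nt

open UpperHalfPlane MatrixGroups

open scoped ModularForm

section red

variable {A : Type*} [CommRing A] {F : Type*} [Field F] (ρ : A →+* F)

/-- Reduction of an expansion. -/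
noncomputable def red : PowerSeries A →+* HahnSeries ℤ F :=
  (HahnSeries.ofPowerSeries ℤ F).comp (PowerSeries.map ρ)

theorem red_apply (φ : PowerSeries A) :
    red ρ φ = HahnSeries.ofPowerSeries ℤ F (PowerSeries.map ρ φ) := rfl

theorem red_C (c : A) : red ρ (PowerSeries.C c) = HahnSeries.C (ρ c) := by
  rw [red_apply, PowerSeries.map_C, HahnSeries.ofPowerSeries_C]

theorem red_expand {s : ℕ} (hs : 0 < s) (φ : PowerSeries A) :
    red ρ (PowerSeries.expand s hs.ne' φ) = scale s hs (red ρ φ) := by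
  rw [red_apply, red_apply, ← ofPS_expand]
  congr 1
  ext n
  rw [PowerSeries.coeff_map, PowerSeries.coeff_expand, PowerSeries.coeff_expand]
  split_ifs
  · rw [PowerSeries.coeff_map]
  · rw [map_zero]

theorem red_rescale (u : Fˣ) (ζ : A) (h : ρ ζ = u) (φ : PowerSeries A) :
    red ρ (PowerSeries.rescale ζ φ) = tw u (red ρ φ) := by
  rw [red_apply, red_apply, ← ofPS_rescale]
  congr 1
  ext n
  rw [PowerSeries.coeff_map, PowerSeries.coeff_rescale, PowerSeries.coeff_rescale,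
    PowerSeries.coeff_map, map_mul, map_pow, h]

theorem red_E4A [CharP F 2] : red ρ (E4A A) = 1 := by
  rw [red_apply, E4A_map (CharTwo.two_eq_zero), map_one]

end red

variable {A : Type*} [CommRing A] (ι : A →+* ℂ) {F : Type*} [Field F] (ρ : A →+* F) (M : ℕ)

/-- Weights are multiples of four. -/
def wt (k : ℕ) : ℤ := 4 * k

theorem wt_add (k l : ℕ) : wt (k + l) = wt k + wt l := by unfold wt; push_cast; ring

theorem wt_zero : wt 0 = 0 := by unfold wt; simp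

theorem wt_one : wt 1 = 4 := by unfold wt; simp

/-- Reductions of integral forms of weight `4k` and level `M`. -/
def BSet (k : ℕ) : Set (SLZ → HahnSeries ℤ F) :=
  {x | ∃ f : ℍ → ℂ, (∀ γ ∈ CongruenceSubgroup.Gamma M, f ∣[wt k] γ = f) ∧
     ∀ γ : SLZ, ∃ φ : PowerSeries A, HasExp ι M (f ∣[wt k] γ) φ ∧ x γ = red ρ φ}

variable {ι ρ M}

theorem BSet_add {k : ℕ} {x y : SLZ → HahnSeries ℤ F} (hx : x ∈ BSet ι ρ M k)
    (hy : y ∈ BSet ι ρ M k) : x + y ∈ BSet ι ρ M k := by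
  obtain ⟨f, hf, hf2⟩ := hx
  obtain ⟨g, hg, hg2⟩ := hy
  refine ⟨f + g, fun γ hγ => by rw [SlashAction.add_slash, hf γ hγ, hg γ hγ], fun γ => ?_⟩
  obtain ⟨φ, h1, h2⟩ := hf2 γ
  obtain ⟨ψ, h3, h4⟩ := hg2 γ
  refine ⟨φ + ψ, ?_, ?_⟩
  · rw [SlashAction.add_slash]; exact h1.add h3
  · rw [Pi.add_apply, h2, h4, map_add]

theorem BSet_mul {k l : ℕ} {x y : SLZ → HahnSeries ℤ F} (hx : x ∈ BSet ι ρ M k)
    (hy : y ∈ BSet ι ρ M l) : x * y ∈ BSet ι ρ M (k + l) := by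
  obtain ⟨f, hf, hf2⟩ := hx
  obtain ⟨g, hg, hg2⟩ := hy
  refine ⟨f * g, fun γ hγ => by
    rw [wt_add, ModularForm.mul_slash_SL2, hf γ hγ, hg γ hγ], fun γ => ?_⟩
  obtain ⟨φ, h1, h2⟩ := hf2 γ
  obtain ⟨ψ, h3, h4⟩ := hg2 γ
  refine ⟨φ * ψ, ?_, ?_⟩
  · rw [wt_add, ModularForm.mul_slash_SL2]; exact h1.mul h3
  · rw [Pi.mul_apply, h2, h4, map_mul]

theorem BSet_const (hρ : Function.Surjective ρ) (c : F) :
    (fun _ => HahnSeries.C c) ∈ BSet ι ρ M 0 := by
  obtain ⟨c', rfl⟩ := hρ c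
  refine ⟨Function.const ℍ (ι c'), fun γ _ => by
    rw [wt_zero]; exact ModularForm.is_invariant_const _ _, fun γ => ?_⟩
  refine ⟨PowerSeries.C c', ?_, (red_C ρ c').symm⟩
  rw [wt_zero, ModularForm.is_invariant_const]
  intro z
  exact HasEv.C c' _

theorem E4_slash (γ : SLZ) : (ModularForm.E₄ : ℍ → ℂ) ∣[(4 : ℤ)] γ = ModularForm.E₄ := by
  have hγ : (γ : GL (Fin 2) ℝ) ∈ 𝒮ℒ := ⟨γ, rfl⟩
  exact SlashInvariantForm.slash_action_eqn ModularForm.E₄ _ hγ

theorem E4_hasExp' (hM : 0 < M) : HasExp ι M (ModularForm.E₄ : ℍ → ℂ)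
    (PowerSeries.expand M hM.ne' (E4A A)) := by
  have h := (E4_hasExp (ι := ι)).expand M hM.ne'
  rw [mul_one] at h
  exact h

theorem BSet_mono [CharP F 2] (hM : 0 < M) {k : ℕ} {x : SLZ → HahnSeries ℤ F}
    (hx : x ∈ BSet ι ρ M k) : x ∈ BSet ι ρ M (k + 1) := by
  obtain ⟨f, hf, hf2⟩ := hx
  refine ⟨f * ModularForm.E₄, fun γ hγ => by
    rw [wt_add, ModularForm.mul_slash_SL2, hf γ hγ, wt_one, E4_slash], fun γ => ?_⟩
  obtain ⟨φ, h1, h2⟩ := hf2 γ
  refine ⟨φ * PowerSeries.expand M hM.ne' (E4A A), ?_, ?_⟩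
  · rw [wt_add, ModularForm.mul_slash_SL2, wt_one, E4_slash]
    exact h1.mul (E4_hasExp' hM)
  · rw [h2, map_mul, red_expand ρ hM, red_E4A, map_one, mul_one]

theorem BSet_translate {k : ℕ} {x : SLZ → HahnSeries ℤ F} (δ : SLZ)
    (hx : x ∈ BSet ι ρ M k) : (fun γ => x (δ * γ)) ∈ BSet ι ρ M k := by
  obtain ⟨f, hf, hf2⟩ := hx
  refine ⟨f ∣[wt k] δ, fun γ hγ => ?_, fun γ => ?_⟩
  · have h1 : δ * γ * δ⁻¹ ∈ CongruenceSubgroup.Gamma M :=
      Subgroup.Normal.conj_mem (CongruenceSubgroup.Gamma_normal M) _ hγ δ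
    have h2 : δ * γ = (δ * γ * δ⁻¹) * δ := by group
    rw [← SlashAction.slash_mul, h2, SlashAction.slash_mul, hf _ h1]
  · obtain ⟨φ, h1, h2⟩ := hf2 (δ * γ)
    refine ⟨φ, ?_, h2⟩
    rw [← SlashAction.slash_mul]; exact h1

theorem BSet_gamma (hι : Function.Injective ι) (hM : 0 < M) {k : ℕ} {x : SLZ → HahnSeries ℤ F}
    (hx : x ∈ BSet ι ρ M k) (δ : SLZ) (hδ : δ ∈ CongruenceSubgroup.Gamma M) (γ : SLZ) :
    x (δ * γ) = x γ := by
  obtain ⟨f, hf, hf2⟩ := hx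
  obtain ⟨φ, h1, h2⟩ := hf2 (δ * γ)
  obtain ⟨ψ, h3, h4⟩ := hf2 γ
  rw [SlashAction.slash_mul, hf δ hδ] at h1
  rw [h2, h4, h1.unique hι hM h3]

theorem BSet_coeff_neg {k : ℕ} {x : SLZ → HahnSeries ℤ F}
    (hx : x ∈ BSet ι ρ M k) (γ : SLZ) (n : ℤ) (hn : n < 0) : (x γ).coeff n = 0 := by
  obtain ⟨f, hf, hf2⟩ := hx
  obtain ⟨φ, h1, h2⟩ := hf2 γ
  rw [h2]
  exact ofPS_coeff_neg _ hn

theorem qp_T (z : ℍ) : qp M ((1 : ℝ) +ᵥ z) =
    Complex.exp (2 * Real.pi * Complex.I / M) * qp M z := by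
  rw [qp_eq, qp_eq, ← Complex.exp_add]
  congr 1
  rw [UpperHalfPlane.coe_vadd]
  push_cast
  ring

theorem slash_T (k : ℤ) (f : ℍ → ℂ) (z : ℍ) :
    (f ∣[k] ModularGroup.T) z = f ((1 : ℝ) +ᵥ z) := by
  rw [ModularForm.SL_slash_apply, denom, modular_T_smul, ModularGroup.T]
  simp

theorem HasExp.slash_T {f : ℍ → ℂ} {φ : PowerSeries A} (h : HasExp ι M f φ) (k : ℤ) (ζ : A)
    (hζ : ι ζ = Complex.exp (2 * Real.pi * Complex.I / M)) :
    HasExp ι M (f ∣[k] ModularGroup.T) (PowerSeries.rescale ζ φ) := by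
  intro z
  rw [Pool.Agent.Lib.MP_24de68_nt.slash_T]
  apply HasEv.rescale
  rw [hζ, ← qp_T]
  exact h _

theorem BSet_tau_T (hι : Function.Injective ι) (hM : 0 < M) {k : ℕ} {x : SLZ → HahnSeries ℤ F}
    (ζ : A) (hζ : ι ζ = Complex.exp (2 * Real.pi * Complex.I / M)) (u : Fˣ) (hu : ρ ζ = u)
    (hx : x ∈ BSet ι ρ M k) (γ : SLZ) : x (γ * ModularGroup.T) = tw u (x γ) := by
  obtain ⟨f, hf, hf2⟩ := hx
  obtain ⟨φ, h1, h2⟩ := hf2 (γ * ModularGroup.T)
  obtain ⟨ψ, h3, h4⟩ := hf2 γ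
  rw [SlashAction.slash_mul] at h1
  have h5 := h3.slash_T (wt k) ζ hζ
  rw [h2, h4, h1.unique hι hM h5, red_rescale ρ u ζ hu]

section dmem

variable [CharP F 2]

theorem red_X : red ρ PowerSeries.X = HahnSeries.single 1 1 := by
  rw [red_apply, PowerSeries.map_X, HahnSeries.ofPowerSeries_X]

theorem red_pent : red ρ (PowerSeries.pentagonalSeries A) = P1 F := by
  rw [red_apply, ← ofPS_pentagonal]
  congr 1
  ext n
  rw [PowerSeries.coeff_map]
  by_cases h : n ∈ Set.range pentagonal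
  · obtain ⟨k, rfl⟩ := h
    rw [PowerSeries.coeff_pentagonalSeries_pentagonal, PowerSeries.coeff_pentagonalSeries_pentagonal,
      map_intCast]
  · rw [PowerSeries.coeff_pentagonalSeries_eq_zero _ h,
      PowerSeries.coeff_pentagonalSeries_eq_zero _ h, map_zero]

theorem red_A1 : red ρ (A1 A) = Th F := by
  rw [A1, map_mul, map_pow, red_X, red_expand ρ (by norm_num : 0 < 3), red_pent, Th_eq]
  have h8 : P1 F ^ 8 = scale 8 (by norm_num) (P1 F) := P1_pow_two_pow F 3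
  rw [← map_pow, h8, scale_scale]

theorem red_expand_D0 {t : ℕ} (ht : 0 < t) (h3t : 3 * t ≠ 0) :
    red ρ (PowerSeries.expand (3 * t) h3t (D0 A)) = Ds F ((3 * t : ℕ) : ℤ) := by
  rw [Ds_eq_cube F ht, ← map_pow, ← red_A1 (ρ := ρ), ← map_pow, ← expand_D0, ← red_expand]
  congr 1
  ext n
  rw [PowerSeries.coeff_expand, PowerSeries.coeff_expand]
  by_cases h1 : t ∣ n
  · rw [if_pos h1, PowerSeries.coeff_expand]
    have h2 : 3 ∣ n / t ↔ 3 * t ∣ n := by
      obtain ⟨m, rfl⟩ := h1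
      rw [Nat.mul_div_cancel_left _ ht, mul_comm t m]
      exact (Nat.mul_dvd_mul_iff_right ht).symm
    by_cases h3 : 3 * t ∣ n
    · rw [if_pos h3, if_pos (h2.mpr h3), Nat.div_div_eq_div_mul, mul_comm t 3]
    · rw [if_neg h3, if_neg (fun h => h3 (h2.mp h))]
  · rw [if_neg h1, if_neg]
    exact fun h => h1 ((Dvd.intro_left 3 rfl).trans h)

theorem disc_slash (γ : SLZ) : ModularForm.discriminant ∣[(12 : ℤ)] γ = ModularForm.discriminant :=
  SlashInvariantForm.slash_action_generators_SL2Z ModularForm.discriminant_S_invariant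
    ModularForm.discriminant_T_invariant γ

theorem BSet_D (hM : 0 < M) (h3 : 3 ∣ M) : (fun _ => Ds F M) ∈ BSet ι ρ M 3 := by
  obtain ⟨t, rfl⟩ := h3
  have ht : 0 < t := by omega
  have hwt : wt 3 = 12 := by unfold wt; norm_num
  refine ⟨ModularForm.discriminant, fun γ _ => by rw [hwt, disc_slash], fun γ => ?_⟩
  refine ⟨PowerSeries.expand (3 * t) hM.ne' (D0 A), ?_, ?_⟩
  · rw [hwt, disc_slash]
    have h := (disc_hasExp (ι := ι)).expand (3 * t) hM.ne'
    rw [mul_one] at h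
    exact h
  · exact (red_expand_D0 ht hM.ne').symm

end dmem

end Pool.Agent.Lib.MP_24de68_nt
end

section

namespace Pool.Agent.Lib.MP_24de68_nt

open UpperHalfPlane MatrixGroups

open scoped ModularForm

variable {A : Type*} [CommRing A] {ι : A →+* ℂ} {F : Type*} [Field F] {ρ : A →+* F} {M : ℕ}

theorem prod_slash_SL {κ : Type*} (s : Finset κ) (f : κ → ℍ → ℂ) (k : ℕ) (γ : SLZ) :
    (∏ i ∈ s, f i) ∣[wt (s.card * k)] γ = ∏ i ∈ s, (f i ∣[wt k] γ) := by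
  classical
  induction s using Finset.induction_on with
  | empty =>
    rw [Finset.prod_empty, Finset.prod_empty, Finset.card_empty, zero_mul, wt_zero]
    exact ModularForm.is_invariant_one _
  | insert a s ha ih =>
    rw [Finset.prod_insert ha, Finset.prod_insert ha, Finset.card_insert_of_notMem ha]
    have : (s.card + 1) * k = k + s.card * k := by ring
    rw [this, wt_add, ModularForm.mul_slash_SL2, ih]

theorem slash_class {k : ℕ} {f : ℍ → ℂ}
    (hf : ∀ γ ∈ CongruenceSubgroup.Gamma M, f ∣[wt k] γ = f) {γ₁ γ₂ : SLZ}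
    (h : (γ₁ : GQ M) = (γ₂ : GQ M)) : f ∣[wt k] γ₁ = f ∣[wt k] γ₂ := by
  have h1 : γ₁⁻¹ * γ₂ ∈ CongruenceSubgroup.Gamma M := QuotientGroup.eq.mp h
  have h2 : γ₂ * γ₁⁻¹ ∈ CongruenceSubgroup.Gamma M := by
    have := Subgroup.Normal.conj_mem (CongruenceSubgroup.Gamma_normal M) _ h1 γ₁
    simpa [mul_assoc] using this
  have h3 : γ₂ = (γ₂ * γ₁⁻¹) * γ₁ := by group
  rw [h3, SlashAction.slash_mul, hf _ h2]

theorem sum_powersetCard_equiv {κ R : Type*} [Fintype κ] [CommRing R] (n : ℕ) (σ : κ ≃ κ)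
    (f : κ → R) : ∑ A ∈ Finset.powersetCard n (Finset.univ : Finset κ), ∏ g ∈ A, f (σ g) =
      ∑ A ∈ Finset.powersetCard n (Finset.univ : Finset κ), ∏ g ∈ A, f g := by
  refine Finset.sum_bij' (fun A _ => A.map σ.toEmbedding) (fun A _ => A.map σ.symm.toEmbedding)
    ?_ ?_ ?_ ?_ ?_
  · intro A hA
    rw [Finset.mem_powersetCard_univ] at hA ⊢
    rw [Finset.card_map, hA]
  · intro A hA
    rw [Finset.mem_powersetCard_univ] at hA ⊢
    rw [Finset.card_map, hA]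
  · intro A _
    ext x
    simp
  · intro A _
    ext x
    simp
  · intro A _
    rw [Finset.prod_map]
    rfl

/-- The level one function attached to a form. -/
noncomputable def symF (M : ℕ) [NeZero M] (f : ℍ → ℂ) (k n : ℕ) : ℍ → ℂ :=
  ∑ A ∈ Finset.powersetCard n (Finset.univ : Finset (GQ M)),
    ∏ g ∈ A, (f ∣[wt k] (g.out : SLZ))

theorem symF_slash [NeZero M] {k : ℕ} {f : ℍ → ℂ}
    (hf : ∀ γ ∈ CongruenceSubgroup.Gamma M, f ∣[wt k] γ = f) (n : ℕ) (γ : SLZ) :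
    (symF M f k n) ∣[wt (n * k)] γ = symF M f k n := by
  unfold symF
  rw [SlashAction.sum_slash]
  rw [← sum_powersetCard_equiv n (Equiv.mulRight (γ : GQ M))
    (fun g : GQ M => f ∣[wt k] (g.out : SLZ))]
  apply Finset.sum_congr rfl
  intro A hA
  rw [Finset.mem_powersetCard_univ] at hA
  rw [← hA, prod_slash_SL]
  apply Finset.prod_congr rfl
  intro g _
  rw [← SlashAction.slash_mul]
  apply slash_class hf
  rw [QuotientGroup.mk_mul, QuotientGroup.out_eq', QuotientGroup.out_eq']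
  rfl

theorem symF_hasExp [NeZero M] {k : ℕ} {f : ℍ → ℂ} {φ : SLZ → PowerSeries A}
    (hφ : ∀ γ : SLZ, HasExp ι M (f ∣[wt k] γ) (φ γ)) (n : ℕ) :
    HasExp ι M (symF M f k n) (∑ A ∈ Finset.powersetCard n (Finset.univ : Finset (GQ M)),
      ∏ g ∈ A, φ g.out) := by
  intro z
  unfold symF
  rw [Finset.sum_apply]
  apply HasEv.sum
  intro B _
  rw [Finset.prod_apply]
  apply HasEv.prod
  intro g _
  exact hφ _ z

theorem exists_expand (hι : Function.Injective ι) (hM : 0 < M) {ζ : A}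
    (hζ : ι ζ = Complex.exp (2 * Real.pi * Complex.I / M)) {Φ : PowerSeries A}
    (h : PowerSeries.rescale ζ Φ = Φ) : ∃ Φ₁, Φ = PowerSeries.expand M hM.ne' Φ₁ := by
  refine ⟨PowerSeries.mk fun n => PowerSeries.coeff (M * n) Φ, ?_⟩
  ext n
  rw [PowerSeries.coeff_expand]
  split_ifs with hn
  · obtain ⟨m, rfl⟩ := hn
    rw [Nat.mul_div_cancel_left _ hM, PowerSeries.coeff_mk]
  · have h1 := congrArg (PowerSeries.coeff n) h
    rw [PowerSeries.coeff_rescale] at h1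
    have h2 : (ι ζ ^ n - 1) * ι (PowerSeries.coeff n Φ) = 0 := by
      rw [sub_mul, one_mul, ← map_pow, ← map_mul, h1, sub_self]
    have h3 : ι ζ ^ n - 1 ≠ 0 := by
      intro h4
      have h5 := Complex.isPrimitiveRoot_exp M hM.ne'
      rw [← hζ] at h5
      exact hn ((h5.pow_eq_one_iff_dvd n).mp (sub_eq_zero.mp h4))
    have h4 := (mul_eq_zero.mp h2).resolve_left h3
    exact (map_eq_zero_iff ι hι).mp h4

theorem HasExp.of_expand (hM : 0 < M) {f : ℍ → ℂ} {Φ : PowerSeries A}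
    (h : HasExp ι M f (PowerSeries.expand M hM.ne' Φ)) : HasExp ι 1 f Φ := by
  intro z
  have h1 := h z
  have hinj : Function.Injective (fun n : ℕ => M * n) := fun a b hab =>
    Nat.eq_of_mul_eq_mul_left hM hab
  unfold HasEv at h1 ⊢
  rw [← hinj.hasSum_iff] at h1
  · have he : ((fun n => ι (PowerSeries.coeff n (PowerSeries.expand M hM.ne' Φ)) * (qp M z) ^ n) ∘
        fun n : ℕ => M * n) = fun n => ι (PowerSeries.coeff n Φ) * (qp 1 z) ^ n := by
      funext n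
      simp only [Function.comp_apply]
      have h2 := qp_pow (M := 1) M hM z
      rw [mul_one] at h2
      rw [PowerSeries.coeff_expand_mul, pow_mul, h2]
    rw [he] at h1; exact h1
  · intro x hx
    rw [PowerSeries.coeff_expand_of_not_dvd]
    · simp
    · rintro ⟨k, rfl⟩
      exact hx ⟨k, rfl⟩

theorem BSet_esymm [CharP F 2] [NeZero M] (hι : Function.Injective ι) (hM : 0 < M) (h3 : 3 ∣ M)
    (ζ : A) (hζ : ι ζ = Complex.exp (2 * Real.pi * Complex.I / M)) {k : ℕ}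
    {x : SLZ → HahnSeries ℤ F} (hx : x ∈ BSet ι ρ M k) (n : ℕ) : ∃ p : Polynomial F,
    3 * p.natDegree ≤ n * k + 2 ∧
    ∑ A ∈ Finset.powersetCard n (Finset.univ : Finset (GQ M)), ∏ g ∈ A, x g.out =
      Polynomial.eval₂ HahnSeries.C (Ds F M) p := by
  obtain ⟨f, hf, hf2⟩ := hx
  choose φ hφ hφ2 using hf2
  set m : ℕ := (n * k + 2) / 3 with hm
  have hm1 : 3 * m ≤ n * k + 2 := Nat.mul_div_le _ _
  have hm2 : n * k ≤ 3 * m := by omega
  obtain ⟨t, ht⟩ := Nat.exists_eq_add_of_le hm2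
  set H : ℍ → ℂ := symF M f k n * (ModularForm.E₄ : ℍ → ℂ) ^ t with hH
  set Φ : PowerSeries A := (∑ A ∈ Finset.powersetCard n (Finset.univ : Finset (GQ M)),
      ∏ g ∈ A, φ g.out) * (PowerSeries.expand M hM.ne' (E4A A)) ^ t with hΦ
  have hE : ∀ γ : SLZ, ((ModularForm.E₄ : ℍ → ℂ) ^ t) ∣[wt t] γ = (ModularForm.E₄ : ℍ → ℂ) ^ t := by
    intro γ
    have h1 := prod_slash_SL (Finset.range t) (fun _ => (ModularForm.E₄ : ℍ → ℂ)) 1 γ
    rw [Finset.card_range, mul_one, Finset.prod_const, Finset.prod_const, Finset.card_range,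
      wt_one, E4_slash] at h1
    exact h1
  have hHinv : ∀ γ : SLZ, H ∣[wt (3 * m)] γ = H := by
    intro γ
    rw [ht, wt_add, hH, ModularForm.mul_slash_SL2, symF_slash hf, hE]
  have hHexp : HasExp ι M H Φ := (symF_hasExp hφ n).mul ((E4_hasExp' hM).pow t)
  have hT := hHexp.slash_T (wt (3 * m)) ζ hζ
  rw [hHinv] at hT
  have hresc : PowerSeries.rescale ζ Φ = Φ := hT.unique hι hM hHexp
  obtain ⟨Φ₁, hΦ₁⟩ := exists_expand hι hM hζ hresc
  have hHexp1 : HasExp ι 1 H Φ₁ := by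
    rw [hΦ₁] at hHexp
    exact hHexp.of_expand hM
  obtain ⟨g, hg⟩ := exists_modularForm hM hHexp (wt (3 * m)) hHinv
  have hq : UpperHalfPlane.qExpansion 1 g = PowerSeries.map ι Φ₁ :=
    qExpansion_of_hasExp (k := wt (3 * m)) g (by rw [hg]; exact hHexp1)
  obtain ⟨p, hp, hp2⟩ := levelOne_poly hι (CharTwo.two_eq_zero (R := F)) ρ m (wt (3 * m))
    (by unfold wt; push_cast; ring) g Φ₁ hq
  refine ⟨p, by omega, ?_⟩
  have h5 : ∑ A ∈ Finset.powersetCard n (Finset.univ : Finset (GQ M)), ∏ g ∈ A, x g.out =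
      red ρ Φ := by
    rw [hΦ, map_mul, map_pow, red_expand ρ hM, red_E4A, map_one, one_pow, mul_one, map_sum]
    apply Finset.sum_congr rfl
    intro B _
    rw [map_prod]
    apply Finset.prod_congr rfl
    intro g _
    exact hφ2 _
  rw [h5, hΦ₁, red_expand ρ hM, red_apply, hp2, Polynomial.hom_eval₂, Polynomial.hom_eval₂]
  obtain ⟨s, rfl⟩ := h3
  have hs : 0 < s := by omega
  have h6 : (scale (3 * s) hM) ((HahnSeries.ofPowerSeries ℤ F) (PowerSeries.map ρ (D0 A))) =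
      Ds F ((3 * s : ℕ) : ℤ) := by
    rw [← red_apply, ← red_expand ρ hM, red_expand_D0 hs]
  rw [h6]
  congr 1
  apply RingHom.ext
  intro c
  rw [RingHom.comp_apply, RingHom.comp_apply, HahnSeries.ofPowerSeries_C, scale_C]

end Pool.Agent.Lib.MP_24de68_nt
end

section

namespace Pool.Agent.Lib.MP_24de68_nt

open UpperHalfPlane MatrixGroups Matrix

open scoped ModularForm

variable {A : Type*} [CommRing A] {ι : A →+* ℂ} {F : Type*} [Field F] {ρ : A →+* F} {M : ℕ}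

theorem map_det (m : Matrix (Fin 2) (Fin 2) ℤ) :
    (m.map (Int.cast : ℤ → ℝ)).det = ((m.det : ℤ) : ℝ) := by
  rw [det_fin_two, det_fin_two]
  simp only [Matrix.map_apply]
  push_cast
  ring

theorem gl_det_ne {m : Matrix (Fin 2) (Fin 2) ℤ} (h : 0 < m.det) :
    (m.map (Int.cast : ℤ → ℝ)).det ≠ 0 := by
  rw [map_det]
  have : (0 : ℝ) < ((m.det : ℤ) : ℝ) := by exact_mod_cast h
  exact this.ne'

/-- Integral matrices of positive determinant as real invertible matrices. -/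
noncomputable def gl (m : Matrix (Fin 2) (Fin 2) ℤ) (h : 0 < m.det) : GL (Fin 2) ℝ :=
  Matrix.GeneralLinearGroup.mkOfDetNeZero (m.map (Int.cast : ℤ → ℝ)) (gl_det_ne h)

theorem gl_coe (m : Matrix (Fin 2) (Fin 2) ℤ) (h : 0 < m.det) :
    ((gl m h : GL (Fin 2) ℝ) : Matrix (Fin 2) (Fin 2) ℝ) = m.map (Int.cast : ℤ → ℝ) := rfl

theorem gl_apply (m : Matrix (Fin 2) (Fin 2) ℤ) (h : 0 < m.det) (i j : Fin 2) :
    (gl m h) i j = ((m i j : ℤ) : ℝ) := rfl

theorem gl_detval (m : Matrix (Fin 2) (Fin 2) ℤ) (h : 0 < m.det) :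
    (gl m h).det.val = ((m.det : ℤ) : ℝ) := by
  rw [Matrix.GeneralLinearGroup.val_det_apply, gl_coe, map_det]

theorem det_mul_SL (m : Matrix (Fin 2) (Fin 2) ℤ) (γ : SLZ) :
    (m * (γ : Matrix (Fin 2) (Fin 2) ℤ)).det = m.det := by
  rw [det_mul, γ.det_coe, mul_one]

theorem det_SL_mul (m : Matrix (Fin 2) (Fin 2) ℤ) (γ : SLZ) :
    ((γ : Matrix (Fin 2) (Fin 2) ℤ) * m).det = m.det := by
  rw [det_mul, γ.det_coe, one_mul]

theorem gl_mul_right (m : Matrix (Fin 2) (Fin 2) ℤ) (h : 0 < m.det) (γ : SLZ)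
    (h' : 0 < (m * (γ : Matrix (Fin 2) (Fin 2) ℤ)).det) :
    gl (m * (γ : Matrix (Fin 2) (Fin 2) ℤ)) h' =
      gl m h * (Matrix.SpecialLinearGroup.mapGL ℝ γ) := by
  apply Matrix.GeneralLinearGroup.ext
  intro i j
  rw [gl_apply, Matrix.GeneralLinearGroup.coe_mul, Matrix.mul_apply, Matrix.mul_apply]
  push_cast
  rfl

theorem gl_mul_left (m : Matrix (Fin 2) (Fin 2) ℤ) (h : 0 < m.det) (γ : SLZ)
    (h' : 0 < ((γ : Matrix (Fin 2) (Fin 2) ℤ) * m).det) :
    gl ((γ : Matrix (Fin 2) (Fin 2) ℤ) * m) h' =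
      (Matrix.SpecialLinearGroup.mapGL ℝ γ) * gl m h := by
  apply Matrix.GeneralLinearGroup.ext
  intro i j
  rw [gl_apply, Matrix.GeneralLinearGroup.coe_mul, Matrix.mul_apply, Matrix.mul_apply]
  push_cast
  rfl

/-- The translates of `η^8` by integral matrices. -/
noncomputable def em (m : Matrix (Fin 2) (Fin 2) ℤ) (h : 0 < m.det) : ℍ → ℂ :=
  ((m.det : ℤ) : ℂ) • (eta8 ∣[(4 : ℤ)] gl m h)

theorem em_mul_right (m : Matrix (Fin 2) (Fin 2) ℤ) (h : 0 < m.det) (γ : SLZ)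
    (h' : 0 < (m * (γ : Matrix (Fin 2) (Fin 2) ℤ)).det) :
    em (m * (γ : Matrix (Fin 2) (Fin 2) ℤ)) h' = (em m h) ∣[(4 : ℤ)] γ := by
  unfold em
  rw [ModularForm.SL_smul_slash, det_mul_SL, gl_mul_right m h γ h', SlashAction.slash_mul,
    ModularForm.SL_slash]
  rfl

theorem sigma_gl (m : Matrix (Fin 2) (Fin 2) ℤ) (h : 0 < m.det) (z : ℂ) :
    σ (gl m h) z = z := by
  have : 0 < (gl m h).det.val := by rw [gl_detval]; exact_mod_cast h
  rw [σ, if_pos this]; rfl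

theorem em_mul_left (m : Matrix (Fin 2) (Fin 2) ℤ) (h : 0 < m.det) (γ : SLZ)
    (h' : 0 < ((γ : Matrix (Fin 2) (Fin 2) ℤ) * m).det) :
    em ((γ : Matrix (Fin 2) (Fin 2) ℤ) * m) h' = e3 (psi γ) • em m h := by
  unfold em
  have h1 : eta8 ∣[(4 : ℤ)] (Matrix.SpecialLinearGroup.mapGL ℝ γ) = e3 (psi γ) • eta8 := eta8_slash γ
  rw [det_SL_mul, gl_mul_left m h γ h', SlashAction.slash_mul, h1, ModularForm.smul_slash,
    sigma_gl, smul_comm]

theorem em_congr {m m' : Matrix (Fin 2) (Fin 2) ℤ} (hmm : m = m') (h : 0 < m.det)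
    (h' : 0 < m'.det) : em m h = em m' h' := by
  subst hmm; rfl

theorem em_gamma (m : Matrix (Fin 2) (Fin 2) ℤ) (h : 0 < m.det) (hM : 3 * m.det ∣ (M : ℤ))
    (γ : SLZ) (hγ : γ ∈ CongruenceSubgroup.Gamma M) : (em m h) ∣[(4 : ℤ)] γ = em m h := by
  obtain ⟨k, hk⟩ := hM
  rw [CongruenceSubgroup.Gamma_mem] at hγ
  obtain ⟨h00, h01, h10, h11⟩ := hγ
  have e00 : (M : ℤ) ∣ γ 0 0 - 1 := by
    rw [← ZMod.intCast_zmod_eq_zero_iff_dvd]; push_cast; rw [h00]; ring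
  have e01 : (M : ℤ) ∣ γ 0 1 := by rw [← ZMod.intCast_zmod_eq_zero_iff_dvd]; exact h01
  have e10 : (M : ℤ) ∣ γ 1 0 := by rw [← ZMod.intCast_zmod_eq_zero_iff_dvd]; exact h10
  have e11 : (M : ℤ) ∣ γ 1 1 - 1 := by
    rw [← ZMod.intCast_zmod_eq_zero_iff_dvd]; push_cast; rw [h11]; ring
  obtain ⟨x00, hx00⟩ := e00
  obtain ⟨x01, hx01⟩ := e01
  obtain ⟨x10, hx10⟩ := e10
  obtain ⟨x11, hx11⟩ := e11
  have hdet := γ.det_coe
  rw [det_fin_two] at hdet
  set X : Matrix (Fin 2) (Fin 2) ℤ := !![x00, x01; x10, x11] with hX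
  set δm : Matrix (Fin 2) (Fin 2) ℤ := 1 + (3 * k) • (m * X * m.adjugate) with hδm
  have hγX : (γ : Matrix (Fin 2) (Fin 2) ℤ) = 1 + (M : ℤ) • X := by
    ext i j
    fin_cases i <;> fin_cases j <;> simp [hX]
    · linear_combination hx00
    · linear_combination hx01
    · linear_combination hx10
    · linear_combination hx11
  have hmul : δm * m = m * (γ : Matrix (Fin 2) (Fin 2) ℤ) := by
    rw [hδm, hγX, add_mul, mul_add, one_mul, mul_one, Matrix.smul_mul, Matrix.mul_assoc,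
      adjugate_mul, Matrix.mul_smul, Matrix.mul_smul, mul_one, smul_smul, hk]
    congr 2
    ring
  have hδdet : δm.det = 1 := by
    have h1 := congrArg Matrix.det hmul
    rw [det_mul, det_mul, γ.det_coe] at h1
    have h2 : (δm.det - 1) * m.det = 0 := by linear_combination h1
    rcases mul_eq_zero.mp h2 with h3 | h3
    · linarith
    · omega
  set δ : SLZ := ⟨δm, hδdet⟩ with hδ
  have hcoe : (δ : Matrix (Fin 2) (Fin 2) ℤ) = δm := rfl
  have h5 : 0 < (m * (γ : Matrix (Fin 2) (Fin 2) ℤ)).det := by rw [det_mul_SL]; exact h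
  have h6 : 0 < ((δ : Matrix (Fin 2) (Fin 2) ℤ) * m).det := by rw [det_SL_mul]; exact h
  rw [← em_mul_right m h γ h5]
  have h7 : m * (γ : Matrix (Fin 2) (Fin 2) ℤ) = (δ : Matrix (Fin 2) (Fin 2) ℤ) * m := by
    rw [hcoe, hmul]
  rw [em_congr h7 h5 h6, em_mul_left m h δ h6]
  have h9 : ((psi δ : ℤ) : ZMod 3) = 0 := by
    rw [psi_cast]
    have hent : ∀ i j, ((δ i j : ℤ) : ZMod 3) = if i = j then 1 else 0 := by
      intro i j
      have : δ i j = δm i j := rfl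
      rw [this, hδm, Matrix.add_apply, Matrix.smul_apply, Matrix.one_apply, smul_eq_mul]
      push_cast
      have h3 : (3 : ZMod 3) = 0 := by decide
      rw [h3]
      split_ifs <;> ring
    rw [hent, hent, hent, hent]
    unfold psiR
    simp
  have h8 : e3 (psi δ) = 1 := by
    rw [← e3_zero]
    apply e3_congr
    rw [sub_zero]
    exact_mod_cast (ZMod.intCast_zmod_eq_zero_iff_dvd _ 3).mp h9
  rw [h8, one_smul]

end Pool.Agent.Lib.MP_24de68_nt
end

section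

namespace Pool.Agent.Lib.MP_24de68_nt

open UpperHalfPlane MatrixGroups Matrix

open scoped ModularForm

variable {A : Type*} [CommRing A] {ι : A →+* ℂ} {F : Type*} [Field F] {ρ : A →+* F} {M : ℕ}

theorem em_upper_val (m : Matrix (Fin 2) (Fin 2) ℤ) (h : 0 < m.det) (a : ℕ) (b : ℤ) (d : ℕ)
    (h00 : m 0 0 = a) (h10 : m 1 0 = 0) (h11 : m 1 1 = d) (hd : 0 < d) (z : ℍ) :
    em m h z = (a : ℂ) ^ 4 * eta8 (gl m h • z) := by
  have hdet : m.det = a * d := by rw [det_fin_two, h00, h10, h11]; ring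
  have hdC : (d : ℂ) ≠ 0 := by exact_mod_cast hd.ne'
  have hden : denom (gl m h) z = d := by
    unfold denom
    rw [gl_apply, gl_apply, h10, h11]
    simp
  unfold em
  rw [Pi.smul_apply, smul_eq_mul, ModularForm.slash_apply, sigma_gl, hden, gl_detval, hdet]
  have habs : |(((a : ℤ) * (d : ℤ) : ℤ) : ℝ)| = (a : ℝ) * d := by
    push_cast
    exact abs_of_nonneg (by positivity)
  rw [habs]
  have e1 : (4 : ℤ) - 1 = ((3 : ℕ) : ℤ) := by norm_num
  have e3 : (d : ℂ) ^ (-4 : ℤ) = ((d : ℂ) ^ 4)⁻¹ := by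
    rw [_root_.zpow_neg]; norm_cast
  rw [e1, e3, zpow_natCast]
  push_cast
  generalize eta8 (gl m h • z) = w
  field_simp

theorem em_upper_q (m : Matrix (Fin 2) (Fin 2) ℤ) (h : 0 < m.det) (a : ℕ) (b : ℤ) (d s t : ℕ)
    (h00 : m 0 0 = a) (h01 : m 0 1 = b) (h10 : m 1 0 = 0) (h11 : m 1 1 = d)
    (hd : 0 < d) (hM : 0 < M) (h1 : s * (3 * d) = a * M) (h2 : t * (3 * d) = M) (z : ℍ) :
    Complex.exp (2 * Real.pi * Complex.I * (((t : ℤ) * b : ℤ) : ℂ) / M) * qp M z ^ s =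
      qp 3 (gl m h • z) := by
  have hdC : (d : ℂ) ≠ 0 := by exact_mod_cast hd.ne'
  have hMC : (M : ℂ) ≠ 0 := by exact_mod_cast hM.ne'
  have hdetpos : 0 < (gl m h).det.val := by rw [gl_detval]; exact_mod_cast h
  have hnum : num (gl m h) z = a * z + b := by
    unfold num
    rw [gl_apply, gl_apply, h00, h01]
    simp
  have hden : denom (gl m h) z = d := by
    unfold denom
    rw [gl_apply, gl_apply, h10, h11]
    simp
  have hcoe : ((gl m h • z : ℍ) : ℂ) = (a * z + b) / d := by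
    rw [coe_smul_of_det_pos hdetpos, hnum, hden]
  rw [qp_eq, qp_eq, hcoe, ← Complex.exp_nat_mul, ← Complex.exp_add]
  congr 1
  have e1 : (s : ℂ) * (3 * d) = a * M := by exact_mod_cast h1
  have e2 : (t : ℂ) * (3 * d) = M := by exact_mod_cast h2
  push_cast
  have e4 : (s : ℂ) = a * M / (3 * d) := by
    rw [eq_div_iff (mul_ne_zero (by norm_num) hdC)]
    exact e1
  have e5 : (t : ℂ) = M / (3 * d) := by
    rw [eq_div_iff (mul_ne_zero (by norm_num) hdC)]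
    exact e2
  rw [e4, e5]
  field_simp
  ring

theorem em_upper (m : Matrix (Fin 2) (Fin 2) ℤ) (h : 0 < m.det) (a : ℕ) (b : ℤ) (d s t : ℕ)
    (h00 : m 0 0 = a) (h01 : m 0 1 = b) (h10 : m 1 0 = 0) (h11 : m 1 1 = d) (hs : 0 < s)
    (hd : 0 < d) (hM : 0 < M) (h1 : s * (3 * d) = a * M) (h2 : t * (3 * d) = M) (ζ : A)
    (hζ : ι ζ = Complex.exp (2 * Real.pi * Complex.I * (((t : ℤ) * b : ℤ) : ℂ) / M)) :
    HasExp ι M (em m h) (PowerSeries.C ((a : A) ^ 4) *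
        PowerSeries.expand s hs.ne' (PowerSeries.rescale ζ (A1 A))) := by
  intro z
  rw [em_upper_val m h a b d h00 h10 h11 hd z]
  have hC := HasEv.C (ι := ι) ((a : A) ^ 4) (qp M z)
  have e : ι ((a : A) ^ 4) = (a : ℂ) ^ 4 := by rw [map_pow, map_natCast]
  rw [e] at hC
  refine HasEv.mul hC ?_
  apply HasEv.expand
  apply HasEv.rescale
  rw [hζ, em_upper_q m h a b d s t h00 h01 h10 h11 hd hM h1 h2 z]
  exact eta8_hasExp _

theorem hnf (m : Matrix (Fin 2) (Fin 2) ℤ) (hdet : 0 < m.det) :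
    ∃ (γ : SLZ) (g : ℕ) (b : ℤ) (d : ℕ), 0 < g ∧ 0 < d ∧ (g : ℤ) * d = m.det ∧
      m = (γ : Matrix (Fin 2) (Fin 2) ℤ) * !![(g : ℤ), b; 0, (d : ℤ)] := by
  set g := Int.gcd (m 0 0) (m 1 0) with hg
  have hdet' := hdet
  rw [det_fin_two] at hdet'
  have hg0 : 0 < g := by
    rw [hg]
    rcases Nat.eq_zero_or_pos (Int.gcd (m 0 0) (m 1 0)) with h | h
    · rw [Int.gcd_eq_zero_iff] at h
      rw [h.1, h.2] at hdet'
      simp at hdet'
    · exact h
  have hbez := Int.gcd_eq_gcd_ab (m 0 0) (m 1 0)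
  rw [← hg] at hbez
  set x := Int.gcdA (m 0 0) (m 1 0)
  set y := Int.gcdB (m 0 0) (m 1 0)
  obtain ⟨p, hp⟩ : (g : ℤ) ∣ m 0 0 := Int.gcd_dvd_left _ _
  obtain ⟨r, hr⟩ : (g : ℤ) ∣ m 1 0 := Int.gcd_dvd_right _ _
  have hgz : (0 : ℤ) < g := by exact_mod_cast hg0
  have hxy : x * p + y * r = 1 := by
    have : (g : ℤ) * (x * p + y * r) = g * 1 := by
      rw [hp, hr] at hbez
      linear_combination -hbez
    exact mul_left_cancel₀ hgz.ne' this
  have hSL : p * x - (-y) * r = 1 := by linear_combination hxy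
  set b := x * m 0 1 + y * m 1 1 with hb
  set d := p * m 1 1 - r * m 0 1 with hd
  have hgd : (g : ℤ) * d = m.det := by
    rw [det_fin_two, hd, hp, hr]; ring
  have hdpos : 0 < d := by
    by_contra hc
    push Not at hc
    have := mul_nonpos_of_nonneg_of_nonpos hgz.le hc
    rw [hgd] at this
    omega
  obtain ⟨dn, hdn⟩ := Int.eq_ofNat_of_zero_le hdpos.le
  have hdn0 : 0 < dn := by
    have : (0 : ℤ) < dn := by rw [← hdn]; exact hdpos
    exact_mod_cast this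
  refine ⟨mkSL p (-y) r x hSL, g, b, dn, hg0, hdn0, by rw [← hgd, hdn], ?_⟩
  rw [mkSL_coe]
  have hdn' : ((dn : ℕ) : ℤ) = d := hdn.symm
  ext i j
  fin_cases i <;> fin_cases j <;> simp [Matrix.mul_apply, Fin.sum_univ_two]
  · linear_combination hp
  · rw [hdn', hb, hd]; linear_combination (-(m 0 1)) * hxy
  · linear_combination hr
  · rw [hdn', hb, hd]; linear_combination (-(m 1 1)) * hxy

end Pool.Agent.Lib.MP_24de68_nt
end

section

namespace Pool.Agent.Lib.MP_24de68_nt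

open UpperHalfPlane MatrixGroups Matrix

open scoped ModularForm

section

variable {A : Type*} [CommRing A] {ι : A →+* ℂ} {F : Type*} [Field F] {ρ : A →+* F} {M : ℕ}

theorem zeta_zpow (ζ : Aˣ) (hζ : ι ζ = Complex.exp (2 * Real.pi * Complex.I / M)) (n : ℤ) :
    ι ((ζ ^ n : Aˣ) : A) = Complex.exp (2 * Real.pi * Complex.I * (n : ℂ) / M) := by
  have h1 : ι ((ζ ^ n : Aˣ) : A) = ((Units.map (ι : A →* ℂ) (ζ ^ n) : ℂˣ) : ℂ) := rfl
  rw [h1, map_zpow, Units.val_zpow_eq_zpow_val]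
  have h2 : ((Units.map (ι : A →* ℂ) ζ : ℂˣ) : ℂ) = ι ζ := rfl
  rw [h2, hζ, ← Complex.exp_int_mul]
  congr 1
  ring

theorem zeta_e3 (ζ : Aˣ) (hζ : ι ζ = Complex.exp (2 * Real.pi * Complex.I / M)) (hM : 0 < M)
    (h3 : 3 ∣ M) (n : ℤ) : ι ((ζ ^ (((M / 3 : ℕ) : ℤ) * n) : Aˣ) : A) = e3 n := by
  rw [zeta_zpow ζ hζ, e3]
  obtain ⟨t, rfl⟩ := h3
  have ht : 0 < t := by omega
  rw [Nat.mul_div_cancel_left _ (by norm_num)]
  congr 1
  have : (t : ℂ) ≠ 0 := by exact_mod_cast ht.ne'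
  push_cast
  field_simp

theorem em_hasExp (ζ : Aˣ) (hζ : ι ζ = Complex.exp (2 * Real.pi * Complex.I / M)) (hM : 0 < M)
    (m : Matrix (Fin 2) (Fin 2) ℤ) (h : 0 < m.det) (hdiv : 3 * m.det ∣ (M : ℤ)) :
    ∃ φ : PowerSeries A, HasExp ι M (em m h) φ := by
  obtain ⟨γ, g, b, d, hg, hd, hgd, hm⟩ := hnf m h
  obtain ⟨k, hk⟩ := hdiv
  have hk0 : 0 < k := by
    have h1 : (0 : ℤ) < M := by exact_mod_cast hM
    rw [hk] at h1
    by_contra hc
    push Not at hc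
    have := mul_nonpos_of_nonneg_of_nonpos (by positivity : (0 : ℤ) ≤ 3 * m.det) hc
    linarith
  obtain ⟨k, rfl⟩ := Int.eq_ofNat_of_zero_le hk0.le
  have hk0 : 0 < k := by exact_mod_cast hk0
  have hMn : M = 3 * (g * d) * k := by
    have : (M : ℤ) = 3 * ((g : ℤ) * d) * k := by rw [hk, hgd]
    exact_mod_cast this
  have h3 : 3 ∣ M := ⟨g * d * k, by rw [hMn]; ring⟩
  have hu : 0 < (!![(g : ℤ), b; 0, (d : ℤ)] : Matrix (Fin 2) (Fin 2) ℤ).det := by
    rw [det_fin_two_of, mul_zero, sub_zero, hgd]; exact h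
  have h1 := em_upper (ι := ι) (M := M) !![(g : ℤ), b; 0, (d : ℤ)] hu g b d (g ^ 2 * k) (g * k)
    rfl rfl rfl rfl (by positivity) hd hM (by rw [hMn]; ring) (by rw [hMn]; ring)
    ((ζ ^ (((g * k : ℕ) : ℤ) * b) : Aˣ) : A) (zeta_zpow ζ hζ _)
  have h2 : em m h = e3 (psi γ) • em !![(g : ℤ), b; 0, (d : ℤ)] hu := by
    have h3' : 0 < ((γ : Matrix (Fin 2) (Fin 2) ℤ) * !![(g : ℤ), b; 0, (d : ℤ)]).det := by
      rw [det_SL_mul]; exact hu
    rw [em_congr hm h h3', em_mul_left _ hu γ h3']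
  rw [h2]
  obtain ⟨ψ, hψ⟩ : ∃ ψ : PowerSeries A, HasExp ι M (em !![(g : ℤ), b; 0, (d : ℤ)] hu) ψ := ⟨_, h1⟩
  refine ⟨PowerSeries.C ((ζ ^ (((M / 3 : ℕ) : ℤ) * psi γ) : Aˣ) : A) * ψ, fun z => ?_⟩
  rw [Pi.smul_apply, smul_eq_mul, ← zeta_e3 ζ hζ hM h3]
  exact HasEv.mul (HasEv.C _ _) (hψ z)

variable (ι ρ M)

open Classical in
/-- The reduction of the expansion of `em m`. -/
noncomputable def Vdef (m : Matrix (Fin 2) (Fin 2) ℤ) : HahnSeries ℤ F :=
  if h : ∃ (h0 : 0 < m.det) (φ : PowerSeries A), HasExp ι M (em m h0) φ then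
    red ρ h.choose_spec.choose else 0

variable {ι ρ M}

theorem Vdef_eq (hι : Function.Injective ι) (hM : 0 < M) {m : Matrix (Fin 2) (Fin 2) ℤ}
    (h0 : 0 < m.det) {φ : PowerSeries A} (hφ : HasExp ι M (em m h0) φ) :
    Vdef ι ρ M m = red ρ φ := by
  have h : ∃ (h0 : 0 < m.det) (φ : PowerSeries A), HasExp ι M (em m h0) φ := ⟨h0, φ, hφ⟩
  unfold Vdef
  rw [dif_pos h]
  congr 1
  exact HasExp.unique hι hM h.choose_spec.choose_spec hφ

end

section

variable {A : Type*} [CommRing A] {F : Type*} [Field F] [CharP F 2]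

/-- The construction of the reduction data. -/
noncomputable def mkRed (M : ℕ) [NeZero M] (hodd : Odd M) (h3 : 3 ∣ M) (ι : A →+* ℂ)
    (hι : Function.Injective ι) (ρ : A →+* F) (hρ : Function.Surjective ρ) (ζ : Aˣ)
    (hζ : ι ζ = Complex.exp (2 * Real.pi * Complex.I / M))
    (hω : IsPrimitiveRoot (Units.map (ρ : A →* F) ζ) M) : RedData F M where
  ω := Units.map (ρ : A →* F) ζ
  hω := hω
  B := BSet ι ρ M
  add_mem := BSet_add
  mul_mem := BSet_mul
  const_mem := BSet_const hρ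
  mono := BSet_mono (NeZero.pos M)
  D_mem := BSet_D (NeZero.pos M) h3
  translate := BSet_translate
  gamma := fun hx δ hδ γ => BSet_gamma hι (NeZero.pos M) hx δ hδ γ
  coeff_neg := fun hx γ n hn => BSet_coeff_neg hx γ n hn
  tau_T := fun hx γ => BSet_tau_T hι (NeZero.pos M) (ζ : A) hζ _ rfl hx γ
  esymm := fun hx n => BSet_esymm hι (NeZero.pos M) h3 (ζ : A) hζ hx n
  V := Vdef ι ρ M
  V_mem := by
    intro m hm hdiv
    refine ⟨em m hm, fun γ hγ => by rw [wt_one]; exact em_gamma m hm hdiv γ hγ, fun γ => ?_⟩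
    have h0 : 0 < (m * (γ : Matrix (Fin 2) (Fin 2) ℤ)).det := by rw [det_mul_SL]; exact hm
    obtain ⟨φ, hφ⟩ := em_hasExp ζ hζ (NeZero.pos M) _ h0 (by rw [det_mul_SL]; exact hdiv)
    refine ⟨φ, ?_, Vdef_eq hι (NeZero.pos M) h0 hφ⟩
    rw [wt_one, ← em_mul_right m hm γ h0]
    exact hφ
  V_chi := by
    intro γ m hm hdiv
    have h0 : 0 < ((γ : Matrix (Fin 2) (Fin 2) ℤ) * m).det := by rw [det_SL_mul]; exact hm
    obtain ⟨φ, hφ⟩ := em_hasExp ζ hζ (NeZero.pos M) m hm hdiv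
    have h1 : HasExp ι M (em ((γ : Matrix (Fin 2) (Fin 2) ℤ) * m) h0)
        (PowerSeries.C ((ζ ^ (((M / 3 : ℕ) : ℤ) * psi γ) : Aˣ) : A) * φ) := by
      intro z
      rw [em_mul_left m hm γ h0, Pi.smul_apply, smul_eq_mul, ← zeta_e3 ζ hζ (NeZero.pos M) h3]
      exact HasEv.mul (HasEv.C _ _) (hφ z)
    rw [Vdef_eq hι (NeZero.pos M) h0 h1, Vdef_eq hι (NeZero.pos M) hm hφ, map_mul, red_C]
    rw [← map_zpow]
    rfl
  V_upper := by
    intro a b d s t hs ha hd h1 h2 hdvd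
    have hdet : (!![(a : ℤ), b; 0, (d : ℤ)] : Matrix (Fin 2) (Fin 2) ℤ).det = a * d := by
      rw [det_fin_two_of, mul_zero, sub_zero]
    have hu : 0 < (!![(a : ℤ), b; 0, (d : ℤ)] : Matrix (Fin 2) (Fin 2) ℤ).det := by
      rw [hdet]; positivity
    have h4 := em_upper (ι := ι) (M := M) !![(a : ℤ), b; 0, (d : ℤ)] hu a b d s t
      rfl rfl rfl rfl hs hd (NeZero.pos M) h1 h2
      ((ζ ^ ((t : ℤ) * b) : Aˣ) : A) (zeta_zpow ζ hζ _)
    rw [Vdef_eq hι (NeZero.pos M) hu h4, map_mul, red_C, red_expand ρ hs,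
      red_rescale ρ ((Units.map (ρ : A →* F) ζ) ^ ((t : ℤ) * b)) _ (by rw [← map_zpow]; rfl),
      red_A1]
    have hao : Odd a := by
      obtain ⟨c, hc⟩ := hdvd
      have : Odd (a * (3 * d * c)) := by
        have e : a * (3 * d * c) = M := by rw [hc]; ring
        rw [e]; exact hodd
      exact (Nat.odd_mul.mp this).1
    have ha1 : ρ ((a : A) ^ 4) = 1 := by
      rw [map_pow, map_natCast]
      obtain ⟨c, hc⟩ := hao
      have : (a : F) = 1 := by
        rw [hc]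
        push_cast
        rw [CharTwo.two_eq_zero]
        ring
      rw [this, one_pow]
    rw [ha1, map_one, one_mul]

end

end Pool.Agent.Lib.MP_24de68_nt
end

section

namespace Pool.Agent.Lib.MP_24de68_nt

/-- The ring of algebraic integers. -/
abbrev Zb : Type := integralClosure ℤ ℂ

theorem two_not_unit : ¬ IsUnit (2 : Zb) := by
  intro h
  obtain ⟨u, hu⟩ := h.exists_right_inv
  have h1 : (2 : ℂ) * (u : ℂ) = 1 := by
    have h0 := congrArg (algebraMap Zb ℂ) hu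
    rw [map_mul, map_ofNat, map_one] at h0
    exact h0
  have h2 : (u : ℂ) = algebraMap ℚ ℂ (1 / 2) := by
    have h3 : (2 : ℂ) ≠ 0 := by norm_num
    rw [map_div₀, map_one, map_ofNat]
    field_simp
    linear_combination h1
  have h3 : IsIntegral ℤ (u : ℂ) := u.2
  rw [h2, isIntegral_algebraMap_iff (algebraMap ℚ ℂ).injective] at h3
  obtain ⟨y, hy⟩ := IsIntegrallyClosed.isIntegral_iff.mp h3
  have h4 : (2 : ℚ) * y = 1 := by
    have : (y : ℚ) = 1 / 2 := by exact_mod_cast hy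
    rw [this]; norm_num
  have h5 : 2 * y = 1 := by exact_mod_cast h4
  omega

theorem exists_maximal : ∃ I : Ideal Zb, I.IsMaximal ∧ (2 : Zb) ∈ I := by
  obtain ⟨I, hI, h2⟩ := Ideal.exists_le_maximal (Ideal.span {(2 : Zb)}) (by
    rw [Ne, Ideal.span_singleton_eq_top]; exact two_not_unit)
  exact ⟨I, hI, h2 (Ideal.subset_span rfl)⟩

theorem exists_zeta (M : ℕ) (hM : 0 < M) : ∃ ζ : Zbˣ,
    ((ζ : Zb) : ℂ) = Complex.exp (2 * Real.pi * Complex.I / M) ∧ ζ ^ M = 1 := by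
  have hp := Complex.isPrimitiveRoot_exp M hM.ne'
  have hint : IsIntegral ℤ (Complex.exp (2 * Real.pi * Complex.I / M)) := hp.isIntegral hM
  set z : Zb := ⟨_, hint⟩ with hz
  have hz1 : z ^ M = 1 := by
    apply Subtype.ext
    push_cast
    exact hp.pow_eq_one
  refine ⟨Units.ofPowEqOne z M hz1 hM.ne', rfl, ?_⟩
  apply Units.ext
  push_cast
  exact hz1

theorem exists_redData (M : ℕ) [NeZero M] (hodd : Odd M) (h3 : 3 ∣ M) :
    ∃ (F : Type) (_ : Field F) (_ : CharP F 2) (_ : PerfectRing F 2), Nonempty (RedData F M) := by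
  obtain ⟨I, hI, h2⟩ := exists_maximal
  let _ : Field (Zb ⧸ I) := Ideal.Quotient.field I
  have h20 : (2 : Zb ⧸ I) = 0 := by
    have h0 : (Ideal.Quotient.mk I (2 : Zb)) = 0 := Ideal.Quotient.eq_zero_iff_mem.mpr h2
    rw [map_ofNat] at h0
    exact h0
  have : CharP (Zb ⧸ I) 2 := CharTwo.of_one_ne_zero_of_two_eq_zero one_ne_zero h20
  have : Fact (Nat.Prime 2) := ⟨Nat.prime_two⟩
  have : PerfectRing (Zb ⧸ I) 2 := by
    apply PerfectRing.ofSurjective
    intro x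
    obtain ⟨a, rfl⟩ := Ideal.Quotient.mk_surjective x
    obtain ⟨b, hb⟩ := IsAlgClosed.exists_pow_nat_eq (a : ℂ) (n := 2) (by norm_num)
    have hbi : IsIntegral ℤ b := by
      apply IsIntegral.of_pow (n := 2) (by norm_num)
      rw [hb]; exact a.2
    refine ⟨Ideal.Quotient.mk I ⟨b, hbi⟩, ?_⟩
    rw [frobenius_def, ← map_pow]
    congr 1
    apply Subtype.ext
    push_cast
    exact hb
  obtain ⟨ζ, hζ, hζ1⟩ := exists_zeta M (NeZero.pos M)
  refine ⟨Zb ⧸ I, inferInstance, inferInstance, inferInstance, ⟨?_⟩⟩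
  refine mkRed M hodd h3 (integralClosure ℤ ℂ).val.toRingHom Subtype.val_injective
    (Ideal.Quotient.mk I) Ideal.Quotient.mk_surjective ζ hζ ?_
  apply IsPrimitiveRoot.mk_of_lt _ (NeZero.pos M)
  · rw [← map_pow, hζ1, map_one]
  · intro l hl hlM h
    have hne : ((ζ ^ l : Zbˣ) : Zb) - 1 ≠ 0 := by
      intro h4
      have h5 : ((ζ ^ l : Zbˣ) : Zb) = 1 := sub_eq_zero.mp h4
      have h6 : (Complex.exp (2 * Real.pi * Complex.I / M)) ^ l = 1 := by
        rw [← hζ]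
        have := congrArg (fun x : Zb => (x : ℂ)) h5
        push_cast at this
        exact this
      have h7 := ((Complex.isPrimitiveRoot_exp M (NeZero.ne M)).pow_eq_one_iff_dvd l).mp h6
      exact absurd (Nat.le_of_dvd hl h7) (by omega)
    have hsum : ∑ i ∈ Finset.range M, (((ζ ^ l : Zbˣ) : Zb)) ^ i = 0 := by
      have h4 := geom_sum_mul ((ζ ^ l : Zbˣ) : Zb) M
      have h5 : ((ζ ^ l : Zbˣ) : Zb) ^ M = 1 := by
        rw [← Units.val_pow_eq_pow_val, ← pow_mul, mul_comm, pow_mul, hζ1, one_pow, Units.val_one]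
      rw [h5, sub_self] at h4
      exact (mul_eq_zero.mp h4).resolve_right hne
    have h8 := congrArg (Ideal.Quotient.mk I) hsum
    rw [map_sum, map_zero] at h8
    have h9 : Ideal.Quotient.mk I ((ζ ^ l : Zbˣ) : Zb) = 1 := by
      have := congrArg (fun x : (Zb ⧸ I)ˣ => (x : Zb ⧸ I)) h
      rw [← map_pow] at this
      exact this
    have h10 : ∀ i ∈ Finset.range M, Ideal.Quotient.mk I ((((ζ ^ l : Zbˣ) : Zb)) ^ i) = 1 := by
      intro i _
      rw [map_pow, h9, one_pow]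
    rw [Finset.sum_congr rfl h10, Finset.sum_const, Finset.card_range, nsmul_eq_mul, mul_one] at h8
    obtain ⟨c, hc⟩ := hodd
    rw [hc] at h8
    push_cast at h8
    rw [h20, zero_mul, zero_add] at h8
    exact one_ne_zero h8

end Pool.Agent.Lib.MP_24de68_nt
end

section

namespace Pool.Agent.Lib.MP_24de68_nt

theorem odd_of_cast_ne_zero {F : Type*} [Field F] [CharP F 2] {n : ℕ} (h : (n : F) ≠ 0) : Odd n := by
  rw [← Nat.not_even_iff_odd]
  rintro ⟨k, rfl⟩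
  apply h
  push_cast
  exact CharTwo.add_self_eq_zero _

theorem exists_P_aux (r N' : ℕ) (hN : Odd N') (B : ℤ) :
    ∃ m : ℕ, ((2 ^ r * N' : ℕ) : ℤ) ∣ (m : ℤ) - B ∧ Odd (aCount (4 * m)) := by
  have hN0 : 0 < N' := hN.pos
  have hne : NeZero (9 * (3 * N') ^ 2) := ⟨by positivity⟩
  have hodd : Odd (9 * (3 * N') ^ 2) :=
    Odd.mul (by decide) ((Odd.mul (by decide) hN).pow)
  obtain ⟨F, _, _, _, ⟨R⟩⟩ := exists_redData (9 * (3 * N') ^ 2) hodd
    ⟨3 * (3 * N') ^ 2, by ring⟩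
  obtain ⟨n, h1, h2, h3⟩ := main_P hN R (XP F) (XP_eq F) (n₀ := 24 * B - 1) (by omega)
    (XP_supp F) (r + 3)
  obtain ⟨m, hm⟩ := XP_supp F n h3
  have hn : n = 24 * m - 1 := by linarith
  rw [hn, XP_coeff] at h3
  have hm0 : 0 ≤ m := by
    by_contra hc
    exact h3 (cS_neg F (by omega))
  obtain ⟨m, rfl⟩ := Int.eq_ofNat_of_zero_le hm0
  rw [← aCount_four_mul] at h3
  refine ⟨m, ?_, odd_of_cast_ne_zero h3⟩
  have hd : n - (24 * B - 1) = 24 * ((m : ℤ) - B) := by rw [hn]; ring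
  rw [hd] at h1 h2
  have e1 : (2 ^ r : ℤ) ∣ (m : ℤ) - B := by
    have : (2 ^ r : ℤ) ∣ 3 * ((m : ℤ) - B) := by
      have h4 : (2 : ℤ) ^ 3 * 2 ^ r ∣ 2 ^ 3 * (3 * ((m : ℤ) - B)) := by
        rw [← pow_add, add_comm 3 r]
        convert h1 using 1
        ring
      exact (mul_dvd_mul_iff_left (by norm_num)).mp h4
    have hc : IsCoprime ((2 : ℤ) ^ r) 3 := IsCoprime.pow_left (by
      rw [Int.isCoprime_iff_gcd_eq_one]; decide)
    exact hc.dvd_of_dvd_mul_left this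
  have hNodd : Odd ((N' : ℕ) : ℤ) := by exact_mod_cast hN
  have e2 : ((N' : ℕ) : ℤ) ∣ (m : ℤ) - B := by
    have h5 : (3 : ℤ) * (3 * N') ∣ 3 * (2 ^ 3 * ((m : ℤ) - B)) := by
      have h6 : ((3 * (3 * N') : ℕ) : ℤ) = 3 * (3 * N') := by push_cast; ring
      rw [h6] at h2
      convert h2 using 1
      ring
    have h7 := (mul_dvd_mul_iff_left (by norm_num)).mp h5
    have hc : IsCoprime (3 * (N' : ℤ)) (2 ^ 3) := by
      apply IsCoprime.pow_right
      exact (Int.isCoprime_two_right).mpr (Odd.mul (by decide) hNodd)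
    have h8 := hc.dvd_of_dvd_mul_left h7
    exact (Dvd.intro_left 3 rfl).trans h8
  push_cast
  have hc : IsCoprime ((2 : ℤ) ^ r) (N' : ℤ) := IsCoprime.pow_left (Int.isCoprime_two_left.mpr hNodd)
  exact hc.mul_dvd e1 e2

theorem exists_Q_aux (r N' : ℕ) (hN : Odd N') (B : ℤ) :
    ∃ m : ℕ, ((2 ^ r * N' : ℕ) : ℤ) ∣ (m : ℤ) - B ∧ Odd (aCount (4 * m + 1)) := by
  have hN0 : 0 < N' := hN.pos
  have hne : NeZero (9 * (3 * N') ^ 2) := ⟨by positivity⟩
  have hodd : Odd (9 * (3 * N') ^ 2) :=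
    Odd.mul (by decide) ((Odd.mul (by decide) hN).pow)
  obtain ⟨F, _, _, _, ⟨R⟩⟩ := exists_redData (9 * (3 * N') ^ 2) hodd
    ⟨3 * (3 * N') ^ 2, by ring⟩
  obtain ⟨n, h1, h2, h3⟩ := main_Q (Odd.mul (by decide) hN) (dvd_mul_right 3 N') R (XQ F) (XQ_eq F)
    (n₀ := 24 * B + 5) (by omega) (XQ_supp F) (r + 3)
  obtain ⟨m, hm⟩ := XQ_supp F n h3
  have hn : n = 24 * m + 5 := by linarith
  rw [hn, XQ_coeff] at h3
  have hm0 : 0 ≤ m := by
    by_contra hc
    exact h3 (dS_neg F (by omega))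
  obtain ⟨m, rfl⟩ := Int.eq_ofNat_of_zero_le hm0
  rw [← aCount_four_mul_add_one] at h3
  refine ⟨m, ?_, odd_of_cast_ne_zero h3⟩
  have hd : n - (24 * B + 5) = 24 * ((m : ℤ) - B) := by rw [hn]; ring
  rw [hd] at h1 h2
  have e1 : (2 ^ r : ℤ) ∣ (m : ℤ) - B := by
    have : (2 ^ r : ℤ) ∣ 3 * ((m : ℤ) - B) := by
      have h4 : (2 : ℤ) ^ 3 * 2 ^ r ∣ 2 ^ 3 * (3 * ((m : ℤ) - B)) := by
        rw [← pow_add, add_comm 3 r]
        convert h1 using 1
        ring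
      exact (mul_dvd_mul_iff_left (by norm_num)).mp h4
    have hc : IsCoprime ((2 : ℤ) ^ r) 3 := IsCoprime.pow_left (by
      rw [Int.isCoprime_iff_gcd_eq_one]; decide)
    exact hc.dvd_of_dvd_mul_left this
  have hNodd : Odd ((N' : ℕ) : ℤ) := by exact_mod_cast hN
  have e2 : ((N' : ℕ) : ℤ) ∣ (m : ℤ) - B := by
    have h5 : (3 : ℤ) * (3 * N') ∣ 3 * (2 ^ 3 * ((m : ℤ) - B)) := by
      have h6 : ((3 * (3 * N') : ℕ) : ℤ) = 3 * (3 * N') := by push_cast; ring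
      rw [h6] at h2
      convert h2 using 1
      ring
    have h7 := (mul_dvd_mul_iff_left (by norm_num)).mp h5
    have hc : IsCoprime (3 * (N' : ℤ)) (2 ^ 3) := by
      apply IsCoprime.pow_right
      exact (Int.isCoprime_two_right).mpr (Odd.mul (by decide) hNodd)
    have h8 := hc.dvd_of_dvd_mul_left h7
    exact (Dvd.intro_left 3 rfl).trans h8
  push_cast
  have hc : IsCoprime ((2 : ℤ) ^ r) (N' : ℤ) := IsCoprime.pow_left (Int.isCoprime_two_left.mpr hNodd)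
  exact hc.mul_dvd e1 e2

/-- From residues to arbitrarily large members. -/
theorem large_of_residue (P : ℕ → Prop)
    (h : ∀ (r N' : ℕ), Odd N' → ∀ B : ℤ, ∃ m : ℕ, ((2 ^ r * N' : ℕ) : ℤ) ∣ (m : ℤ) - B ∧ P m)
    (q : ℕ) (hq : 0 < q) (B K : ℕ) : ∃ n : ℕ, K ≤ n ∧ P (B + q * n) := by
  set q' : ℕ := q * (B + K + 1) with hq'
  have hq'0 : q' ≠ 0 := by positivity
  obtain ⟨r, N', hN', hqN⟩ := Nat.exists_eq_two_pow_mul_odd hq'0
  obtain ⟨m, hm, hP⟩ := h r N' hN' ((B + q * K : ℕ) : ℤ)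
  rw [← hqN] at hm
  have hlt : B + q * K < q' := by
    rw [hq']
    nlinarith
  have hge : B + q * K ≤ m := by
    by_contra hc
    push Not at hc
    obtain ⟨c, hc2⟩ := hm
    have h1 : (m : ℤ) - ((B + q * K : ℕ) : ℤ) < 0 := by
      have : (m : ℤ) < ((B + q * K : ℕ) : ℤ) := by exact_mod_cast hc
      linarith
    have h2 : -(q' : ℤ) < (m : ℤ) - ((B + q * K : ℕ) : ℤ) := by
      have h3 : ((B + q * K : ℕ) : ℤ) < q' := by exact_mod_cast hlt
      have h4 : (0 : ℤ) ≤ m := by positivity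
      linarith
    have hq'pos : (0 : ℤ) < q' := by positivity
    rw [hc2] at h1 h2
    have h5 : c < 0 := by
      by_contra h6
      push Not at h6
      have := mul_nonneg hq'pos.le h6
      linarith
    have h6 : c ≤ -1 := by omega
    have h7 := mul_le_mul_of_nonneg_left h6 hq'pos.le
    linarith
  have hdvd : (q : ℤ) ∣ ((m - (B + q * K) : ℕ) : ℤ) := by
    rw [Nat.cast_sub hge]
    exact (Dvd.intro _ (by rw [hq']; push_cast; rfl) : (q : ℤ) ∣ (q' : ℤ)).trans hm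
  have hdvd' : q ∣ m - (B + q * K) := by exact_mod_cast hdvd
  obtain ⟨c, hc⟩ := hdvd'
  refine ⟨K + c, by omega, ?_⟩
  have : B + q * (K + c) = m := by
    have : m = (B + q * K) + q * c := by omega
    rw [this]; ring
  rw [this]
  exact hP

theorem class_cond {A B : ℕ} (h : ∀ n, (A * n + B) % 4 ≠ 2 ∧ (A * n + B) % 4 ≠ 3) :
    4 ∣ A ∧ (B % 4 = 0 ∨ B % 4 = 1) := by
  have h0 := h 0
  have h1 := h 1
  have h2 := h 2
  have h3 := h 3
  omega

theorem final {A B : ℕ} (hA : 1 ≤ A) (h : ∀ n, (A * n + B) % 4 ≠ 2 ∧ (A * n + B) % 4 ≠ 3)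
    (K : ℕ) : ∃ n : ℕ, K ≤ n ∧ Odd (aCount (A * n + B)) := by
  obtain ⟨⟨q, rfl⟩, hB⟩ := class_cond h
  have hq : 0 < q := by omega
  rcases hB with hB | hB
  · obtain ⟨n, hn, hP⟩ := large_of_residue (fun m => Odd (aCount (4 * m))) exists_P_aux q hq (B / 4) K
    refine ⟨n, hn, ?_⟩
    have : 4 * q * n + B = 4 * (B / 4 + q * n) := by
      have : B = 4 * (B / 4) := by omega
      nlinarith
    rw [this]
    exact hP
  · obtain ⟨n, hn, hP⟩ := large_of_residue (fun m => Odd (aCount (4 * m + 1))) exists_Q_aux q hq (B / 4) K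
    refine ⟨n, hn, ?_⟩
    have : 4 * q * n + B = 4 * (B / 4 + q * n) + 1 := by
      have : B = 4 * (B / 4) + 1 := by omega
      nlinarith
    rw [this]
    exact hP

end Pool.Agent.Lib.MP_24de68_nt
end
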